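import Pool.Agent.H59.SEP.Main

set_option autoImplicit false
set_option linter.unusedSectionVars false

open scoped Pointwise Polynomial

namespace Pool.Agent.H59.SEP

variable {V : Type*} [Fintype V] [DecidableEq V]

/-- deleting an edge from a `2`-connected graph leaves it connected -/
theorem deleteEdge_connected (G : SimpleGraph V) (h3 : 3 ≤ Fintype.card V)
    (h2 : ∀ v : V, (G.induce ({v}ᶜ : Set V)).Connected) (i j : V) :
    (G.deleteEdges {s(i, j)}).Connected := by
  have hmap : ∀ (r : V), (r = i ∨ r = j) → ∀ a b : V, a ≠ r → b ≠ r →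
      (G.deleteEdges {s(i, j)}).Reachable a b := by
    intro r hr a b ha hb
    have h1 := (h2 r).preconnected ⟨a, by simpa using ha⟩ ⟨b, by simpa using hb⟩
    let φ : G.induce ({r}ᶜ : Set V) →g G.deleteEdges {s(i, j)} :=
      { toFun := fun v => v.1
        map_rel' := by
          rintro ⟨x, hx⟩ ⟨y, hy⟩ hxy
          simp only [SimpleGraph.comap_adj, Function.Embedding.subtype_apply] at hxy
          rw [SimpleGraph.deleteEdges_adj]
          refine ⟨hxy, ?_⟩
          simp only [Set.mem_singleton_iff, Sym2.eq_iff, not_or, not_and]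
          simp only [Set.mem_compl_iff, Set.mem_singleton_iff] at hx hy
          rcases hr with rfl | rfl
          · exact ⟨fun h => absurd h hx, fun _ h => absurd h hy⟩
          · exact ⟨fun _ h => absurd h hy, fun h => absurd h hx⟩ }
    exact h1.map φ
  have hk : ∃ k : V, k ≠ i ∧ k ≠ j := by
    by_contra hcon
    push Not at hcon
    have : (Finset.univ : Finset V) ⊆ {i, j} := by
      intro x _
      by_cases hx : x = i
      · simp [hx]
      · simp [hcon x hx]
    have h4 := Finset.card_le_card this
    have h5 : ({i, j} : Finset V).card ≤ 2 := Finset.card_le_two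
    rw [Finset.card_univ] at h4
    omega
  obtain ⟨k, hki, hkj⟩ := hk
  have hall : ∀ a : V, (G.deleteEdges {s(i, j)}).Reachable a k := by
    intro a
    by_cases ha : a = i
    · by_cases hij : i = j
      · -- a degenerate case: nothing is deleted
        subst hij
        have h6 : ∃ l : V, l ≠ i ∧ l ≠ k := by
          by_contra hcon
          push Not at hcon
          have : (Finset.univ : Finset V) ⊆ {i, k} := by
            intro x _
            by_cases hx : x = i
            · simp [hx]
            · simp [hcon x hx]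
          have h4 := Finset.card_le_card this
          have h5 : ({i, k} : Finset V).card ≤ 2 := Finset.card_le_two
          rw [Finset.card_univ] at h4
          omega
        obtain ⟨l, hli, hlk⟩ := h6
        have h7 := (h2 l).preconnected ⟨a, by rw [ha]; simpa using hli.symm⟩
          ⟨k, by simpa using hlk.symm⟩
        let φ : G.induce ({l}ᶜ : Set V) →g G.deleteEdges {s(i, i)} :=
          { toFun := fun v => v.1
            map_rel' := by
              rintro ⟨x, hx⟩ ⟨y, hy⟩ hxy
              simp only [SimpleGraph.comap_adj, Function.Embedding.subtype_apply] at hxy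
              rw [SimpleGraph.deleteEdges_adj]
              refine ⟨hxy, ?_⟩
              simp only [Set.mem_singleton_iff, Sym2.eq_iff, not_or, not_and]
              refine ⟨fun h1 h2 => ?_, fun h1 h2 => ?_⟩ <;>
              · subst h1; subst h2; exact G.loopless.irrefl _ hxy }
        exact h7.map φ
      · exact hmap j (Or.inr rfl) a k (by rw [ha]; exact hij) hkj
    · exact hmap i (Or.inl rfl) a k ha hki
  have : Nonempty V := ⟨i⟩
  exact ⟨fun a b => (hall a).trans (hall b).symm⟩

theorem main_theorem (G : SimpleGraph V) (i j : V)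
    (hij : G.Adj i j) (hconn : (G.deleteEdges {s(i, j)}).Connected)
    (K : Geometry.SimplicialComplex ℝ (V → ℝ))
    (hK : IsUnimodularTriangulation K
      (⋃₀ {F | IsVisibleFacet (polytope (G.deleteEdges {s(i, j)})) (ev i j) F})
      (Fintype.card V - 1))
    (k : ℕ) (h : ℕ → ℕ) (hanti : StrictAntiOn h (Set.Icc 1 k))
    (hval : h '' Set.Icc 1 k = height (ez i j) '' K.facets) :
    (∀ s ∈ K.facets, ∀ n : ℕ, IsLatticeDistance s (ez i j) n ↔ n = height (ez i j) s) ∧
    hStar (polytope G) (Fintype.card V - 1) -
        hStar (polytope (G.deleteEdges {s(i, j)})) (Fintype.card V - 1) =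
      ((2 * Polynomial.X * ∑ s ∈ Finset.Icc 1 k, qPoly K (ez i j) (Fintype.card V - 1) h s :
        ℤ[X]) : PowerSeries ℤ) ∧
    ∀ s ∈ Finset.Icc 1 k,
      (∀ l, 0 ≤ (qPoly K (ez i j) (Fintype.card V - 1) h s).coeff l) ∧
      IsPalindromic (Fintype.card V - 1)
        (2 * Polynomial.X * qPoly K (ez i j) (Fintype.card V - 1) h s) := by
  classical
  set H := G.deleteEdges {s(i, j)} with hH
  set d := Fintype.card V - 1 with hd
  have hne' : i ≠ j := hij.ne
  have hnij : ¬ H.Adj i j := by
    rw [hH, SimpleGraph.deleteEdges_adj]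
    simp
  have hGH : ∀ a b, G.Adj a b ↔ H.Adj a b ∨ (a = i ∧ b = j) ∨ (a = j ∧ b = i) := by
    intro a b
    rw [hH, SimpleGraph.deleteEdges_adj]
    simp only [Set.mem_singleton_iff, Sym2.eq_iff]
    constructor
    · intro hab
      by_cases h1 : (a = i ∧ b = j) ∨ (a = j ∧ b = i)
      · exact Or.inr h1
      · exact Or.inl ⟨hab, h1⟩
    · rintro (h1 | ⟨rfl, rfl⟩ | ⟨rfl, rfl⟩)
      · exact h1.1
      · exact hij
      · exact hij.symm
  have hcG : G.Connected := hconn.mono (by rw [hH]; exact G.deleteEdges_le _)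
  have hne : ∃ a b, H.Adj a b := by
    obtain ⟨w⟩ := hconn.preconnected i j
    cases w with
    | nil => exact absurd rfl hne'
    | cons h1 _ => exact ⟨_, _, h1⟩
  -- the finite set of facets
  have hfin : K.facets.Finite := hK.finite.subset (fun s hs => hs.1)
  set FS : Finset (Finset (V → ℝ)) := hfin.toFinset with hFSdef
  have hFS : ∀ s, s ∈ FS ↔ s ∈ K.facets := fun s => by rw [hFSdef, Set.Finite.mem_toFinset]
  have hdata : ∀ s ∈ FS, ∃ f : V → ℤ, FacetData H i j s f :=
    fun s hs => facet_data hconn hne hK ((hFS s).1 hs)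
  choose! f D using hdata
  obtain ⟨e', w, B, κ, hg⟩ := exists_generic' D
  let L : ℕ → Finset (V → ℤ) := fun l => (XS_finite hconn l).toFinset.filter (fun x => N H x = l)
  have hL : ∀ l x, x ∈ L l ↔ ∑ v, x v = 0 ∧ N H x = l := by
    intro l x
    simp only [L, Finset.mem_filter, Set.Finite.mem_toFinset, XS, Set.mem_ofPred_eq]
    constructor
    · rintro ⟨⟨h1, _⟩, h2⟩; exact ⟨h1, h2⟩
    · rintro ⟨h1, h2⟩; exact ⟨⟨h1, h2.le⟩, h2⟩
  -- the heights
  have himg : ∀ m, m ∈ FS.image (height (ez i j)) ↔ ∃ t ∈ Set.Icc 1 k, h t = m := by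
    intro m
    rw [Finset.mem_image]
    have h1 : m ∈ height (ez i j) '' K.facets ↔ ∃ a ∈ FS, height (ez i j) a = m := by
      constructor
      · rintro ⟨s, hs, rfl⟩; exact ⟨s, (hFS s).2 hs, rfl⟩
      · rintro ⟨s, hs, rfl⟩; exact ⟨s, (hFS s).1 hs, rfl⟩
    rw [← h1, ← hval]
    rfl
  -- `D_s` is the difference of consecutive `h`-polynomials
  have hDs : ∀ s ∈ Finset.Icc 1 k, DPoly K (ez i j) d h s = Dp K (ez i j) d (h s) := by
    intro s hs
    rw [Finset.mem_Icc] at hs
    unfold DPoly Dp
    congr 1
    split_ifs with h1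
    · have hempty : subcomplex K (ez i j) (h s + 1) = ∅ := by
        rw [Set.eq_empty_iff_forall_notMem]
        rintro F ⟨t, ht, hm, _⟩
        obtain ⟨r, hr, hrt⟩ := (himg _).1 (Finset.mem_image_of_mem (height (ez i j)) ((hFS t).2 ht))
        rw [← hrt] at hm
        have h2 : h r ≤ h s := by
          rcases eq_or_lt_of_le hr.1 with h3 | h3
          · rw [h1, h3]
          · exact (hanti (a := s) (b := r) ⟨hs.1, hs.2⟩ hr (by omega)).le
        omega
      rw [hempty]
      unfold hPoly
      symm
      apply Finset.sum_eq_zero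
      intro a _
      simp
    · congr 1
      ext F
      constructor
      · rintro ⟨t, ht, hm, hF⟩
        refine ⟨t, ht, ?_, hF⟩
        have := hanti (a := s - 1) (b := s) ⟨by omega, by omega⟩ ⟨hs.1, hs.2⟩ (by omega)
        omega
      · rintro ⟨t, ht, hm, hF⟩
        refine ⟨t, ht, ?_, hF⟩
        obtain ⟨r, hr, hrt⟩ := (himg _).1 (Finset.mem_image_of_mem (height (ez i j)) ((hFS t).2 ht))
        rw [← hrt] at hm ⊢
        have h2 : r < s := by
          by_contra hcon
          push Not at hcon
          have := hanti.antitoneOn (a := s) (b := r) ⟨hs.1, hs.2⟩ hr hcon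
          omega
        exact hanti.antitoneOn (a := r) (b := s - 1) hr ⟨by omega, by omega⟩ (by omega)
  refine ⟨?_, ?_, ?_⟩
  · intro s hs n
    have h1 := (D s ((hFS s).2 hs)).height_eq
    rw [(D s ((hFS s).2 hs)).dist n]
    omega
  · rw [hStar_identity hconn hne' hnij hGH hcG hne hL hK hFS D hg]
    show ψ _ = ψ _
    congr 2
    have hI : FS.image (height (ez i j)) = (Finset.Icc 1 k).image h := by
      ext m
      rw [himg, Finset.mem_image]
      constructor
      · rintro ⟨t, ht, rfl⟩; exact ⟨t, Finset.mem_Icc.2 ht, rfl⟩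
      · rintro ⟨t, ht, rfl⟩; exact ⟨t, Finset.mem_Icc.1 ht, rfl⟩
    rw [hI, Finset.sum_image]
    · apply Finset.sum_congr rfl
      intro s hs
      unfold qPoly
      rw [hDs s hs]
    · intro a ha b hb hab
      exact hanti.injOn (by simpa using ha) (by simpa using hb) hab
  · intro s hs
    have hm : 1 ≤ h s := by
      have : h s ∈ FS.image (height (ez i j)) := (himg _).2 ⟨s, Finset.mem_Icc.1 hs, rfl⟩
      obtain ⟨t, ht, htm⟩ := Finset.mem_image.1 this
      have h1 := (D t ht).height_eq
      have h2 := (D t ht).slope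
      omega
    unfold qPoly
    rw [hDs s hs]
    exact q_props hconn hne' hne hL hK hFS D hg hm

end Pool.Agent.H59.SEP
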