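import Pool.Agent.H59.SEP.Poly

set_option autoImplicit false
set_option linter.unusedSectionVars false

open scoped Pointwise Polynomial

namespace Pool.Agent.H59.SEP

variable {V : Type*} [Fintype V] [DecidableEq V]

theorem bdZ_smul (c : ℤ) (z : V × V → ℤ) (v : V) : bdZ (c • z) v = c * bdZ z v := by
  simp only [bdZ, Pi.smul_apply, smul_eq_mul, ← Finset.mul_sum]; ring

variable {H G : SimpleGraph V}

theorem N_mono (hc : H.Connected) (h : ∀ a b, H.Adj a b → G.Adj a b) {x : V → ℤ} (hx : ∑ v, x v = 0) :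
    N G x ≤ N H x := by
  obtain ⟨z, hz, hz'⟩ := N_spec hc hx
  have : IsFlow G z x := ⟨hz.1, fun p hp => hz.2.1 p (fun h' => hp (h _ _ h')), hz.2.2⟩
  have := N_le this
  rw [hz'] at this
  exact_mod_cast this

theorem sum_sub_smul {x y : V → ℤ} (hx : ∑ v, x v = 0) (hy : ∑ v, y v = 0) (k : ℤ) :
    ∑ v, (x - k • y) v = 0 := by
  simp [Finset.sum_sub_distrib, hx, ← Finset.mul_sum, hy]

theorem NG_le_iff {i j : V} (hij : i ≠ j) (hnij : ¬ H.Adj i j)
    (hGH : ∀ a b, G.Adj a b ↔ H.Adj a b ∨ (a = i ∧ b = j) ∨ (a = j ∧ b = i))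
    (hc : H.Connected) (hcG : G.Connected) {x : V → ℤ} (hx : ∑ v, x v = 0) (m : ℕ) :
    N G x ≤ m ↔ ∃ k : ℤ, (N H (x - k • ez i j) : ℤ) + |k| ≤ m := by
  constructor
  · intro hN
    obtain ⟨z, hz, hz'⟩ := N_spec hcG hx
    have hne : (i, j) ≠ (j, i) := by simp [hij]
    set w : V × V → ℤ := z - z (i, j) • Pi.single (i, j) 1 - z (j, i) • Pi.single (j, i) 1 with hw
    have hw1 : w (i, j) = 0 := by
      simp [hw, Pi.single_apply, hne]
    have hw2 : w (j, i) = 0 := by
      simp [hw, Pi.single_apply, hne.symm]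
    have hw3 : ∀ p, p ≠ (i, j) → p ≠ (j, i) → w p = z p := by
      intro p h1 h2
      simp [hw, Pi.single_apply, h1, h2]
    have hwf : IsFlow H w (x - (z (i, j) - z (j, i)) • ez i j) := by
      refine ⟨fun p => ?_, fun p hp => ?_, fun v => ?_⟩
      · by_cases h1 : p = (i, j)
        · rw [h1, hw1]
        · by_cases h2 : p = (j, i)
          · rw [h2, hw2]
          · rw [hw3 p h1 h2]; exact hz.1 p
      · by_cases h1 : p = (i, j)
        · rw [h1, hw1]
        · by_cases h2 : p = (j, i)
          · rw [h2, hw2]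
          · rw [hw3 p h1 h2]
            apply hz.2.1 p
            rw [hGH]
            rintro (h | h | h)
            · exact hp h
            · exact h1 (Prod.ext h.1 h.2)
            · exact h2 (Prod.ext h.1 h.2)
      · rw [hw, bdZ_sub, bdZ_sub, bdZ_smul, bdZ_smul, bdZ_single, bdZ_single, hz.2.2, ← ez_neg i j]
        simp only [Pi.sub_apply, Pi.smul_apply, Pi.neg_apply, smul_eq_mul]
        ring
    refine ⟨z (i, j) - z (j, i), ?_⟩
    have h1 := N_le hwf
    have h2 : ∑ p, w p = ∑ p, z p - z (i, j) - z (j, i) := by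
      simp [hw, Finset.sum_sub_distrib, ← Finset.mul_sum]
    have h3 : |z (i, j) - z (j, i)| ≤ z (i, j) + z (j, i) := by
      rw [abs_le]; constructor <;> linarith [hz.1 (i, j), hz.1 (j, i)]
    have : (N G x : ℤ) ≤ m := by exact_mod_cast hN
    linarith
  · rintro ⟨k, hk⟩
    have hadj : G.Adj i j := (hGH i j).2 (Or.inr (Or.inl ⟨rfl, rfl⟩))
    have h1 : (N G (ez i j) : ℤ) ≤ 1 := N_ez hadj
    have h2 : (N G (k • ez i j) : ℤ) ≤ |k| := by
      have hn : ∀ n : ℕ, (N G (n • ez i j) : ℤ) ≤ n := by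
        intro n
        rw [N_nsmul hcG (sum_ez i j)]
        nlinarith
      rcases le_total 0 k with h | h
      · obtain ⟨n, rfl⟩ := Int.eq_ofNat_of_zero_le h
        rw [natCast_zsmul]
        have := hn n
        simpa using this
      · obtain ⟨n, hn'⟩ := Int.eq_ofNat_of_zero_le (neg_nonneg.2 h)
        have hk' : k = -(n : ℤ) := by omega
        rw [hk', neg_smul, natCast_zsmul, N_neg hcG]
        · have := hn n
          simpa using this
        · simp [← Finset.mul_sum, sum_ez]
    have hs1 := sum_sub_smul hx (sum_ez i j) k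
    have hs2 : ∑ v, (k • ez i j) v = 0 := by simp [← Finset.mul_sum, sum_ez]
    have h3 := N_add hcG hs1 hs2
    rw [sub_add_cancel] at h3
    have h4 : (N G (x - k • ez i j) : ℤ) ≤ N H (x - k • ez i j) := by
      exact_mod_cast N_mono hc (fun a b h => (hGH a b).2 (Or.inl h)) hs1
    have : (N G x : ℤ) ≤ m := by linarith
    exact_mod_cast this

/-- points of norm at most `m` -/
def XS (H : SimpleGraph V) (m : ℕ) : Set (V → ℤ) := {x | ∑ v, x v = 0 ∧ N H x ≤ m}

/-- positive half of the points of norm at most `m` for `G` -/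
def US (H : SimpleGraph V) (e : V → ℤ) (m : ℕ) : Set (V → ℤ) :=
  {x | ∑ v, x v = 0 ∧ ∃ k : ℕ, N H (x - k • e) + k ≤ m}

theorem coord_le (hc : H.Connected) {x : V → ℤ} (hx : ∑ v, x v = 0) (v : V) : x v ≤ N H x := by
  have := dot_le hc (f := Pi.single v 1) (by
    intro a b _
    simp only [Pi.single_apply]
    split_ifs <;> simp) hx
  simpa [Pi.single_apply] using this

theorem abs_coord_le (hc : H.Connected) {x : V → ℤ} (hx : ∑ v, x v = 0) (v : V) : |x v| ≤ N H x := by
  rw [abs_le]
  constructor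
  · have := coord_le hc (x := -x) (by simp [hx]) v
    rw [N_neg hc hx] at this
    simp at this
    linarith
  · exact coord_le hc hx v

theorem XS_finite (hc : H.Connected) (m : ℕ) : (XS H m).Finite := by
  apply (Set.finite_Icc (fun _ : V => (-(m : ℤ))) (fun _ => (m : ℤ))).subset
  rintro x ⟨hx, hN⟩
  have hN' : (N H x : ℤ) ≤ m := by exact_mod_cast hN
  constructor
  · intro v
    have := abs_le.1 (abs_coord_le hc hx v)
    show -(m : ℤ) ≤ x v
    linarith
  · intro v
    have := abs_le.1 (abs_coord_le hc hx v)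
    show x v ≤ (m : ℤ)
    linarith

theorem sum_nsmul_zero {e : V → ℤ} (he : ∑ v, e v = 0) (k : ℕ) : ∑ v, (k • e) v = 0 := by
  simp [← Finset.mul_sum, he]

theorem US_finite (hc : H.Connected) {e : V → ℤ} (he : ∑ v, e v = 0) (m : ℕ) : (US H e m).Finite := by
  apply (XS_finite hc (m + m * N H e)).subset
  rintro x ⟨hx, k, hk⟩
  refine ⟨hx, ?_⟩
  have h1 : ∑ v, (x - k • e) v = 0 := by
    have := sum_sub_smul hx he (k : ℤ)
    simpa using this
  have h2 := N_add hc h1 (sum_nsmul_zero he k)
  rw [sub_add_cancel, N_nsmul hc he] at h2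
  have hk' : (N H (x - k • e) : ℤ) + k ≤ m := by exact_mod_cast hk
  have h3 : (k : ℤ) * N H e ≤ m * N H e := by
    apply mul_le_mul_of_nonneg_right _ (by positivity)
    have : (0 : ℤ) ≤ N H (x - k • e) := by positivity
    linarith
  have : (N H x : ℤ) ≤ m + m * N H e := by linarith [(by positivity : (0:ℤ) ≤ k)]
  exact_mod_cast this

theorem XS_subset_US {e : V → ℤ} (m : ℕ) : XS H m ⊆ US H e m := by
  rintro x ⟨hx, hN⟩
  exact ⟨hx, 0, by simpa using hN⟩

/-- convexity on a line -/
theorem N_convex (hc : H.Connected) {x y w : V → ℤ} (hx : ∑ v, x v = 0) (hy : ∑ v, y v = 0)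
    (hw : ∑ v, w v = 0) {k l : ℕ} (h : (k + l) • w = k • x + l • y) :
    ((k : ℤ) + l) * N H w ≤ k * N H x + l * N H y := by
  have h1 := N_add hc (sum_nsmul_zero hx k) (sum_nsmul_zero hy l)
  rw [← h, N_nsmul hc hw, N_nsmul hc hx, N_nsmul hc hy] at h1
  push_cast at h1
  exact h1

/-- the number of points `y` with `N(y) < m < N(y+e)` -/
noncomputable def bnum (H : SimpleGraph V) (e : V → ℤ) (m : ℕ) : ℕ :=
  {y : V → ℤ | ∑ v, y v = 0 ∧ N H y < m ∧ m < N H (y + e)}.ncard

/-- the number of new points on the positive side -/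
noncomputable def cnum (H : SimpleGraph V) (e : V → ℤ) (m : ℕ) : ℕ := (US H e m \ XS H m).ncard

theorem cnum_zero (H : SimpleGraph V) (e : V → ℤ) : cnum H e 0 = 0 := by
  have : US H e 0 \ XS H 0 = ∅ := by
    ext x
    simp only [Set.mem_sdiff, Set.mem_empty_iff_false, iff_false, not_and, not_not]
    rintro ⟨hx, k, hk⟩
    have hk0 : k = 0 := by omega
    subst hk0
    exact ⟨hx, by simpa using hk⟩
  rw [cnum, this]; simp

theorem cnum_succ (hc : H.Connected) {e : V → ℤ} (he : ∑ v, e v = 0) (m : ℕ) :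
    cnum H e (m + 1) = cnum H e m + bnum H e (m + 1) := by
  have himg : US H e (m + 1) \ XS H (m + 1) =
      (fun y => y + e) '' ((US H e m \ XS H m) ∪
        {y : V → ℤ | ∑ v, y v = 0 ∧ N H y < m + 1 ∧ m + 1 < N H (y + e)}) := by
    ext x
    constructor
    · rintro ⟨⟨hx, k, hk⟩, hx2⟩
      have hx3 : m + 1 < N H x := by
        by_contra hcon
        exact hx2 ⟨hx, by omega⟩
      have hk1 : 1 ≤ k := by
        rcases Nat.eq_zero_or_pos k with h | h
        · subst h
          simp at hk
          omega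
        · exact h
      obtain ⟨k', rfl⟩ : ∃ k', k = k' + 1 := ⟨k - 1, by omega⟩
      refine ⟨x - e, ?_, by simp⟩
      have hxe : ∑ v, (x - e) v = 0 := by simp [Finset.sum_sub_distrib, hx, he]
      have hU : x - e ∈ US H e m := by
        refine ⟨hxe, k', ?_⟩
        have : x - (k' + 1) • e = x - e - k' • e := by rw [succ_nsmul]; abel
        rw [this] at hk
        omega
      by_cases hX : N H (x - e) ≤ m
      · right
        refine ⟨hxe, by omega, ?_⟩
        rw [sub_add_cancel]; exact hx3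
      · left
        exact ⟨hU, fun h => hX h.2⟩
    · rintro ⟨y, hy, rfl⟩
      simp only
      have hU : y ∈ US H e m := by
        rcases hy with hy | hy
        · exact hy.1
        · exact XS_subset_US m ⟨hy.1, by have := hy.2.1; omega⟩
      have hye : ∑ v, (y + e) v = 0 := by simp [Finset.sum_add_distrib, hU.1, he]
      refine ⟨⟨hye, ?_⟩, ?_⟩
      · obtain ⟨k, hk⟩ := hU.2
        refine ⟨k + 1, ?_⟩
        have : y + e - (k + 1) • e = y - k • e := by rw [succ_nsmul]; abel
        rw [this]; omega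
      · rintro ⟨_, hN⟩
        rcases hy with hy | hy
        · obtain ⟨k, hk⟩ := hy.1.2
          have hy2 : m < N H y := by
            by_contra hcon
            exact hy.2 ⟨hy.1.1, by omega⟩
          have hk1 : 1 ≤ k := by
            rcases Nat.eq_zero_or_pos k with h | h
            · subst h
              simp at hk
              omega
            · exact h
          have hyk : ∑ v, (y - k • e) v = 0 := by
            have := sum_sub_smul hy.1.1 he (k : ℤ)
            simpa using this
          have h1 := N_convex hc (k := 1) (l := k) (w := y) hyk hye hy.1.1 (by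
            rw [add_smul, smul_add]; abel)
          have h2 : (N H (y - k • e) : ℤ) + k ≤ m := by exact_mod_cast hk
          have h3 : (m : ℤ) + 1 ≤ N H y := by exact_mod_cast hy2
          have h4 : (N H (y + e) : ℤ) ≤ m + 1 := by exact_mod_cast hN
          have h5 : (1 : ℤ) ≤ k := by exact_mod_cast hk1
          push_cast at h1
          nlinarith
        · have := hy.2.2; omega
  have hd : Disjoint (US H e m \ XS H m)
      {y : V → ℤ | ∑ v, y v = 0 ∧ N H y < m + 1 ∧ m + 1 < N H (y + e)} := by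
    rw [Set.disjoint_left]
    rintro y ⟨hy1, hy2⟩ ⟨hy3, hy4, _⟩
    exact hy2 ⟨hy3, by omega⟩
  rw [cnum, himg, Set.ncard_image_of_injective _ (add_left_injective e),
    Set.ncard_union_eq hd ((US_finite hc he m).subset Set.sdiff_subset)
      ((XS_finite hc m).subset (by
        rintro y ⟨hy3, hy4, _⟩
        exact ⟨hy3, by omega⟩))]
  rfl

/-- the lattice points of norm at most `m` in `G` -/
theorem XSG_eq {i j : V} (hij : i ≠ j) (hnij : ¬ H.Adj i j)
    (hGH : ∀ a b, G.Adj a b ↔ H.Adj a b ∨ (a = i ∧ b = j) ∨ (a = j ∧ b = i))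
    (hc : H.Connected) (hcG : G.Connected) (m : ℕ) :
    XS G m = US H (ez i j) m ∪ (fun x => -x) '' (US H (ez i j) m) := by
  ext x
  constructor
  · rintro ⟨hx, hN⟩
    obtain ⟨k, hk⟩ := (NG_le_iff hij hnij hGH hc hcG hx m).1 hN
    rcases le_total 0 k with h | h
    · obtain ⟨n, rfl⟩ := Int.eq_ofNat_of_zero_le h
      left
      refine ⟨hx, n, ?_⟩
      rw [natCast_zsmul] at hk
      simp at hk
      exact_mod_cast hk
    · obtain ⟨n, hn'⟩ := Int.eq_ofNat_of_zero_le (neg_nonneg.2 h)
      have hk' : k = -(n : ℤ) := by omega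
      right
      refine ⟨-x, ⟨by simp [hx], n, ?_⟩, by simp⟩
      have e : -x - n • ez i j = -(x - k • ez i j) := by
        rw [hk', neg_smul, natCast_zsmul]; abel
      rw [e, N_neg hc (sum_sub_smul hx (sum_ez i j) k)]
      rw [hk'] at hk ⊢
      simp at hk
      have : (N H (x - -(n:ℤ) • ez i j) : ℤ) + n ≤ m := by simpa using hk
      exact_mod_cast this
  · rintro (⟨hx, k, hk⟩ | ⟨y, ⟨hy, k, hk⟩, rfl⟩)
    · refine ⟨hx, (NG_le_iff hij hnij hGH hc hcG hx m).2 ⟨k, ?_⟩⟩
      rw [natCast_zsmul]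
      simp
      exact_mod_cast hk
    · simp only
      have hy' : ∑ v, (-y) v = 0 := by simp [hy]
      refine ⟨hy', (NG_le_iff hij hnij hGH hc hcG hy' m).2 ⟨-(k : ℤ), ?_⟩⟩
      have e : -y - (-(k : ℤ)) • ez i j = -(y - k • ez i j) := by
        rw [neg_smul, natCast_zsmul]; abel
      have hs : ∑ v, (y - k • ez i j) v = 0 := by
        have := sum_sub_smul hy (sum_ez i j) (k : ℤ)
        simpa using this
      rw [e, N_neg hc hs]
      simp
      exact_mod_cast hk

theorem US_inter (hc : H.Connected) {e : V → ℤ} (he : ∑ v, e v = 0) (m : ℕ) :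
    US H e m ∩ (fun x => -x) '' (US H e m) = XS H m := by
  ext x
  constructor
  · rintro ⟨⟨hx, k, hk⟩, ⟨y, ⟨hy, l, hl⟩, rfl⟩⟩
    simp only at hx hk ⊢
    refine ⟨hx, ?_⟩
    have e2 : N H (y - l • e) = N H (-y + l • e) := by
      rw [← N_neg hc (x := y - l • e)]
      · congr 1; abel
      · have := sum_sub_smul hy he (l : ℤ)
        simpa using this
    rw [e2] at hl
    have h1 : ∑ v, (-y - k • e) v = 0 := by
      have := sum_sub_smul hx he (k : ℤ)
      simpa using this
    have h2 : ∑ v, (-y + l • e) v = 0 := by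
      have := sum_sub_smul hx he (-(l : ℤ))
      simpa using this
    rcases Nat.eq_zero_or_pos (l + k) with h0 | hpos
    · have : k = 0 := by omega
      subst this
      simpa using hk
    · have h3 := N_convex hc (k := l) (l := k) (w := -y) h1 h2 hx (by
        rw [add_smul, smul_sub, smul_add, smul_smul, smul_smul, mul_comm k l]; abel)
      have h4 : (N H (-y - k • e) : ℤ) ≤ m := by
        have : N H (-y - k • e) ≤ m := by omega
        exact_mod_cast this
      have h5 : (N H (-y + l • e) : ℤ) ≤ m := by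
        have : N H (-y + l • e) ≤ m := by omega
        exact_mod_cast this
      have h6 : ((l : ℤ) + k) * N H (-y) ≤ (l + k) * m := by
        nlinarith [(by positivity : (0:ℤ) ≤ l), (by positivity : (0:ℤ) ≤ k)]
      have h7 : (0 : ℤ) < (l : ℤ) + k := by exact_mod_cast hpos
      have := le_of_mul_le_mul_left h6 h7
      exact_mod_cast this
  · rintro ⟨hx, hN⟩
    refine ⟨XS_subset_US m ⟨hx, hN⟩, -x, XS_subset_US m ⟨by simp [hx], ?_⟩, by simp⟩
    rw [N_neg hc hx]; exact hN

theorem ncard_XSG {i j : V} (hij : i ≠ j) (hnij : ¬ H.Adj i j)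
    (hGH : ∀ a b, G.Adj a b ↔ H.Adj a b ∨ (a = i ∧ b = j) ∨ (a = j ∧ b = i))
    (hc : H.Connected) (hcG : G.Connected) (m : ℕ) :
    (XS G m).ncard = (XS H m).ncard + 2 * cnum H (ez i j) m := by
  have hf := US_finite hc (sum_ez i j) m
  have h1 := Set.ncard_union_add_ncard_inter (US H (ez i j) m) ((fun x => -x) '' (US H (ez i j) m))
    hf (hf.image _)
  rw [← XSG_eq hij hnij hGH hc hcG, US_inter hc (sum_ez i j),
    Set.ncard_image_of_injective _ neg_injective] at h1
  have h2 : cnum H (ez i j) m + (XS H m).ncard = (US H (ez i j) m).ncard :=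
    Set.ncard_sdiff_add_ncard_of_subset (XS_subset_US m) (ht := hf)
  omega

theorem latticeCount_eq (hc : H.Connected) (hne : ∃ a b, H.Adj a b) {m : ℕ} (hm : 1 ≤ m) :
    latticeCount (polytope H) m = (XS H m).ncard := by
  rw [latticeCount, ← Nat.card_coe_set_eq]
  exact Nat.card_congr (Equiv.subtypeEquivRight (fun x => mem_smul_polytope_iff hc hne x hm))

end Pool.Agent.H59.SEP
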