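import Pool.Agent.H59.SEP.Facet

set_option autoImplicit false
set_option linter.unusedSectionVars false

open scoped Pointwise Polynomial

namespace Pool.Agent.H59.SEP

variable {V : Type*} [Fintype V] [DecidableEq V]

variable {H : SimpleGraph V}

structure FacetData (H : SimpleGraph V) (i j : V) (s : Finset (V → ℝ)) (f : V → ℤ) : Prop where
  lip : ∀ a b, H.Adj a b → f a - f b ≤ 1
  vert : ∀ v ∈ s, ∃ x : V → ℤ, ∑ a, x a = 0 ∧ v = toR x ∧ N H x ≤ 1 ∧ ∑ a, f a * x a = 1
  slope : 2 ≤ f i - f j
  indep : ∀ w : (V → ℝ) → ℝ, ∑ v ∈ s, w v • v = 0 → ∀ v ∈ s, w v = 0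
  coord : ∀ x : V → ℤ, ∑ a, x a = 0 → ∃ c : (V → ℝ) → ℤ, toR x = ∑ v ∈ s, (c v : ℝ) • v
  dist : ∀ h : ℕ, IsLatticeDistance s (ez i j) h ↔ (h : ℤ) = f i - f j - 1

theorem eq_ez_of_N_le_one (hc : H.Connected) {x : V → ℤ} (hx : ∑ v, x v = 0) (hN : N H x ≤ 1) :
    x = 0 ∨ ∃ a b, H.Adj a b ∧ x = ez a b := by
  obtain ⟨z, hz, hz'⟩ := N_spec hc hx
  by_cases h0 : z = 0
  · left
    funext v
    rw [← hz.2.2 v, h0, bdZ_zero]; rfl
  · right
    have : ∃ p, z p ≠ 0 := by
      by_contra hcon
      push Not at hcon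
      exact h0 (funext hcon)
    obtain ⟨p, hp⟩ := this
    have hp1 : 1 ≤ z p := by have := hz.1 p; omega
    have hadj : H.Adj p.1 p.2 := by
      by_contra h; exact hp (hz.2.1 p h)
    refine ⟨p.1, p.2, hadj, ?_⟩
    have hsum : z p + ∑ q ∈ Finset.univ.erase p, z q = N H x := by
      rw [Finset.add_sum_erase _ _ (Finset.mem_univ p), hz']
    have hrest0 : 0 ≤ ∑ q ∈ Finset.univ.erase p, z q := Finset.sum_nonneg (fun q _ => hz.1 q)
    have hN' : (N H x : ℤ) ≤ 1 := by exact_mod_cast hN
    have hrest : ∑ q ∈ Finset.univ.erase p, z q = 0 := by omega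
    have hzp : z p = 1 := by omega
    have hzq : ∀ q, q ≠ p → z q = 0 := by
      intro q hq
      exact (Finset.sum_eq_zero_iff_of_nonneg (fun q _ => hz.1 q)).1 hrest q
        (Finset.mem_erase.2 ⟨hq, Finset.mem_univ _⟩)
    have hzs : z = Pi.single (p.1, p.2) 1 := by
      funext q
      by_cases hq : q = p
      · rw [hq, hzp]; simp
      · rw [hzq q hq, Pi.single_apply, if_neg]; exact hq
    funext v
    rw [← hz.2.2 v, hzs, bdZ_single]

/-- the functional represented by its values on the standard basis -/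
theorem lin_eq (u : (V → ℝ) →ₗ[ℝ] ℝ) (x : V → ℝ) : u x = ∑ a, u (Pi.single a 1) * x a := by
  conv_lhs => rw [← Finset.univ_sum_single x]
  rw [map_sum]
  apply Finset.sum_congr rfl
  intro a _
  have : (Pi.single a (x a) : V → ℝ) = x a • Pi.single a 1 := by
    rw [← Pi.single_smul]; simp
  rw [this, map_smul, smul_eq_mul]; ring

/-- the sum-zero subspace -/
noncomputable def Lam (V : Type*) [Fintype V] [DecidableEq V] : Submodule ℝ (V → ℝ) :=
  LinearMap.ker (functional (fun _ : V => (1 : ℝ)))

theorem mem_Lam (x : V → ℝ) : x ∈ Lam V ↔ ∑ v, x v = 0 := by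
  rw [Lam, LinearMap.mem_ker, functional_apply]; simp

theorem finrank_Lam [Nonempty V] : Module.finrank ℝ (Lam V) + 1 = Fintype.card V := by
  have h := LinearMap.finrank_range_add_finrank_ker (functional (fun _ : V => (1 : ℝ)))
  have hr : LinearMap.range (functional (fun _ : V => (1 : ℝ))) = ⊤ := by
    rw [LinearMap.range_eq_top]
    intro t
    obtain ⟨r⟩ := (inferInstance : Nonempty V)
    refine ⟨Pi.single r t, ?_⟩
    rw [functional_apply]; simp
  rw [hr, finrank_top, Module.finrank_self, Module.finrank_fintype_fun_eq_card] at h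
  unfold Lam
  omega

theorem facet_subset_polytope {K : Geometry.SimplicialComplex ℝ (V → ℝ)} {e : V → ℝ} {n : ℕ}
    (hK : IsUnimodularTriangulation K (⋃₀ {F | IsVisibleFacet (polytope H) e F}) n)
    {y : V → ℝ} (hy : y ∈ K.space) : y ∈ polytope H := by
  rw [hK.space_eq] at hy
  obtain ⟨F, ⟨u, c, _, _, hF, _, _⟩, hyF⟩ := hy
  rw [hF] at hyF
  exact hyF.1

theorem facet_data {i j : V} (hc : H.Connected) (hne : ∃ a b, H.Adj a b)
    {K : Geometry.SimplicialComplex ℝ (V → ℝ)}
    (hK : IsUnimodularTriangulation K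
      (⋃₀ {F | IsVisibleFacet (polytope H) (ev i j) F}) (Fintype.card V - 1))
    {s : Finset (V → ℝ)} (hs : s ∈ K.facets) : ∃ f : V → ℤ, FacetData H i j s f := by
  classical
  have hsf : s ∈ K.faces := hs.1
  obtain ⟨v0, hv0⟩ := K.nonempty_of_mem_faces hsf
  have hcard : s.card = Fintype.card V - 1 := hK.card_facet s hs
  have hspos : (0 : ℝ) < s.card := by
    have : 0 < s.card := Finset.card_pos.2 ⟨v0, hv0⟩
    exact_mod_cast this
  -- the vertices are in the polytope
  have hvP : ∀ v ∈ s, v ∈ polytope H := fun v hv =>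
    facet_subset_polytope hK (K.convexHull_subset_space hsf (subset_convexHull ℝ _ hv))
  -- the barycenter
  have hb : ∑ v ∈ s, (1 / (s.card : ℝ)) • v ∈ K.space := by
    apply K.convexHull_subset_space hsf
    apply (convex_convexHull ℝ (s : Set (V → ℝ))).sum_mem
    · intro v _; positivity
    · rw [Finset.sum_const, nsmul_eq_mul]; field_simp
    · intro v hv; exact subset_convexHull ℝ _ hv
  rw [hK.space_eq] at hb
  obtain ⟨F, ⟨u, c, huP, hce, hF, _, _⟩, hbF⟩ := hb
  rw [hF] at hbF
  have hub := hbF.2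
  -- all vertices have `u = c`
  have huv : ∀ v ∈ s, u v = c := by
    have h1 : ∑ v ∈ s, u v = ∑ v ∈ s, c := by
      rw [map_sum] at hub
      simp only [map_smul, smul_eq_mul] at hub
      rw [← Finset.mul_sum] at hub
      rw [Finset.sum_const, nsmul_eq_mul]
      field_simp at hub
      linarith
    exact (Finset.sum_eq_sum_iff_of_le (fun v hv => huP v (hvP v hv))).1 h1
  obtain ⟨a0, b0, hab0⟩ := hne
  have hu0 : 0 ≤ c := by
    have := huP 0 (zero_mem hab0)
    simpa using this
  have hcpos : 0 < c := by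
    rcases hu0.lt_or_eq with h | h
    · exact h
    · exfalso
      have hz : ∀ a b, H.Adj a b → u (ev a b) = 0 := by
        intro a b hab
        have h1 := huP _ (ev_mem hab)
        have h2 := huP _ (ev_mem hab.symm)
        have h3 : ev b a = - ev a b := by simp [ev]
        rw [h3, map_neg] at h2
        linarith
      have hz2 : ∀ a b, u (ev a b) = 0 := by
        intro a b
        obtain ⟨w⟩ := hc.preconnected a b
        induction w with
        | nil => rw [ev_self, map_zero]
        | cons h w ih => rw [← ev_add _ _ _, map_add, hz _ _ h, ih, add_zero]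
      rw [hz2, ← h] at hce
      exact lt_irrefl _ hce
  -- integral vertices
  have hvx : ∀ v ∈ s, ∃ a b, H.Adj a b ∧ v = ev a b := by
    intro v hv
    obtain ⟨x, hx, hvx⟩ := (hK.unimodular s hs).1 v hv
    have hN : N H x ≤ 1 := by
      refine ((mem_smul_polytope_iff hc ⟨a0, b0, hab0⟩ x (le_refl 1)).1 ?_).2
      rw [← hvx, Nat.cast_one, one_smul]
      exact hvP v hv
    rcases eq_ez_of_N_le_one hc hx hN with h | ⟨a, b, hab, h⟩
    · exfalso
      have := huv v hv
      rw [hvx, h, toR_zero, map_zero] at this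
      linarith
    · exact ⟨a, b, hab, by rw [hvx, h, toR_ez]⟩
  -- linear independence
  have hindep : ∀ w : (V → ℝ) → ℝ, ∑ v ∈ s, w v • v = 0 → ∀ v ∈ s, w v = 0 := by
    intro w hw
    have h1 : ∑ v ∈ s, w v = 0 := by
      have h2 := congrArg u hw
      rw [map_sum, map_zero] at h2
      have h3 : ∑ v ∈ s, u (w v • v) = (∑ v ∈ s, w v) * c := by
        rw [Finset.sum_mul]
        apply Finset.sum_congr rfl
        intro v hv
        rw [map_smul, smul_eq_mul, huv v hv]
      rw [h3] at h2
      rcases mul_eq_zero.1 h2 with h | h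
      · exact h
      · linarith
    have hai := K.indep hsf
    rw [affineIndependent_iff] at hai
    have h4 := hai Finset.univ (fun v => w v.1) (by
        rw [← h1]; exact Finset.sum_coe_sort s w) (by
        rw [← hw]; exact Finset.sum_coe_sort s (fun v => w v • v))
    intro v hv
    exact h4 ⟨v, hv⟩ (Finset.mem_univ _)
  have hli : LinearIndependent ℝ (fun v : s => (v : V → ℝ)) := by
    rw [Fintype.linearIndependent_iff]
    intro g hg v
    have := hindep (fun v => if h : v ∈ s then g ⟨v, h⟩ else 0) (by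
      rw [← Finset.sum_coe_sort, ← hg]
      apply Finset.sum_congr rfl
      intro v _
      simp) v v.2
    simpa using this
  haveI : Nonempty V := hc.nonempty
  have hspan : Submodule.span ℝ (s : Set (V → ℝ)) = Lam V := by
    apply Submodule.eq_of_le_of_finrank_eq
    · rw [Submodule.span_le]
      intro v hv
      obtain ⟨a, b, hab, rfl⟩ := hvx v hv
      rw [SetLike.mem_coe, mem_Lam]
      exact polytope_sum (ev_mem hab)
    · have h1 := finrank_span_eq_card hli
      rw [Subtype.range_coe_subtype] at h1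
      have h2 : {x | x ∈ s} = (s : Set (V → ℝ)) := rfl
      rw [h2, Fintype.card_coe, hcard] at h1
      have h3 := finrank_Lam (V := V)
      omega
  -- two functionals agreeing on `s` agree on `Lam`
  have hagree : ∀ φ ψ : (V → ℝ) →ₗ[ℝ] ℝ, (∀ v ∈ s, φ v = ψ v) → ∀ x, ∑ v, x v = 0 → φ x = ψ x := by
    intro φ ψ h x hx
    have hx' : x ∈ Submodule.span ℝ (s : Set (V → ℝ)) := by rw [hspan, mem_Lam]; exact hx
    exact LinearMap.eqOn_span (fun v hv => h v hv) hx'
  -- integrality
  have hint : ∀ a, ∃ z : ℤ, u (ev a i) / c = z := by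
    intro a
    let S : Finset V := Finset.univ.filter (fun a => ∃ z : ℤ, u (ev a i) / c = z)
    have hS : ∀ a, a ∈ S ↔ ∃ z : ℤ, u (ev a i) / c = z := by intro a; simp [S]
    let ind : V → ℝ := fun v => if v ∈ S then 1 else 0
    have h0 : ∀ v ∈ s, functional ind v = (0 : (V → ℝ) →ₗ[ℝ] ℝ) v := by
      intro v hv
      obtain ⟨a, b, hab, rfl⟩ := hvx v hv
      rw [functional_apply, dotR_ev, LinearMap.zero_apply]
      have h1 := huv _ hv
      have h2 : u (ev a i) / c = u (ev b i) / c + 1 := by
        rw [← ev_add a b i, map_add, h1]; field_simp; ring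
      have h3 : a ∈ S ↔ b ∈ S := by
        rw [hS, hS, h2]
        constructor
        · rintro ⟨z, hz⟩; exact ⟨z - 1, by push_cast; linarith⟩
        · rintro ⟨z, hz⟩; exact ⟨z + 1, by push_cast; linarith⟩
      simp only [ind, h3, sub_self]
    have h1 := hagree _ _ h0 (ev a i) (by simp [ev, Finset.sum_sub_distrib])
    rw [functional_apply, dotR_ev, LinearMap.zero_apply] at h1
    have h2 : i ∈ S := by
      rw [hS]; exact ⟨0, by rw [ev_self, map_zero]; simp⟩
    have h3 : ind i = 1 := by simp only [ind]; rw [if_pos h2]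
    rw [h3] at h1
    have h4 : a ∈ S := by
      by_contra hcon
      have : ind a = 0 := by simp only [ind]; rw [if_neg hcon]
      rw [this] at h1
      norm_num at h1
    exact (hS a).1 h4
  choose f hf using hint
  have hfu : ∀ a b, ((f a : ℝ) - f b) * c = u (ev a b) := by
    intro a b
    rw [← hf a, ← hf b]
    have : ev a b = ev a i - ev b i := by simp [ev]
    rw [this, map_sub]
    field_simp
  have hlip : ∀ a b, H.Adj a b → f a - f b ≤ 1 := by
    intro a b hab
    have h1 := huP _ (ev_mem hab)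
    rw [← hfu] at h1
    have h2 : ((f a : ℝ) - f b) ≤ 1 := by
      by_contra hcon
      push Not at hcon
      have := mul_lt_mul_of_pos_right hcon hcpos
      linarith
    exact_mod_cast h2
  have hslope : 2 ≤ f i - f j := by
    rw [← hfu] at hce
    have h2 : (1 : ℝ) < (f i : ℝ) - f j := by
      by_contra hcon
      push Not at hcon
      have := mul_le_mul_of_nonneg_right hcon hcpos.le
      linarith
    have h3 : 1 < f i - f j := by exact_mod_cast h2
    omega
  have hfv : ∀ v ∈ s, functional (fun a => (f a : ℝ)) v = 1 := by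
    intro v hv
    have h1 := huv v hv
    obtain ⟨a, b, hab, rfl⟩ := hvx v hv
    rw [functional_apply, dotR_ev]
    rw [← hfu] at h1
    have := mul_right_cancel₀ hcpos.ne' (h1.trans (one_mul c).symm)
    exact this
  -- the affine span
  have haff : (affineSpan ℝ (s : Set (V → ℝ)) : Set (V → ℝ)) =
      {x | ∑ a, x a = 0 ∧ ∑ a, (f a : ℝ) * x a = 1} := by
    ext x
    constructor
    · intro hx
      have hsub : (affineSpan ℝ (s : Set (V → ℝ))) ≤
          AffineSubspace.mk' v0 (Lam V ⊓ LinearMap.ker (functional (fun a => (f a : ℝ)))) := by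
        rw [affineSpan_le]
        intro v hv
        rw [SetLike.mem_coe, AffineSubspace.mem_mk', vsub_eq_sub]
        constructor
        · rw [SetLike.mem_coe, mem_Lam]
          obtain ⟨a, b, hab, rfl⟩ := hvx v hv
          obtain ⟨a', b', hab', rfl⟩ := hvx v0 hv0
          simp [Finset.sum_sub_distrib, polytope_sum (ev_mem hab), polytope_sum (ev_mem hab')]
        · rw [SetLike.mem_coe, LinearMap.mem_ker, map_sub, hfv v hv, hfv v0 hv0, sub_self]
      have hx2 := hsub hx
      rw [AffineSubspace.mem_mk', vsub_eq_sub] at hx2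
      obtain ⟨h1, h2⟩ := hx2
      rw [SetLike.mem_coe, mem_Lam] at h1
      rw [SetLike.mem_coe, LinearMap.mem_ker, map_sub, hfv v0 hv0, functional_apply] at h2
      obtain ⟨a', b', hab', hv0'⟩ := hvx v0 hv0
      have h3 : ∑ v, v0 v = 0 := by rw [hv0']; exact polytope_sum (ev_mem hab')
      refine ⟨?_, by linarith⟩
      simp only [Pi.sub_apply, Finset.sum_sub_distrib, h3, sub_zero] at h1
      exact h1
    · rintro ⟨hx1, hx2⟩
      have hx' : x ∈ Submodule.span ℝ (s : Set (V → ℝ)) := by rw [hspan, mem_Lam]; exact hx1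
      obtain ⟨w, hw⟩ := Submodule.mem_span_finset.1 hx'
      have hw1 : ∑ v ∈ s, w v = 1 := by
        have h1 : functional (fun a => (f a : ℝ)) x = 1 := hx2
        rw [← hw.2, map_sum] at h1
        rw [← h1]
        apply Finset.sum_congr rfl
        intro v hv
        rw [map_smul, smul_eq_mul, hfv v hv, mul_one]
      have := affineCombination_mem_affineSpan (k := ℝ) (s := (Finset.univ : Finset s))
        (w := fun v => w v.1) (by rw [← hw1]; exact Finset.sum_coe_sort s w)
        (fun v : s => (v : V → ℝ))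
      rw [Finset.affineCombination_eq_linear_combination _ _ _
        (by rw [← hw1]; exact Finset.sum_coe_sort s w)] at this
      rw [Subtype.range_coe_subtype] at this
      have h2 : {x | x ∈ s} = (s : Set (V → ℝ)) := rfl
      rw [h2] at this
      have h3 : ∑ v : s, w v.1 • (v : V → ℝ) = x := by
        rw [← hw.2]; exact Finset.sum_coe_sort s (fun v => w v • v)
      rw [h3] at this
      exact this
  obtain ⟨x0, hx0, hv0x⟩ := (hK.unimodular s hs).1 v0 hv0
  have hfx0 : ∑ a, f a * x0 a = 1 := by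
    have h1 := hfv v0 hv0
    rw [hv0x, functional_apply, dotR_toR] at h1
    exact_mod_cast h1
  refine ⟨f, hlip, ?_, hslope, hindep, ?_, ?_⟩
  · intro v hv
    obtain ⟨x, hx, hvx'⟩ := (hK.unimodular s hs).1 v hv
    refine ⟨x, hx, hvx', ?_, ?_⟩
    · refine ((mem_smul_polytope_iff hc ⟨a0, b0, hab0⟩ x (le_refl 1)).1 ?_).2
      rw [← hvx', Nat.cast_one, one_smul]
      exact hvP v hv
    · have h1 := hfv v hv
      rw [hvx', functional_apply, dotR_toR] at h1
      exact_mod_cast h1
  · intro x hx
    set k := ∑ a, f a * x a with hk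
    have hx' : ∑ a, (x - (k - 1) • x0) a = 0 := sum_sub_smul hx hx0 _
    have hmem : toR (x - (k - 1) • x0) ∈ affineSpan ℝ (s : Set (V → ℝ)) := by
      rw [← SetLike.mem_coe, haff]
      refine ⟨?_, ?_⟩
      · have : ((∑ a, (x - (k - 1) • x0) a : ℤ) : ℝ) = 0 := by rw [hx']; simp
        rw [← this]; push_cast; rfl
      · rw [dotR_toR]
        have : ∑ v, f v * (x - (k - 1) • x0) v = 1 := by
          simp only [Pi.sub_apply, Pi.smul_apply, smul_eq_mul, mul_sub, Finset.sum_sub_distrib]
          have : ∑ v, f v * ((k - 1) * x0 v) = (k - 1) * ∑ v, f v * x0 v := by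
            rw [Finset.mul_sum]; apply Finset.sum_congr rfl; intro v _; ring
          rw [this, hfx0, ← hk]; ring
        rw [this]; simp
    obtain ⟨c', hc'1, hc'2⟩ := (hK.unimodular s hs).2 _ hx' hmem
    refine ⟨fun v => c' v + (k - 1) * (if v = v0 then 1 else 0), ?_⟩
    have e1 : toR x = toR (x - (k - 1) • x0) + ((k - 1 : ℤ) : ℝ) • v0 := by
      rw [hv0x, toR_sub, toR_smul]; simp
    rw [e1, hc'2]
    have e2 : ∑ v ∈ s, ((c' v + (k - 1) * (if v = v0 then 1 else 0) : ℤ) : ℝ) • v =
        ∑ v ∈ s, (c' v : ℝ) • v + ∑ v ∈ s, (if v = v0 then (((k - 1 : ℤ) : ℝ) • v) else 0) := by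
      rw [← Finset.sum_add_distrib]
      apply Finset.sum_congr rfl
      intro v _
      split_ifs
      · push_cast; rw [mul_one, add_smul]
      · simp
    rw [e2, Finset.sum_ite_eq' s v0, if_pos hv0]
  · intro h
    constructor
    · rintro ⟨u', c', ⟨x1, hx1, hu1⟩, hspan', hh⟩
      -- `u' = c' f` on `Lam`
      have hu' : ∀ x : V → ℝ, ∑ v, x v = 0 →
          functional (fun a => (u' a : ℝ)) x = ((c' : ℝ) • functional (fun a => (f a : ℝ))) x := by
        apply hagree
        intro v hv
        have h1 : v ∈ (affineSpan ℝ (s : Set (V → ℝ)) : Set (V → ℝ)) := subset_affineSpan ℝ _ hv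
        rw [hspan'] at h1
        rw [LinearMap.smul_apply, hfv v hv, smul_eq_mul, mul_one]
        exact h1.2
      have h2 := hu' (toR x1) (by
        have : ((∑ a, x1 a : ℤ) : ℝ) = 0 := by rw [hx1]; simp
        rw [← this]; push_cast; rfl)
      rw [functional_apply, dotR_toR, hu1, LinearMap.smul_apply, functional_apply, dotR_toR,
        smul_eq_mul] at h2
      have h3 : c' * (∑ v, f v * x1 v) = 1 := by exact_mod_cast h2.symm
      have h4 := hu' (toR (ez i j)) (by
        have : ((∑ a, ez i j a : ℤ) : ℝ) = 0 := by rw [sum_ez]; simp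
        rw [← this]; push_cast; rfl)
      rw [functional_apply, dotR_toR, LinearMap.smul_apply, functional_apply, dotR_toR,
        smul_eq_mul, dot_ez f] at h4
      have h5 : ∑ v, u' v * ez i j v = c' * (f i - f j) := by exact_mod_cast h4
      have h6 : c' * (f i - f j) - c' = c' * (f i - f j - 1) := by ring
      rw [hh, h5, h6, abs_mul]
      have h7 : |c'| = 1 := by
        rcases Int.isUnit_iff.1 (IsUnit.of_mul_eq_one _ h3) with h | h <;> rw [h] <;> simp
      rw [h7, one_mul, abs_of_nonneg (by omega)]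
    · intro hh
      refine ⟨f, 1, ⟨x0, hx0, hfx0⟩, ?_, ?_⟩
      · rw [haff]; simp
      · rw [hh, dot_ez, abs_of_nonneg (by omega)]

end Pool.Agent.H59.SEP
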