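import Pool.Agent.H59.SEP.Data

set_option autoImplicit false
set_option linter.unusedSectionVars false

open scoped Pointwise Polynomial

namespace Pool.Agent.H59.SEP

variable {V : Type*} [Fintype V] [DecidableEq V]

variable {H : SimpleGraph V} {i j : V}

open Classical in
/-- coordinates with respect to the vertices of a facet -/
noncomputable def crd (s : Finset (V → ℝ)) (x : V → ℤ) : (V → ℝ) → ℤ :=
  if h : ∃ c : (V → ℝ) → ℤ, toR x = ∑ v ∈ s, (c v : ℝ) • v then h.choose else 0

theorem FacetData.crd_spec {s : Finset (V → ℝ)} {f : V → ℤ} (D : FacetData H i j s f) {x : V → ℤ}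
    (hx : ∑ a, x a = 0) : toR x = ∑ v ∈ s, (crd s x v : ℝ) • v := by
  have h := D.coord x hx
  unfold crd
  rw [dif_pos h]
  exact h.choose_spec

theorem FacetData.crd_unique {s : Finset (V → ℝ)} {f : V → ℤ} (D : FacetData H i j s f) {x : V → ℤ}
    (hx : ∑ a, x a = 0) {w : (V → ℝ) → ℝ} (hw : toR x = ∑ v ∈ s, w v • v) :
    ∀ v ∈ s, w v = crd s x v := by
  intro v hv
  have h := D.indep (fun v => w v - crd s x v) (by
    simp only [sub_smul, Finset.sum_sub_distrib]
    rw [← hw, ← D.crd_spec hx, sub_self]) v hv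
  linarith

theorem FacetData.crd_add {s : Finset (V → ℝ)} {f : V → ℤ} (D : FacetData H i j s f) {x y : V → ℤ}
    (hx : ∑ a, x a = 0) (hy : ∑ a, y a = 0) (k l : ℤ) :
    ∀ v ∈ s, crd s (k • x + l • y) v = k * crd s x v + l * crd s y v := by
  intro v hv
  have hxy : ∑ a, (k • x + l • y) a = 0 := by
    simp [Finset.sum_add_distrib, ← Finset.mul_sum, hx, hy]
  have h := D.crd_unique hxy (w := fun v => (k : ℝ) * crd s x v + l * crd s y v) (by
    rw [toR_add, toR_smul, toR_smul, D.crd_spec hx, D.crd_spec hy]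
    simp only [add_smul, Finset.sum_add_distrib, Finset.smul_sum, smul_smul]) v hv
  exact_mod_cast h.symm

theorem FacetData.dot_eq {s : Finset (V → ℝ)} {f : V → ℤ} (D : FacetData H i j s f) {x : V → ℤ}
    (hx : ∑ a, x a = 0) : ∑ a, f a * x a = ∑ v ∈ s, crd s x v := by
  have h1 : functional (fun a => (f a : ℝ)) (toR x) = ∑ v ∈ s, (crd s x v : ℝ) := by
    rw [D.crd_spec hx, map_sum]
    apply Finset.sum_congr rfl
    intro v hv
    obtain ⟨y, hy, hvy, _, hfy⟩ := D.vert v hv
    rw [map_smul, smul_eq_mul]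
    have : functional (fun a => (f a : ℝ)) v = 1 := by
      rw [hvy, functional_apply, dotR_toR, hfy]; simp
    rw [this, mul_one]
  rw [functional_apply, dotR_toR] at h1
  exact_mod_cast h1

theorem N_sum_le (hc : H.Connected) {ι : Type*} (s : Finset ι) (c : ι → ℕ) (y : ι → V → ℤ)
    (hy : ∀ v ∈ s, ∑ a, y v a = 0) (hN : ∀ v ∈ s, N H (y v) ≤ 1) :
    (N H (∑ v ∈ s, c v • y v) : ℤ) ≤ ∑ v ∈ s, (c v : ℤ) := by
  classical
  induction s using Finset.induction_on with
  | empty => simp [N_zero]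
  | insert a s ha ih =>
    rw [Finset.sum_insert ha, Finset.sum_insert ha]
    have hy' : ∀ v ∈ s, ∑ b, y v b = 0 := fun v hv => hy v (Finset.mem_insert_of_mem hv)
    have h1 := ih hy' (fun v hv => hN v (Finset.mem_insert_of_mem hv))
    have hya := hy a (Finset.mem_insert_self _ _)
    have hNa := hN a (Finset.mem_insert_self _ _)
    have hs1 : ∑ b, (c a • y a) b = 0 := sum_nsmul_zero hya _
    have hs2 : ∑ b, (∑ v ∈ s, c v • y v) b = 0 := by
      simp only [Finset.sum_apply]
      rw [Finset.sum_comm]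
      apply Finset.sum_eq_zero
      intro v hv
      exact sum_nsmul_zero (hy' v hv) _
    have h2 := N_add hc hs1 hs2
    rw [N_nsmul hc hya] at h2
    have h3 : (c a : ℤ) * N H (y a) ≤ c a := by
      have : (N H (y a) : ℤ) ≤ 1 := by exact_mod_cast hNa
      nlinarith [(by positivity : (0:ℤ) ≤ c a)]
    linarith

/-- the norm on a simplicial cone -/
theorem FacetData.N_eq (hc : H.Connected) {s : Finset (V → ℝ)} {f : V → ℤ}
    (D : FacetData H i j s f) {x : V → ℤ}
    (hx : ∑ a, x a = 0) (h0 : ∀ v ∈ s, 0 ≤ crd s x v) : (N H x : ℤ) = ∑ v ∈ s, crd s x v := by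
  apply le_antisymm
  · choose! y hy1 hy2 hy3 _ using D.vert
    have h1 : x = ∑ v ∈ s, (crd s x v).toNat • y v := by
      apply toR_injective
      rw [toR_sum, D.crd_spec hx]
      apply Finset.sum_congr rfl
      intro v hv
      rw [toR_nsmul, ← hy2 v hv]
      congr 1
      have := Int.toNat_of_nonneg (h0 v hv)
      exact_mod_cast this.symm
    have h2 := N_sum_le hc s (fun v => (crd s x v).toNat) y hy1 hy3
    rw [← h1] at h2
    refine h2.trans (le_of_eq ?_)
    apply Finset.sum_congr rfl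
    intro v hv
    exact Int.toNat_of_nonneg (h0 v hv)
  · rw [← D.dot_eq hx]
    exact dot_le hc D.lip hx

/-- generic vectors -/
theorem exists_generic {ι : Type*} (T : Finset ι) (φ : ι → (V → ℤ) → ℤ)
    (hφ : ∀ t ∈ T, ∀ (k l : ℤ) (x y : V → ℤ), ∑ a, x a = 0 → ∑ a, y a = 0 →
      φ t (k • x + l • y) = k * φ t x + l * φ t y)
    (h : ∀ t ∈ T, ∃ x : V → ℤ, ∑ a, x a = 0 ∧ φ t x ≠ 0) :
    ∃ x : V → ℤ, ∑ a, x a = 0 ∧ ∀ t ∈ T, φ t x ≠ 0 := by
  classical
  induction T using Finset.induction_on with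
  | empty => exact ⟨0, by simp, by simp⟩
  | insert t0 T ht ih =>
    obtain ⟨w, hw, hw2⟩ := ih (fun t ht => hφ t (Finset.mem_insert_of_mem ht))
      (fun t ht => h t (Finset.mem_insert_of_mem ht))
    obtain ⟨u, hu, hu2⟩ := h t0 (Finset.mem_insert_self _ _)
    set B : ℤ := 1 + ∑ t ∈ insert t0 T, |φ t u| with hB
    have hBt : ∀ t ∈ insert t0 T, |φ t u| < B := by
      intro t ht
      have := Finset.single_le_sum (f := fun t => |φ t u|) (fun t _ => abs_nonneg _) ht
      omega
    have hkey : ∀ t ∈ insert t0 T, φ t w ≠ 0 → B * φ t w + 1 * φ t u ≠ 0 := by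
      intro t ht hne heq
      have h1 : |B * φ t w| = |φ t u| := by
        have : B * φ t w = - φ t u := by linarith
        rw [this, abs_neg]
      rw [abs_mul] at h1
      have h2 : 1 ≤ |φ t w| := Int.one_le_abs hne
      have h3 := hBt t ht
      have h4 : 0 < B := lt_of_le_of_lt (abs_nonneg _) h3
      rw [abs_of_pos h4] at h1
      nlinarith
    refine ⟨B • w + (1 : ℤ) • u, ?_, ?_⟩
    · simp [Finset.sum_add_distrib, ← Finset.mul_sum, hw, hu]
    · intro t ht
      rw [hφ t ht _ _ _ _ hw hu]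
      by_cases h0 : φ t w = 0
      · rcases Finset.mem_insert.1 ht with rfl | h'
        · rw [h0, mul_zero, zero_add, one_mul]; exact hu2
        · exact absurd h0 (hw2 t h')
      · exact hkey t ht h0

/-- the data of a generic vector -/
structure Generic (H : SimpleGraph V) (i j : V) (FS : Finset (Finset (V → ℝ))) (e' w : V → ℤ)
    (K k : ℕ) : Prop where
  he' : e' = (K : ℤ) • ez i j + (1 : ℤ) • w
  hw : ∑ a, w a = 0
  hK : 2 * N H w < K
  hk : 2 * N H e' < k
  ne : ∀ s ∈ FS, ∀ v ∈ s, crd s e' v ≠ 0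
  lt : ∀ s ∈ FS, ∀ v ∈ s, |crd s e' v| < k

theorem exists_generic' {FS : Finset (Finset (V → ℝ))} {f : Finset (V → ℝ) → V → ℤ}
    (D : ∀ s ∈ FS, FacetData H i j s (f s)) : ∃ e' w K k, Generic H i j FS e' w K k := by
  classical
  obtain ⟨w, hw, hw2⟩ := exists_generic (FS.sigma (fun s => s)) (fun t x => crd t.1 x t.2)
    (by
      rintro ⟨s, v⟩ ht k l x y hx hy
      rw [Finset.mem_sigma] at ht
      exact (D s ht.1).crd_add hx hy k l v ht.2)
    (by
      rintro ⟨s, v⟩ ht
      rw [Finset.mem_sigma] at ht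
      obtain ⟨y, hy, hvy, _, _⟩ := (D s ht.1).vert v ht.2
      refine ⟨y, hy, ?_⟩
      have := (D s ht.1).crd_unique hy (w := fun u => if u = v then 1 else 0) (by
        rw [← hvy]
        simp [ht.2]) v ht.2
      simp only [if_true] at this
      intro h
      simp only at h
      rw [h] at this
      simp at this)
  set B : ℤ := ∑ t ∈ FS.sigma (fun s => s), |crd t.1 w t.2| with hB
  have hB0 : 0 ≤ B := Finset.sum_nonneg (fun t _ => abs_nonneg _)
  have hBt : ∀ s ∈ FS, ∀ v ∈ s, |crd s w v| ≤ B := by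
    intro s hs v hv
    exact Finset.single_le_sum (f := fun t : (_ : Finset (V → ℝ)) × (V → ℝ) => |crd t.1 w t.2|)
      (fun t _ => abs_nonneg _) (a := ⟨s, v⟩) (Finset.mem_sigma.2 ⟨hs, hv⟩)
  set K : ℕ := 2 * N H w + B.toNat + 1 with hKdef
  have hKB : B < K := by
    have := Int.toNat_of_nonneg hB0
    rw [hKdef]; push_cast; omega
  set e' : V → ℤ := (K : ℤ) • ez i j + (1 : ℤ) • w with he'
  set C : ℤ := ∑ t ∈ FS.sigma (fun s => s), |crd t.1 e' t.2| with hC
  have hC0 : 0 ≤ C := Finset.sum_nonneg (fun t _ => abs_nonneg _)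
  have hCt : ∀ s ∈ FS, ∀ v ∈ s, |crd s e' v| ≤ C := by
    intro s hs v hv
    exact Finset.single_le_sum (f := fun t : (_ : Finset (V → ℝ)) × (V → ℝ) => |crd t.1 e' t.2|)
      (fun t _ => abs_nonneg _) (a := ⟨s, v⟩) (Finset.mem_sigma.2 ⟨hs, hv⟩)
  refine ⟨e', w, K, 2 * N H e' + C.toNat + 1, rfl, hw, by omega, by omega, ?_, ?_⟩
  · intro s hs v hv
    rw [he', (D s hs).crd_add (sum_ez i j) hw _ _ v hv]
    intro heq
    by_cases h0 : crd s (ez i j) v = 0
    · rw [h0, mul_zero, zero_add, one_mul] at heq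
      exact hw2 ⟨s, v⟩ (Finset.mem_sigma.2 ⟨hs, hv⟩) heq
    · have h1 : |(K : ℤ) * crd s (ez i j) v| = |crd s w v| := by
        have : (K : ℤ) * crd s (ez i j) v = - crd s w v := by linarith
        rw [this, abs_neg]
      rw [abs_mul] at h1
      have h2 : 1 ≤ |crd s (ez i j) v| := Int.one_le_abs h0
      have h3 := hBt s hs v hv
      have h4 : (0 : ℤ) ≤ K := by positivity
      rw [abs_of_nonneg h4] at h1
      nlinarith
  · intro s hs v hv
    have := hCt s hs v hv
    have h2 := Int.toNat_of_nonneg hC0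
    push_cast
    omega

/-- the (right for `σ = 1`, left for `σ = -1`) slope at `x` -/
noncomputable def slope (H : SimpleGraph V) (e : V → ℤ) (σ : ℤ) (x : V → ℤ) : ℤ :=
  σ * ((N H (x + σ • e) : ℤ) - N H x)

theorem sum_smul_zero {e : V → ℤ} (he : ∑ v, e v = 0) (k : ℤ) : ∑ v, (k • e) v = 0 := by
  simp [← Finset.mul_sum, he]

theorem dot_add (f x y : V → ℤ) : ∑ v, f v * (x + y) v = ∑ v, f v * x v + ∑ v, f v * y v := by
  simp [mul_add, Finset.sum_add_distrib]

theorem dot_smul (f x : V → ℤ) (c : ℤ) : ∑ v, f v * (c • x) v = c * ∑ v, f v * x v := by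
  rw [Finset.mul_sum]; apply Finset.sum_congr rfl; intro v _; simp; ring

theorem neg_dot_le (hc : H.Connected) {f : V → ℤ} (hf : ∀ a b, H.Adj a b → f a - f b ≤ 1)
    {x : V → ℤ} (hx : ∑ v, x v = 0) : - ∑ v, f v * x v ≤ N H x := by
  have h := dot_le hc hf (x := -x) (by simp [hx])
  rw [N_neg hc hx] at h
  have e : ∑ v, f v * (-x) v = - ∑ v, f v * x v := by simp
  rw [e] at h; exact h

theorem sandwich (hc : H.Connected) {FS : Finset (Finset (V → ℝ))} {e' w : V → ℤ} {K k : ℕ}
    (hg : Generic H i j FS e' w K k) {σ : ℤ} (hσ : σ = 1 ∨ σ = -1) {x : V → ℤ}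
    (hx : ∑ a, x a = 0) {g : V → ℤ} (hlip : ∀ a b, H.Adj a b → g a - g b ≤ 1)
    (hgY : ∑ a, g a * ((k : ℤ) • x + σ • e') a = N H ((k : ℤ) • x + σ • e')) :
    ∑ a, g a * x a = N H x ∧ g i - g j = slope H (ez i j) σ x := by
  have he0 := sum_ez i j
  have hw := hg.hw
  have he' : ∑ a, e' a = 0 := by
    rw [hg.he']; simp [Finset.sum_add_distrib, ← Finset.mul_sum, he0, hw]
  have hkx := sum_smul_zero hx (k : ℤ)
  have hσe' := sum_smul_zero he' σ
  have hY : ∑ a, ((k : ℤ) • x + σ • e') a = 0 := by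
    simp only [Pi.add_apply, Finset.sum_add_distrib, hkx, hσe', add_zero]
  have hk := hg.hk
  have hK := hg.hK
  have hNσ : ∀ y : V → ℤ, ∑ a, y a = 0 → N H (σ • y) = N H y := by
    intro y hy
    rcases hσ with rfl | rfl
    · rw [one_smul]
    · rw [neg_smul, one_smul, N_neg hc hy]
  have hσσ : σ * σ = 1 := by rcases hσ with rfl | rfl <;> rfl
  have hbd : ∀ (h y : V → ℤ), (∀ a b, H.Adj a b → h a - h b ≤ 1) → ∑ a, y a = 0 →
      |∑ a, h a * y a| ≤ N H y := by
    intro h y hh hy
    rw [abs_le]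
    constructor
    · linarith [neg_dot_le hc hh hy]
    · exact dot_le hc hh hy
  have hσbd : ∀ (h y : V → ℤ), (∀ a b, H.Adj a b → h a - h b ≤ 1) → ∑ a, y a = 0 →
      σ * ∑ a, h a * y a ≤ N H y ∧ -(N H y : ℤ) ≤ σ * ∑ a, h a * y a := by
    intro h y hh hy
    have := hbd h y hh hy
    rw [abs_le] at this
    rcases hσ with rfl | rfl
    · constructor <;> linarith
    · constructor <;> linarith
  rw [dot_add, dot_smul, dot_smul] at hgY
  -- (1)
  have h1 : ∑ a, g a * x a = N H x := by
    apply le_antisymm (dot_le hc hlip hx)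
    have e1 : N H ((k : ℤ) • x) = N H (((k : ℤ) • x + σ • e') + σ • (-e')) := by
      congr 1; rw [smul_neg]; abel
    have e2 := N_add hc hY (sum_smul_zero (e := -e') (by simp [he']) σ)
    rw [← e1, hNσ _ (by simp [he']), N_neg hc he', natCast_zsmul, N_nsmul hc hx] at e2
    have e3 := (hσbd g e' hlip he').1
    have e4 : (k : ℤ) * (N H x - ∑ a, g a * x a) < k := by
      rw [mul_sub]
      rw [natCast_zsmul] at hgY
      have : (2 * N H e' : ℤ) < k := by exact_mod_cast hk
      linarith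
    have e5 : (0 : ℤ) < k := by
      have : 0 < k := by omega
      exact_mod_cast this
    have e6 : (N H x : ℤ) - ∑ a, g a * x a < 1 := by
      by_contra hcon
      push Not at hcon
      nlinarith
    linarith
  refine ⟨h1, ?_⟩
  -- (2) comparison with other optimal potentials
  have h2 : ∀ h : V → ℤ, (∀ a b, H.Adj a b → h a - h b ≤ 1) → ∑ a, h a * x a = N H x →
      σ * (h i - h j) ≤ σ * (g i - g j) := by
    intro h hh hhx
    have e1 := dot_le hc hh hY
    rw [dot_add, dot_smul, dot_smul, hhx, ← hgY, h1] at e1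
    have e2 : ∀ q : V → ℤ, ∑ a, q a * e' a = K * (q i - q j) + ∑ a, q a * w a := by
      intro q
      rw [hg.he', dot_add, dot_smul, dot_smul, dot_ez, one_mul]
    rw [e2, e2] at e1
    have e3 := (hσbd h w hh hw).2
    have e4 := (hσbd g w hlip hw).1
    have e5 : (K : ℤ) * (σ * (h i - h j) - σ * (g i - g j)) < K := by
      have : (2 * N H w : ℤ) < K := by exact_mod_cast hK
      nlinarith
    have e6 : (0 : ℤ) < K := by
      have : 0 < K := by omega
      exact_mod_cast this
    by_contra hcon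
    push Not at hcon
    have : 1 ≤ σ * (h i - h j) - σ * (g i - g j) := by omega
    nlinarith
  -- (3) the extremal potential
  have h3 : (N H (x + σ • ez i j) : ℤ) - N H x ≤ σ * (g i - g j) := by
    rcases hσ with rfl | rfl
    · have := h2 (pot H x j) (fun a b h => pot_lip hc hx j h) (pot_dot hc hx j)
      rw [pot_self, sub_zero] at this
      unfold pot at this
      rw [one_smul]
      linarith
    · have := h2 (pot H x i) (fun a b h => pot_lip hc hx i h) (pot_dot hc hx i)
      rw [pot_self, zero_sub] at this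
      unfold pot at this
      rw [neg_smul, one_smul, ez_neg]
      linarith
  have h4 : σ * (g i - g j) ≤ (N H (x + σ • ez i j) : ℤ) - N H x := by
    have e1 := dot_le hc hlip (x := x + σ • ez i j) (by
      simp only [Pi.add_apply, Finset.sum_add_distrib, hx, sum_smul_zero he0 σ, add_zero])
    rw [dot_add, dot_smul, dot_ez, h1] at e1
    linarith
  have h5 : σ * (g i - g j) = (N H (x + σ • ez i j) : ℤ) - N H x := le_antisymm h4 h3
  unfold slope
  rw [← h5, ← mul_assoc, hσσ, one_mul]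

end Pool.Agent.H59.SEP
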