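import Mathlib

set_option autoImplicit false

open scoped Pointwise Polynomial

namespace Pool.Agent.H59.SEP

variable {V : Type*} [Fintype V] [DecidableEq V]

/-- The vector `e_a - e_b` of `ℝ^V`. -/
def ev (a b : V) : V → ℝ := Pi.single a 1 - Pi.single b 1

/-- The vector `e_a - e_b` of `ℤ^V`. -/
def ez (a b : V) : V → ℤ := Pi.single a 1 - Pi.single b 1

/-- An integral vector regarded as a real vector. -/
def toR (x : V → ℤ) : V → ℝ := fun v => (x v : ℝ)

/-- The symmetric edge polytope `P_G`: the convex hull of the vectors `e_a - e_b`, `e_b - e_a`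
with `ab` an edge of `G`. -/
def polytope (G : SimpleGraph V) : Set (V → ℝ) :=
  convexHull ℝ {x | ∃ a b, G.Adj a b ∧ x = ev a b}

/-- The number of points of `ℤ^V` in `m P`. -/
noncomputable def latticeCount (P : Set (V → ℝ)) (m : ℕ) : ℕ :=
  Nat.card {x : V → ℤ // toR x ∈ (m : ℝ) • P}

/-- `h*` of a polytope `P` of dimension `d`, as the power series
`(1-t)^(d+1) (1 + ∑_{m ≥ 1} |mP ∩ ℤ^V| t^m)`. -/
noncomputable def hStar (P : Set (V → ℝ)) (d : ℕ) : PowerSeries ℤ :=
  (1 - PowerSeries.X) ^ (d + 1) *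
    PowerSeries.mk (fun m => if m = 0 then 1 else (latticeCount P m : ℤ))

/-- `F` is a facet of the polytope `P` (the set where a linear functional `u` attains its
maximum `c` on `P`, of dimension `dim P - 1`) that is visible from `p`, i.e. `p` lies strictly
on the other side of the hyperplane `u = c`. -/
def IsVisibleFacet (P : Set (V → ℝ)) (p : V → ℝ) (F : Set (V → ℝ)) : Prop :=
  ∃ (u : (V → ℝ) →ₗ[ℝ] ℝ) (c : ℝ), (∀ x ∈ P, u x ≤ c) ∧ c < u p ∧ F = {x ∈ P | u x = c} ∧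
    F.Nonempty ∧ Module.finrank ℝ (vectorSpan ℝ F) + 1 = Module.finrank ℝ (vectorSpan ℝ P)

/-- The simplex with vertex set `s` is unimodular for the lattice
`Λ = {x ∈ ℤ^V : ∑ x = 0}`: its vertices are in `Λ` and every point of `Λ` in its affine hull
is an integral affine combination of its vertices. -/
def IsUnimodular (s : Finset (V → ℝ)) : Prop :=
  (∀ v ∈ s, ∃ x : V → ℤ, ∑ a, x a = 0 ∧ v = toR x) ∧
  ∀ x : V → ℤ, ∑ a, x a = 0 → toR x ∈ affineSpan ℝ (s : Set (V → ℝ)) →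
    ∃ c : (V → ℝ) → ℤ, ∑ v ∈ s, c v = 1 ∧ toR x = ∑ v ∈ s, (c v : ℝ) • v

/-- `K` is a finite triangulation of `X`, all of whose maximal simplices have `n` vertices and
are unimodular. -/
structure IsUnimodularTriangulation (K : Geometry.SimplicialComplex ℝ (V → ℝ))
    (X : Set (V → ℝ)) (n : ℕ) : Prop where
  finite : K.faces.Finite
  space_eq : K.space = X
  card_facet : ∀ s ∈ K.facets, s.card = n
  unimodular : ∀ s ∈ K.facets, IsUnimodular s

/-- `h` is the lattice distance of the lattice point `p` from the hyperplane spanned by `s` in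
`{x : ∑ x = 0}`: the affine hull of `s` is `{x : ∑ x = 0, u x = c}` with `u` a primitive integral
functional on `Λ`, and `h = |u p - c|`. -/
def IsLatticeDistance (s : Finset (V → ℝ)) (p : V → ℤ) (h : ℕ) : Prop :=
  ∃ (u : V → ℤ) (c : ℤ), (∃ x : V → ℤ, ∑ a, x a = 0 ∧ ∑ a, u a * x a = 1) ∧
    (affineSpan ℝ (s : Set (V → ℝ)) : Set (V → ℝ)) =
      {x | ∑ a, x a = 0 ∧ ∑ a, (u a : ℝ) * x a = c} ∧
    (h : ℤ) = |∑ a, u a * p a - c|

/-- The lattice distance of `p` from the affine hull of `s`. -/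
noncomputable def height (p : V → ℤ) (s : Finset (V → ℝ)) : ℕ :=
  sInf {h | IsLatticeDistance s p h}

/-- The subcomplex (with the empty face) generated by the facets of `K` of height `≥ m`
above `p`. -/
def subcomplex (K : Geometry.SimplicialComplex ℝ (V → ℝ)) (p : V → ℤ) (m : ℕ) :
    Set (Finset (V → ℝ)) :=
  {F | ∃ s ∈ K.facets, m ≤ height p s ∧ F ⊆ s}

/-- `h_Δ(t) = ∑_{i=0}^{d} f_{i-1}(Δ) t^i (1-t)^{d-i}`, where `f_{i-1}(Δ)` is the number of
members of `Δ` with `i` elements. -/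
noncomputable def hPoly (d : ℕ) (Δ : Set (Finset (V → ℝ))) : ℤ[X] :=
  ∑ i ∈ Finset.range (d + 1),
    (({F ∈ Δ | F.card = i}.ncard : ℤ) : ℤ[X]) * Polynomial.X ^ i * (1 - Polynomial.X) ^ (d - i)

/-- `D_s = h_{Γ_s} - h_{Γ_{s-1}}` (with `h_{Γ_0} = 0`), where `Γ_s` is generated by the facets of
height `≥ h_s`. -/
noncomputable def DPoly (K : Geometry.SimplicialComplex ℝ (V → ℝ)) (p : V → ℤ) (d : ℕ)
    (h : ℕ → ℕ) (s : ℕ) : ℤ[X] :=
  hPoly d (subcomplex K p (h s)) - if s = 1 then 0 else hPoly d (subcomplex K p (h (s - 1)))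

/-- `q_s(t) = D_s(t) (1 + t + ... + t^(h_s - 1))`. -/
noncomputable def qPoly (K : Geometry.SimplicialComplex ℝ (V → ℝ)) (p : V → ℤ) (d : ℕ)
    (h : ℕ → ℕ) (s : ℕ) : ℤ[X] :=
  DPoly K p d h s * ∑ l ∈ Finset.range (h s), Polynomial.X ^ l

/-- `p(t) = t^d p(1/t)`: the polynomial `p` is palindromic with center `d/2`. -/
def IsPalindromic (d : ℕ) (p : ℤ[X]) : Prop :=
  (∀ l, d < l → p.coeff l = 0) ∧ ∀ l ≤ d, p.coeff l = p.coeff (d - l)

end Pool.Agent.H59.SEP
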