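import Pool.Agent.H59.SEP.Count

set_option autoImplicit false
set_option linter.unusedSectionVars false

open scoped Pointwise Polynomial

namespace Pool.Agent.H59.SEP

variable {V : Type*} [Fintype V] [DecidableEq V]

variable {H : SimpleGraph V}

/-- the tight arcs of `g` connect `V` -/
def TightConn (H : SimpleGraph V) (g : V → ℤ) : Prop :=
  ∀ S : Finset V, (∀ a b, H.Adj a b → g a - g b = 1 → (a ∈ S ↔ b ∈ S)) → S.Nonempty →
    S = Finset.univ

open Classical in
/-- the number of tight arcs -/
noncomputable def tcount (H : SimpleGraph V) (g : V → ℤ) : ℕ :=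
  (Finset.univ.filter (fun p : V × V => H.Adj p.1 p.2 ∧ g p.1 - g p.2 = 1)).card

theorem exists_tight_aux (hc : H.Connected) {Y : V → ℤ} (hY : ∑ v, Y v = 0) (n : ℕ) :
    ∀ g : V → ℤ, (∀ a b, H.Adj a b → g a - g b ≤ 1) → ∑ v, g v * Y v = N H Y →
    Fintype.card (V × V) ≤ tcount H g + n →
    ∃ g : V → ℤ, (∀ a b, H.Adj a b → g a - g b ≤ 1) ∧ ∑ v, g v * Y v = N H Y ∧ TightConn H g := by
  classical
  induction n with
  | zero =>
    intro g hg hgY hn
    refine ⟨g, hg, hgY, ?_⟩
    intro S hS hne
    have huniv : (Finset.univ.filter (fun p : V × V => H.Adj p.1 p.2 ∧ g p.1 - g p.2 = 1)) =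
        Finset.univ := by
      apply Finset.eq_univ_of_card
      apply le_antisymm (Finset.card_le_univ _)
      unfold tcount at hn
      rw [add_zero] at hn
      exact hn.trans (le_of_eq (by congr))
    ext b
    simp only [Finset.mem_univ, iff_true]
    obtain ⟨a, ha⟩ := hne
    have : (a, b) ∈ (Finset.univ.filter (fun p : V × V => H.Adj p.1 p.2 ∧ g p.1 - g p.2 = 1)) := by
      rw [huniv]; simp
    simp only [Finset.mem_filter, Finset.mem_univ, true_and] at this
    exact (hS a b this.1 this.2).1 ha
  | succ n ih =>
    intro g hg hgY hn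
    by_cases hT : TightConn H g
    · exact ⟨g, hg, hgY, hT⟩
    unfold TightConn at hT
    push Not at hT
    obtain ⟨S, hS, hne, hSu⟩ := hT
    let ind : V → ℤ := fun v => if v ∈ S then 1 else 0
    have hzero : ∀ a b, H.Adj a b → a ∈ S → b ∉ S → g a - g b = 0 := by
      intro a b hab ha hb
      have h1 := hg a b hab
      have h2 := hg b a hab.symm
      have h3 : g a - g b ≠ 1 := fun h => hb ((hS a b hab h).1 ha)
      have h4 : g b - g a ≠ 1 := fun h => hb ((hS b a hab.symm h).2 ha)
      omega
    have hp : ∀ a b, H.Adj a b → (g a + ind a) - (g b + ind b) ≤ 1 := by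
      intro a b hab
      have h1 := hg a b hab
      simp only [ind]
      by_cases ha : a ∈ S <;> by_cases hb : b ∈ S
      · simp [ha, hb]; omega
      · have := hzero a b hab ha hb
        simp [ha, hb]; omega
      · have := hzero b a hab.symm hb ha
        simp [ha, hb]; omega
      · simp [ha, hb]; omega
    have hm : ∀ a b, H.Adj a b → (g a - ind a) - (g b - ind b) ≤ 1 := by
      intro a b hab
      have h1 := hg a b hab
      simp only [ind]
      by_cases ha : a ∈ S <;> by_cases hb : b ∈ S
      · simp [ha, hb]; omega
      · have := hzero a b hab ha hb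
        simp [ha, hb]; omega
      · have := hzero b a hab.symm hb ha
        simp [ha, hb]; omega
      · simp [ha, hb]; omega
    have e1 := dot_le hc (f := fun v => g v + ind v) hp hY
    have e2 := dot_le hc (f := fun v => g v - ind v) hm hY
    simp only [add_mul, sub_mul, Finset.sum_add_distrib, Finset.sum_sub_distrib] at e1 e2
    have e3 : ∑ v, ind v * Y v = 0 := by linarith
    -- boundary edge
    obtain ⟨a, ha⟩ := hne
    have hb : ∃ b, b ∉ S := by
      by_contra hcon
      push Not at hcon
      exact hSu (Finset.eq_univ_iff_forall.2 hcon)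
    obtain ⟨b, hb⟩ := hb
    obtain ⟨w⟩ := hc.preconnected a b
    obtain ⟨dd, _, hd1, hd2⟩ := w.exists_boundary_dart (S : Set V) (by simpa using ha) (by simpa using hb)
    apply ih (fun v => g v + ind v) hp
    · simp only [add_mul, Finset.sum_add_distrib]
      rw [e3, hgY]; simp
    · have hlt : tcount H g < tcount H (fun v => g v + ind v) := by
        unfold tcount
        apply Finset.card_lt_card
        rw [Finset.ssubset_iff_of_subset]
        · refine ⟨(dd.fst, dd.snd), ?_, ?_⟩
          · simp only [Finset.mem_filter, Finset.mem_univ, true_and]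
            have hz := hzero _ _ dd.adj (by simpa using hd1) (by simpa using hd2)
            refine ⟨dd.adj, ?_⟩
            have h1 : ind dd.fst = 1 := by simp only [ind]; rw [if_pos (by simpa using hd1)]
            have h2 : ind dd.snd = 0 := by simp only [ind]; rw [if_neg (by simpa using hd2)]
            rw [h1, h2]; omega
          · simp only [Finset.mem_filter, Finset.mem_univ, true_and]
            have hz := hzero _ _ dd.adj (by simpa using hd1) (by simpa using hd2)
            rintro ⟨_, h⟩
            omega
        · intro p hp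
          simp only [Finset.mem_filter, Finset.mem_univ, true_and] at hp ⊢
          refine ⟨hp.1, ?_⟩
          have := hS _ _ hp.1 hp.2
          have h3 : ind p.1 = ind p.2 := by
            simp only [ind, this]
          rw [h3]; omega
      omega

theorem exists_tight (hc : H.Connected) {Y : V → ℤ} (hY : ∑ v, Y v = 0) :
    ∃ g : V → ℤ, (∀ a b, H.Adj a b → g a - g b ≤ 1) ∧ ∑ v, g v * Y v = N H Y ∧ TightConn H g := by
  obtain ⟨r⟩ := hc.nonempty
  exact exists_tight_aux hc hY (Fintype.card (V × V)) (pot H Y r) (fun a b h => pot_lip hc hY r h)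
    (pot_dot hc hY r) (by omega)

/-- the functional `x ↦ ∑ f v x v` -/
noncomputable def functional (f : V → ℝ) : (V → ℝ) →ₗ[ℝ] ℝ :=
  { toFun := fun x => ∑ v, f v * x v
    map_add' := fun x y => dotR_add f x y
    map_smul' := fun c x => by
      simp only [RingHom.id_apply, smul_eq_mul]; exact dotR_smul f x c }

theorem functional_apply (f x : V → ℝ) : functional f x = ∑ v, f v * x v := rfl

theorem sum_eq_combo {x : V → ℝ} (hx : ∑ v, x v = 0) (r : V) : x = ∑ v, x v • ev v r := by
  funext u
  rw [Finset.sum_apply]
  simp only [Pi.smul_apply, smul_eq_mul, ev, Pi.sub_apply, mul_sub, Finset.sum_sub_distrib,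
    Pi.single_apply]
  rw [← Finset.sum_mul, hx]
  simp

theorem ev_self (r : V) : ev r r = 0 := by simp [ev]

theorem ev_add (a b c : V) : ev a b + ev b c = ev a c := by simp [ev]

/-- a tight connected functional of slope at least `2` gives a visible facet -/
theorem isVisibleFacet_of_tight {i j : V} (hij : i ≠ j) {g : V → ℤ}
    (hg : ∀ a b, H.Adj a b → g a - g b ≤ 1) (hT : TightConn H g) (h2 : 2 ≤ g i - g j) :
    IsVisibleFacet (polytope H) (ev i j)
      {x ∈ polytope H | ∑ v, (g v : ℝ) * x v = 1} := by
  -- tight edge
  have htight : ∃ a b, H.Adj a b ∧ g a - g b = 1 := by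
    by_contra hcon
    push Not at hcon
    have := hT {i} (fun a b hab h => absurd h (hcon a b hab)) ⟨i, by simp⟩
    have hj : j ∈ ({i} : Finset V) := by rw [this]; simp
    simp at hj
    exact hij hj.symm
  obtain ⟨a0, b0, hab0, hg0⟩ := htight
  set F : Set (V → ℝ) := {x ∈ polytope H | ∑ v, (g v : ℝ) * x v = 1} with hF
  have hv0 : ev a0 b0 ∈ F := by
    refine ⟨ev_mem hab0, ?_⟩
    rw [dotR_ev]; exact_mod_cast hg0
  refine ⟨functional (fun v => (g v : ℝ)), 1, ?_, ?_, ?_, ⟨_, hv0⟩, ?_⟩
  · intro x hx
    exact polytope_le _ 1 (fun a b hab => by exact_mod_cast hg a b hab) hx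
  · rw [functional_apply, dotR_ev]
    have : (2 : ℝ) ≤ g i - g j := by exact_mod_cast h2
    linarith
  · rfl
  · have h0 : (0 : V → ℝ) ∈ polytope H := zero_mem hab0
    set W := vectorSpan ℝ F with hW
    have hFP : F ⊆ polytope H := fun x hx => hx.1
    have hWP : W ≤ vectorSpan ℝ (polytope H) := vectorSpan_mono ℝ hFP
    have hsup : vectorSpan ℝ (polytope H) = W ⊔ Submodule.span ℝ {ev a0 b0} := by
      apply le_antisymm
      · have hall : ∀ a b, ev a b ∈ W ⊔ Submodule.span ℝ {ev a0 b0} := by
          have ht : ∀ a b, H.Adj a b → g a - g b = 1 → ev a b ∈ W ⊔ Submodule.span ℝ {ev a0 b0} := by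
            intro a b hab h
            have h1 : ev a b ∈ F := ⟨ev_mem hab, by rw [dotR_ev]; exact_mod_cast h⟩
            have h2 : ev a b - ev a0 b0 ∈ W := vsub_mem_vectorSpan ℝ h1 hv0
            have h3 : ev a b = (ev a b - ev a0 b0) + ev a0 b0 := by abel
            rw [h3]
            exact Submodule.add_mem_sup h2 (Submodule.mem_span_singleton_self _)
          intro a b
          classical
          have := hT (Finset.univ.filter (fun a => ev a b ∈ W ⊔ Submodule.span ℝ {ev a0 b0}))
            (by
              intro x y hxy h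
              simp only [Finset.mem_filter, Finset.mem_univ, true_and]
              have h1 := ht x y hxy h
              constructor
              · intro h2
                have : ev y b = ev x b - ev x y := by simp [ev]
                rw [this]; exact Submodule.sub_mem _ h2 h1
              · intro h2
                rw [← ev_add x y b]; exact Submodule.add_mem _ h1 h2)
            ⟨b, by simp [ev_self]⟩
          have ha : a ∈ Finset.univ.filter (fun a => ev a b ∈ W ⊔ Submodule.span ℝ {ev a0 b0}) := by
            rw [this]; simp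
          simpa using ha
        unfold vectorSpan
        rw [Submodule.span_le]
        rintro x ⟨y, hy, z, hz, rfl⟩
        have hs : ∑ v, (y - z) v = 0 := by
          simp [Finset.sum_sub_distrib, polytope_sum hy, polytope_sum hz]
        show y - z ∈ W ⊔ Submodule.span ℝ {ev a0 b0}
        rw [sum_eq_combo hs i]
        exact Submodule.sum_mem _ (fun v _ => Submodule.smul_mem _ _ (hall v i))
      · apply sup_le hWP
        rw [Submodule.span_singleton_le_iff_mem]
        have := vsub_mem_vectorSpan ℝ (ev_mem hab0) h0
        simpa using this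
    have hWk : ∀ x ∈ W, functional (fun v => (g v : ℝ)) x = 0 := by
      have : W ≤ LinearMap.ker (functional (fun v => (g v : ℝ))) := by
        rw [hW]
        unfold vectorSpan
        rw [Submodule.span_le]
        rintro x ⟨y, hy, z, hz, rfl⟩
        show functional (fun v => (g v : ℝ)) (y - z) = 0
        rw [map_sub, functional_apply, functional_apply, hy.2, hz.2]; ring
      intro x hx
      exact LinearMap.mem_ker.1 (this hx)
    have hinf : W ⊓ Submodule.span ℝ {ev a0 b0} = ⊥ := by
      rw [eq_bot_iff]
      rintro x ⟨hx1, hx2⟩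
      obtain ⟨t, rfl⟩ := Submodule.mem_span_singleton.1 hx2
      have h1 := hWk _ hx1
      rw [map_smul, functional_apply, dotR_ev, smul_eq_mul] at h1
      have h2 : ((g a0 : ℝ) - g b0) = 1 := by exact_mod_cast hg0
      rw [h2, mul_one] at h1
      rw [h1]; simp
    have hne : ev a0 b0 ≠ 0 := by
      intro h
      have h2 := congrFun h a0
      simp [ev, hab0.ne] at h2
    have := Submodule.finrank_sup_add_finrank_inf_eq W (Submodule.span ℝ {ev a0 b0})
    rw [hinf, finrank_bot, finrank_span_singleton hne, add_zero] at this
    rw [hsup, this]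

end Pool.Agent.H59.SEP
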