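import Pool.Agent.H59.SEP.Slopes

set_option autoImplicit false
set_option linter.unusedSectionVars false

open scoped Pointwise Polynomial

namespace Pool.Agent.H59.SEP

open Polynomial in
theorem reflect_sum_pow {ι : Type*} (T : Finset ι) (t : ι → ℕ) (d : ℕ) (ht : ∀ s ∈ T, t s ≤ d) :
    reflect d (∑ s ∈ T, (X : ℤ[X]) ^ t s) = ∑ s ∈ T, X ^ (d - t s) := by
  ext n
  rw [coeff_reflect, finsetSum_coeff, finsetSum_coeff]
  apply Finset.sum_congr rfl
  intro s hs
  have := ht s hs
  rw [coeff_X_pow, coeff_X_pow]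
  by_cases hn : n ≤ d
  · rw [revAt_le hn]
    congr 1
    apply propext
    omega
  · have : revAt d n = n := revAt_eq_self_of_lt (by omega)
    rw [this, if_neg (by omega), if_neg (by omega)]

open Polynomial in
theorem palin_aux (d m : ℕ) (D : ℤ[X]) (hd : natDegree D ≤ d)
    (h : reflect d D = X ^ (1 + m) * D) :
    IsPalindromic d (2 * X * (D * ∑ l ∈ Finset.range m, X ^ l)) := by
  set A : ℤ[X] := ∑ l ∈ Finset.range m, X ^ (l + 1) with hA
  have hAr : reflect (m + 1) A = A := by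
    rw [hA, reflect_sum_pow _ _ _ (by intro s hs; have := Finset.mem_range.1 hs; omega)]
    rw [← Finset.sum_range_reflect]
    apply Finset.sum_congr rfl
    intro s hs
    have := Finset.mem_range.1 hs
    congr 1
    omega
  have hAd : natDegree A ≤ m + 1 := by
    rw [hA]
    apply natDegree_sum_le_of_forall_le
    intro l hl
    have := Finset.mem_range.1 hl
    rw [natDegree_X_pow]; omega
  set P := D * A with hP
  have hPr : reflect (d + (m + 1)) P = X ^ (1 + m) * P := by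
    rw [hP, reflect_mul _ _ hd hAd, h, hAr]; ring
  have hPd : natDegree P ≤ d + (m + 1) := by
    rw [hP]; exact natDegree_mul_le.trans (Nat.add_le_add hd hAd)
  have hcoef : ∀ l, l ≤ d + (m + 1) →
      P.coeff (d + (m + 1) - l) = if 1 + m ≤ l then P.coeff (l - (1 + m)) else 0 := by
    intro l hl
    have := congrArg (fun p => coeff p l) hPr
    rw [coeff_reflect, revAt_le hl, coeff_X_pow_mul'] at this
    exact this
  have hE : (2 : ℤ[X]) * X * (D * ∑ l ∈ Finset.range m, X ^ l) = P + P := by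
    rw [hP, hA]
    have : ∑ l ∈ Finset.range m, (X : ℤ[X]) ^ (l + 1) = X * ∑ l ∈ Finset.range m, X ^ l := by
      rw [Finset.mul_sum]; apply Finset.sum_congr rfl; intro l _; ring
    rw [this]; ring
  rw [hE]
  constructor
  · intro l hl
    rw [coeff_add]
    have : P.coeff l = 0 := by
      by_cases h1 : d + (m + 1) < l
      · exact coeff_eq_zero_of_natDegree_lt (lt_of_le_of_lt hPd h1)
      · have := hcoef (d + (m + 1) - l) (by omega)
        rw [if_neg (by omega)] at this
        have e : d + (m + 1) - (d + (m + 1) - l) = l := by omega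
        rw [e] at this
        exact this
    rw [this]; simp
  · intro l hl
    rw [coeff_add, coeff_add]
    have : P.coeff l = P.coeff (d - l) := by
      have := hcoef (m + 1 + (d - l)) (by omega)
      rw [if_pos (by omega)] at this
      have e : d + (m + 1) - (m + 1 + (d - l)) = l := by omega
      have e2 : m + 1 + (d - l) - (1 + m) = d - l := by omega
      rw [e, e2] at this
      exact this
    rw [this]

variable {V : Type*} [Fintype V] [DecidableEq V]

variable {H G : SimpleGraph V} {i j : V}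

theorem FacetData.height_eq {s : Finset (V → ℝ)} {f : V → ℤ} (D : FacetData H i j s f) :
    (height (ez i j) s : ℤ) = f i - f j - 1 := by
  have h0 := D.slope
  obtain ⟨n, hn⟩ := Int.eq_ofNat_of_zero_le (show 0 ≤ f i - f j - 1 by omega)
  have hset : {h | IsLatticeDistance s (ez i j) h} = {n} := by
    ext h
    rw [Set.mem_ofPred_eq, D.dist h, hn, Set.mem_singleton_iff]
    exact Int.ofNat_inj
  unfold height
  rw [hset, csInf_singleton, hn]

theorem subcomplex_eq {K : Geometry.SimplicialComplex ℝ (V → ℝ)}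
    {FS : Finset (Finset (V → ℝ))} (hFS : ∀ s, s ∈ FS ↔ s ∈ K.facets)
    {f : Finset (V → ℝ) → V → ℤ} (D : ∀ s ∈ FS, FacetData H i j s (f s)) (m : ℕ) :
    subcomplex K (ez i j) m = (SF FS f i j m : Set (Finset (V → ℝ))) := by
  ext F
  rw [Finset.mem_coe, mem_SF]
  constructor
  · rintro ⟨s, hs, hm, hF⟩
    refine ⟨s, (hFS s).2 hs, ?_, hF⟩
    have := (D s ((hFS s).2 hs)).height_eq
    omega
  · rintro ⟨s, hs, hm, hF⟩
    refine ⟨s, (hFS s).1 hs, ?_, hF⟩
    have := (D s hs).height_eq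
    omega

open Polynomial in
theorem hPoly_eq (d : ℕ) (Δ : Finset (Finset (V → ℝ))) (hΔ : ∀ F ∈ Δ, F.card ≤ d) :
    hPoly d (Δ : Set (Finset (V → ℝ))) = ∑ F ∈ Δ, X ^ F.card * (1 - X) ^ (d - F.card) := by
  classical
  unfold hPoly
  rw [← Finset.sum_fiberwise_of_maps_to (s := Δ) (t := Finset.range (d + 1)) (g := fun F => F.card)
    (fun F hF => Finset.mem_range.2 (Nat.lt_succ_of_le (hΔ F hF)))]
  apply Finset.sum_congr rfl
  intro a _
  have h1 : {F | F ∈ (Δ : Set (Finset (V → ℝ))) ∧ F.card = a} =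
      ((Δ.filter (fun F => F.card = a) : Finset (Finset (V → ℝ))) : Set (Finset (V → ℝ))) := by
    ext F; simp
  rw [h1, Set.ncard_coe_finset]
  have h2 : ∀ F ∈ Δ.filter (fun F => F.card = a),
      (X : ℤ[X]) ^ F.card * (1 - X) ^ (d - F.card) = X ^ a * (1 - X) ^ (d - a) := by
    intro F hF
    rw [(Finset.mem_filter.1 hF).2]
  rw [Finset.sum_congr rfl h2, Finset.sum_const, nsmul_eq_mul, mul_assoc]
  push_cast
  rfl

/-- casting polynomials to power series -/
noncomputable abbrev ψ : ℤ[X] →+* PowerSeries ℤ := Polynomial.coeToPowerSeries.ringHom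

theorem ψ_X : ψ Polynomial.X = PowerSeries.X := by
  rw [ψ, Polynomial.coeToPowerSeries.ringHom_apply, Polynomial.coe_X]

theorem ψ_inj {p q : ℤ[X]} (h : ψ p = ψ q) : p = q := Polynomial.coe_injective ℤ h

theorem hPoly_gf (hc : H.Connected) (hij : i ≠ j) (hne : ∃ a b, H.Adj a b)
    {L : ℕ → Finset (V → ℤ)}
    (hL : ∀ l x, x ∈ L l ↔ ∑ v, x v = 0 ∧ N H x = l)
    {K : Geometry.SimplicialComplex ℝ (V → ℝ)} {d : ℕ}
    (hK : IsUnimodularTriangulation K (⋃₀ {F | IsVisibleFacet (polytope H) (ev i j) F}) d)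
    {FS : Finset (Finset (V → ℝ))} (hFS : ∀ s, s ∈ FS ↔ s ∈ K.facets)
    {f : Finset (V → ℝ) → V → ℤ} (D : ∀ s ∈ FS, FacetData H i j s (f s))
    {e' w : V → ℤ} {B k : ℕ} (hg : Generic H i j FS e' w B k)
    {m : ℕ} (hm : 1 ≤ m) :
    ψ (hPoly d (subcomplex K (ez i j) m)) =
      (1 - PowerSeries.X) ^ d * gf L (fun x => 1 + (m : ℤ) ≤ slope H (ez i j) 1 x) := by
  have hcard : ∀ F ∈ SF FS f i j m, F.card ≤ d := by
    intro F hF
    obtain ⟨s, hs, _, hFs⟩ := mem_SF.1 hF
    rw [← hK.card_facet s ((hFS s).1 hs)]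
    exact Finset.card_le_card hFs
  rw [subcomplex_eq hFS D, hPoly_eq d _ hcard, map_sum,
    gf_slope_ge hc hij hne hL hK hFS D hg hm, Finset.mul_sum]
  apply Finset.sum_congr rfl
  intro F hF
  obtain ⟨s, hs, _, hFs⟩ := mem_SF.1 hF
  have h1 := gf_cone hc hL (D s hs) hFs (Finset.Subset.refl F)
  rw [map_mul, map_pow, map_pow, map_sub, map_one, ψ_X, ← h1]
  have h2 : (1 - PowerSeries.X : PowerSeries ℤ) ^ d =
      (1 - PowerSeries.X) ^ F.card * (1 - PowerSeries.X) ^ (d - F.card) := by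
    rw [← pow_add]; congr 1; have := hcard F hF; omega
  rw [h2]; ring

/-- the difference of consecutive `h`-polynomials -/
noncomputable def Dp (K : Geometry.SimplicialComplex ℝ (V → ℝ)) (e : V → ℤ) (d m : ℕ) : ℤ[X] :=
  hPoly d (subcomplex K e m) - hPoly d (subcomplex K e (m + 1))

theorem Dp_gf (hc : H.Connected) (hij : i ≠ j) (hne : ∃ a b, H.Adj a b)
    {L : ℕ → Finset (V → ℤ)}
    (hL : ∀ l x, x ∈ L l ↔ ∑ v, x v = 0 ∧ N H x = l)
    {K : Geometry.SimplicialComplex ℝ (V → ℝ)} {d : ℕ}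
    (hK : IsUnimodularTriangulation K (⋃₀ {F | IsVisibleFacet (polytope H) (ev i j) F}) d)
    {FS : Finset (Finset (V → ℝ))} (hFS : ∀ s, s ∈ FS ↔ s ∈ K.facets)
    {f : Finset (V → ℝ) → V → ℤ} (D : ∀ s ∈ FS, FacetData H i j s (f s))
    {e' w : V → ℤ} {B k : ℕ} (hg : Generic H i j FS e' w B k)
    {m : ℕ} (hm : 1 ≤ m) :
    ψ (Dp K (ez i j) d m) =
      (1 - PowerSeries.X) ^ d * gf L (fun x => slope H (ez i j) 1 x = 1 + m) := by
  classical
  unfold Dp
  rw [map_sub, hPoly_gf hc hij hne hL hK hFS D hg hm,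
    hPoly_gf hc hij hne hL hK hFS D hg (show 1 ≤ m + 1 by omega), ← mul_sub]
  congr 1
  rw [sub_eq_iff_eq_add]
  ext l
  rw [map_add, coeff_gf, coeff_gf, coeff_gf]
  rw [← Nat.cast_add, ← Finset.card_union_of_disjoint]
  · congr 2
    ext x
    simp only [Finset.mem_union, Finset.mem_filter, ← and_or_left]
    push_cast
    constructor
    · rintro ⟨h1, h2⟩; exact ⟨h1, by omega⟩
    · rintro ⟨h1, h2⟩; exact ⟨h1, by omega⟩
  · rw [Finset.disjoint_left]
    intro x h1 h2
    rw [Finset.mem_filter] at h1 h2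
    push_cast at h2
    omega

theorem Dp_sum (hc : H.Connected) (hij : i ≠ j) (hne : ∃ a b, H.Adj a b)
    {L : ℕ → Finset (V → ℤ)}
    (hL : ∀ l x, x ∈ L l ↔ ∑ v, x v = 0 ∧ N H x = l)
    {K : Geometry.SimplicialComplex ℝ (V → ℝ)} {d : ℕ}
    (hK : IsUnimodularTriangulation K (⋃₀ {F | IsVisibleFacet (polytope H) (ev i j) F}) d)
    {FS : Finset (Finset (V → ℝ))} (hFS : ∀ s, s ∈ FS ↔ s ∈ K.facets)
    {f : Finset (V → ℝ) → V → ℤ} (D : ∀ s ∈ FS, FacetData H i j s (f s))
    {e' w : V → ℤ} {B k : ℕ} (hg : Generic H i j FS e' w B k)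
    {m : ℕ} (hm : 1 ≤ m) :
    ∃ (T : Finset (Finset (V → ℝ))) (t : Finset (V → ℝ) → ℕ), (∀ s ∈ T, t s ≤ d) ∧
      Dp K (ez i j) d m = ∑ s ∈ T, Polynomial.X ^ t s ∧
      Polynomial.X ^ (1 + m) * Dp K (ez i j) d m = ∑ s ∈ T, Polynomial.X ^ (d - t s) := by
  classical
  have hcards : ∀ s ∈ FS, s.card = d := fun s hs => hK.card_facet s ((hFS s).1 hs)
  have hcone : ∀ s ∈ FS, ∀ T : Finset (V → ℝ), T ⊆ s →
      (1 - PowerSeries.X) ^ d * gf L (InCone s T) = PowerSeries.X ^ T.card := by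
    intro s hs T hT
    rw [← gf_cone hc hL (D s hs) (Finset.Subset.refl s) hT, hcards s hs]; ring
  refine ⟨FS.filter (fun s => f s i - f s j = 1 + m),
    fun s => (s.filter (fun v => 1 * crd s e' v < 0)).card, ?_, ?_, ?_⟩
  · intro s hs
    rw [← hcards s (Finset.mem_filter.1 hs).1]
    exact Finset.card_le_card (Finset.filter_subset _ _)
  · apply ψ_inj
    rw [Dp_gf hc hij hne hL hK hFS D hg hm,
      gf_slope hc hij hne hL hK hFS D hg (Or.inl rfl) hm, Finset.mul_sum, map_sum]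
    apply Finset.sum_congr rfl
    intro s hs
    rw [hcone s (Finset.mem_filter.1 hs).1 _ (Finset.filter_subset _ _), map_pow, ψ_X]
  · apply ψ_inj
    have h1 := gf_shift hL m (i := i) (j := j)
    rw [map_mul, Dp_gf hc hij hne hL hK hFS D hg hm, map_pow, ψ_X]
    have h2 : (PowerSeries.X : PowerSeries ℤ) ^ (1 + m) * ((1 - PowerSeries.X) ^ d *
        gf L (fun x => slope H (ez i j) 1 x = 1 + m)) =
        (1 - PowerSeries.X) ^ d * gf L (fun x => slope H (ez i j) (-1) x = 1 + m) := by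
      rw [h1]; ring
    rw [h2, gf_slope hc hij hne hL hK hFS D hg (Or.inr rfl) hm, Finset.mul_sum, map_sum]
    apply Finset.sum_congr rfl
    intro s hs
    have hs' := (Finset.mem_filter.1 hs).1
    rw [hcone s hs' _ (Finset.filter_subset _ _), map_pow, ψ_X]
    congr 1
    have h3 : (s.filter (fun v => (-1 : ℤ) * crd s e' v < 0)) =
        s.filter (fun v => ¬ (1 * crd s e' v < 0)) := by
      apply Finset.filter_congr
      intro v hv
      have := hg.ne s hs' v hv
      omega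
    rw [h3]
    have h4 := Finset.card_filter_add_card_filter_not (s := s) (fun v => 1 * crd s e' v < 0)
    rw [hcards s hs'] at h4
    beta_reduce
    omega

end Pool.Agent.H59.SEP
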