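import Pool.Agent.H59.SEP.Half

set_option autoImplicit false
set_option linter.unusedSectionVars false

open scoped Pointwise Polynomial

namespace Pool.Agent.H59.SEP

variable {V : Type*} [Fintype V] [DecidableEq V]

variable {H : SimpleGraph V} {i j : V}

open Classical in
/-- generating function of a set of lattice points; `L l` are the lattice points of norm `l` -/
noncomputable def gf (L : ℕ → Finset (V → ℤ)) (p : (V → ℤ) → Prop) : PowerSeries ℤ :=
  PowerSeries.mk (fun l => ∑ x ∈ L l, if p x then 1 else 0)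

open Classical in
theorem gf_sum (L : ℕ → Finset (V → ℤ)) {ι : Type*} (T : Finset ι) (p : (V → ℤ) → Prop)
    (q : ι → (V → ℤ) → Prop)
    (h : ∀ l, ∀ x ∈ L l, (if p x then (1 : ℤ) else 0) = ∑ t ∈ T, if q t x then 1 else 0) :
    gf L p = ∑ t ∈ T, gf L (q t) := by
  ext l
  rw [map_sum]
  simp only [gf, PowerSeries.coeff_mk]
  rw [Finset.sum_congr rfl (h l), Finset.sum_comm]

/-- relative half-open cones -/
def InCone (F T : Finset (V → ℝ)) (x : V → ℤ) : Prop :=
  ∃ c : (V → ℝ) → ℤ, (∀ v ∈ F, 0 ≤ c v) ∧ (∀ v ∈ T, 1 ≤ c v) ∧ toR x = ∑ v ∈ F, (c v : ℝ) • v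

theorem FacetData.crd_of_sum {s : Finset (V → ℝ)} {f : V → ℤ} (D : FacetData H i j s f)
    {F : Finset (V → ℝ)} (hFs : F ⊆ s) {x : V → ℤ} (hx : ∑ a, x a = 0) {c : (V → ℝ) → ℤ}
    (hcx : toR x = ∑ v ∈ F, (c v : ℝ) • v) [DecidablePred (· ∈ F)] :
    ∀ v ∈ s, crd s x v = if v ∈ F then c v else 0 := by
  classical
  have h1 := D.crd_unique hx (w := fun v => if v ∈ F then (c v : ℝ) else 0) (by
    rw [hcx]
    simp only [ite_smul, zero_smul]
    rw [← Finset.sum_filter, Finset.filter_mem_eq_inter, Finset.inter_eq_right.2 hFs])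
  intro v hv
  have := h1 v hv
  split_ifs at this ⊢ with h
  · exact_mod_cast this.symm
  · exact_mod_cast this.symm

theorem FacetData.N_of_sum (hc : H.Connected) {s : Finset (V → ℝ)} {f : V → ℤ}
    (D : FacetData H i j s f)
    {F : Finset (V → ℝ)} (hFs : F ⊆ s) {x : V → ℤ} (hx : ∑ a, x a = 0) {c : (V → ℝ) → ℤ}
    (hc0 : ∀ v ∈ F, 0 ≤ c v)
    (hcx : toR x = ∑ v ∈ F, (c v : ℝ) • v) : (N H x : ℤ) = ∑ v ∈ F, c v := by
  classical
  have h2 := D.crd_of_sum hFs hx hcx
  rw [D.N_eq hc hx, Finset.sum_congr rfl h2, ← Finset.sum_filter, Finset.filter_mem_eq_inter,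
    Finset.inter_eq_right.2 hFs]
  intro v hv
  rw [h2 v hv]
  split_ifs with h
  · exact hc0 v h
  · exact le_refl _

theorem sum_zero_of_toR {x : V → ℤ} {F : Finset (V → ℝ)} {c : (V → ℝ) → ℤ}
    (hF : ∀ v ∈ F, ∑ a, v a = 0) (hcx : toR x = ∑ v ∈ F, (c v : ℝ) • v) : ∑ a, x a = 0 := by
  have h1 : ∑ a, toR x a = 0 := by
    rw [hcx]
    simp only [Finset.sum_apply, Pi.smul_apply, smul_eq_mul]
    rw [Finset.sum_comm]
    apply Finset.sum_eq_zero
    intro v hv
    rw [← Finset.mul_sum, hF v hv, mul_zero]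
  have h2 : ((∑ a, x a : ℤ) : ℝ) = 0 := by rw [← h1]; push_cast; rfl
  exact_mod_cast h2

theorem FacetData.sum_vert {s : Finset (V → ℝ)} {f : V → ℤ} (D : FacetData H i j s f) :
    ∀ v ∈ s, ∑ a, v a = 0 := by
  intro v hv
  obtain ⟨x, hx, hvx, _, _⟩ := D.vert v hv
  have : ((∑ a, x a : ℤ) : ℝ) = 0 := by rw [hx]; simp
  rw [hvx, ← this]; push_cast; rfl

theorem prod_series {ι : Type*} [DecidableEq ι] (F T : Finset ι) (hTF : T ⊆ F) :
    (PowerSeries.mk (fun l => (((Finset.finsuppAntidiag F l).filter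
      (fun c => ∀ v ∈ T, 1 ≤ c v)).card : ℤ))) * (1 - PowerSeries.X) ^ F.card
      = (PowerSeries.X : PowerSeries ℤ) ^ T.card := by
  set g : ι → PowerSeries ℤ := fun v =>
    if v ∈ T then PowerSeries.X * PowerSeries.mk 1 else PowerSeries.mk 1 with hg
  have hgc : ∀ v n, PowerSeries.coeff n (g v) = if (v ∈ T → 1 ≤ n) then (1 : ℤ) else 0 := by
    intro v n
    by_cases hv : v ∈ T
    · simp only [hg, if_pos hv, hv, true_imp_iff]
      rcases n with _ | n
      · simp
      · rw [PowerSeries.coeff_succ_X_mul]; simp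
    · simp [hg, hv]
  have h1 : PowerSeries.mk (fun l => (((Finset.finsuppAntidiag F l).filter
      (fun c => ∀ v ∈ T, 1 ≤ c v)).card : ℤ)) = ∏ v ∈ F, g v := by
    ext l
    rw [PowerSeries.coeff_mk, PowerSeries.coeff_prod, Finset.card_filter]
    push_cast
    apply Finset.sum_congr rfl
    intro c _
    simp only [hgc]
    rw [Finset.prod_ite_zero, Finset.prod_const_one]
    congr 1
    apply propext
    constructor
    · intro h v _ hv; exact h v hv
    · intro h v hv; exact h v (hTF hv) hv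
  rw [h1, ← Finset.prod_const, ← Finset.prod_mul_distrib]
  have h2 : ∀ v ∈ F, g v * (1 - PowerSeries.X) = if v ∈ T then PowerSeries.X else 1 := by
    intro v _
    by_cases hv : v ∈ T
    · simp only [hg, if_pos hv]
      rw [mul_assoc, PowerSeries.mk_one_mul_one_sub_eq_one, mul_one]
    · simp only [hg, if_neg hv]
      rw [PowerSeries.mk_one_mul_one_sub_eq_one]
  rw [Finset.prod_congr rfl h2, Finset.prod_ite, Finset.prod_const, Finset.prod_const_one, mul_one,
    Finset.filter_mem_eq_inter, Finset.inter_eq_right.2 hTF]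

theorem gf_cone (hc : H.Connected) {L : ℕ → Finset (V → ℤ)}
    (hL : ∀ l x, x ∈ L l ↔ ∑ v, x v = 0 ∧ N H x = l)
    {s : Finset (V → ℝ)} {f : V → ℤ} (D : FacetData H i j s f) {F T : Finset (V → ℝ)}
    (hFs : F ⊆ s) (hTF : T ⊆ F) :
    gf L (InCone F T) * (1 - PowerSeries.X) ^ F.card = PowerSeries.X ^ T.card := by
  classical
  rw [← prod_series F T hTF]
  congr 1
  ext l
  rw [gf, PowerSeries.coeff_mk, PowerSeries.coeff_mk, Finset.sum_ite, Finset.sum_const_zero,
    add_zero, Finset.sum_const, nsmul_eq_mul, mul_one]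
  congr 1
  -- the bijection
  choose! y hy1 hy2 hy3 hy4 using D.vert
  have hsum : ∀ c : (V → ℝ) →₀ ℕ, toR (∑ v ∈ F, c v • y v) = ∑ v ∈ F, ((c v : ℤ) : ℝ) • v := by
    intro c
    rw [toR_sum]
    apply Finset.sum_congr rfl
    intro v hv
    rw [toR_nsmul, ← hy2 v (hFs hv)]; simp
  symm
  apply Finset.card_bij (fun c _ => ∑ v ∈ F, c v • y v)
  · intro c hcm
    rw [Finset.mem_filter, Finset.mem_finsuppAntidiag] at hcm
    obtain ⟨⟨hc1, hc2⟩, hc3⟩ := hcm
    have hx : ∑ a, (∑ v ∈ F, c v • y v) a = 0 :=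
      sum_zero_of_toR (fun v hv => D.sum_vert v (hFs hv)) (hsum c)
    rw [Finset.mem_filter, hL]
    refine ⟨⟨hx, ?_⟩, fun v => (c v : ℤ), ?_, ?_, hsum c⟩
    · have := D.N_of_sum hc hFs hx (c := fun v => (c v : ℤ)) (fun v _ => by positivity) (hsum c)
      rw [← Nat.cast_sum, hc1] at this
      exact_mod_cast this
    · intro v _; positivity
    · intro v hv
      show (1 : ℤ) ≤ (c v : ℤ)
      exact_mod_cast hc3 v hv
  · intro c hcm c' hcm' heq
    rw [Finset.mem_filter, Finset.mem_finsuppAntidiag] at hcm hcm'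
    have hx : ∑ a, (∑ v ∈ F, c v • y v) a = 0 :=
      sum_zero_of_toR (fun v hv => D.sum_vert v (hFs hv)) (hsum c)
    have h1 := D.crd_of_sum hFs hx (hsum c) (c := fun v => (c v : ℤ))
    have h2 := D.crd_of_sum hFs hx (by rw [heq]; exact hsum c') (c := fun v => (c' v : ℤ))
    ext v
    by_cases hv : v ∈ F
    · have e1 := h1 v (hFs hv)
      have e2 := h2 v (hFs hv)
      rw [if_pos hv] at e1 e2
      have : (c v : ℤ) = c' v := by rw [← e1, ← e2]
      exact_mod_cast this
    · have e1 : c v = 0 := by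
        by_contra h
        exact hv (hcm.1.2 (Finsupp.mem_support_iff.2 h))
      have e2 : c' v = 0 := by
        by_contra h
        exact hv (hcm'.1.2 (Finsupp.mem_support_iff.2 h))
      rw [e1, e2]
  · intro x hx
    rw [Finset.mem_filter, hL] at hx
    obtain ⟨⟨hx0, hxl⟩, c, hc0, hc1, hcx⟩ := hx
    have hN := D.N_of_sum hc hFs hx0 hc0 hcx
    let c' : (V → ℝ) →₀ ℕ := Finsupp.onFinset F (fun v => if v ∈ F then (c v).toNat else 0) (by
      intro v hv
      by_contra h
      simp [h] at hv)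
    have hc' : ∀ v ∈ F, (c' v : ℤ) = c v := by
      intro v hv
      simp only [c', Finsupp.onFinset_apply, if_pos hv]
      exact Int.toNat_of_nonneg (hc0 v hv)
    refine ⟨c', ?_, ?_⟩
    · rw [Finset.mem_filter, Finset.mem_finsuppAntidiag]
      refine ⟨⟨?_, Finsupp.support_onFinset_subset⟩, ?_⟩
      · have : ((F.sum c' : ℕ) : ℤ) = l := by
          rw [← hxl, hN]; push_cast
          exact Finset.sum_congr rfl hc'
        exact_mod_cast this
      · intro v hv
        have := hc1 v hv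
        rw [← hc' v (hTF hv)] at this
        exact_mod_cast this
    · apply toR_injective
      rw [hsum, hcx]
      apply Finset.sum_congr rfl
      intro v hv
      rw [hc' v hv]

end Pool.Agent.H59.SEP
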