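import Pool.Agent.H59.SEP.Decomp

set_option autoImplicit false
set_option linter.unusedSectionVars false

open scoped Pointwise Polynomial

namespace Pool.Agent.H59.SEP

variable {V : Type*} [Fintype V] [DecidableEq V]

variable {H : SimpleGraph V} {i j : V}

/-- the half-open cone condition -/
def InHalf (s : Finset (V → ℝ)) (e' : V → ℤ) (σ : ℤ) (x : V → ℤ) : Prop :=
  ∀ v ∈ s, (0 < σ * crd s e' v → 0 ≤ crd s x v) ∧ (σ * crd s e' v < 0 → 1 ≤ crd s x v)

theorem exists_facet {K : Geometry.SimplicialComplex ℝ (V → ℝ)} (hfin : K.faces.Finite)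
    {t : Finset (V → ℝ)} (ht : t ∈ K.faces) : ∃ s ∈ K.facets, t ⊆ s := by
  obtain ⟨s, hts, hs⟩ := hfin.exists_le_maximal ht
  refine ⟨s, ⟨hs.1, ?_⟩, hts⟩
  intro u hu hsu
  exact Finset.Subset.antisymm hsu (hs.2 hu hsu)

theorem Generic.sum_e' {FS : Finset (Finset (V → ℝ))} {e' w : V → ℤ} {K k : ℕ}
    (hg : Generic H i j FS e' w K k) : ∑ a, e' a = 0 := by
  rw [hg.he']; simp [Finset.sum_add_distrib, ← Finset.mul_sum, sum_ez, hg.hw]

theorem sum_Y {x e' : V → ℤ} (hx : ∑ a, x a = 0) (he' : ∑ a, e' a = 0) (k σ : ℤ) :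
    ∑ a, (k • x + σ • e') a = 0 := by
  simp [Finset.sum_add_distrib, ← Finset.mul_sum, hx, he']

theorem cover (hc : H.Connected) (hij : i ≠ j) (hne : ∃ a b, H.Adj a b)
    {K : Geometry.SimplicialComplex ℝ (V → ℝ)} {n : ℕ}
    (hK : IsUnimodularTriangulation K (⋃₀ {F | IsVisibleFacet (polytope H) (ev i j) F}) n)
    {FS : Finset (Finset (V → ℝ))} (hFS : ∀ s, s ∈ FS ↔ s ∈ K.facets)
    {f : Finset (V → ℝ) → V → ℤ} (D : ∀ s ∈ FS, FacetData H i j s (f s))
    {e' w : V → ℤ} {B k : ℕ} (hg : Generic H i j FS e' w B k) {σ : ℤ} (hσ : σ = 1 ∨ σ = -1)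
    {x : V → ℤ} (hx : ∑ a, x a = 0) (h2 : 2 ≤ slope H (ez i j) σ x) :
    ∃ s ∈ FS, InHalf s e' σ x ∧ f s i - f s j = slope H (ez i j) σ x := by
  have he' := hg.sum_e'
  set Y := (k : ℤ) • x + σ • e' with hYdef
  have hY : ∑ a, Y a = 0 := sum_Y hx he' _ _
  obtain ⟨g, hglip, hgY, hgT⟩ := exists_tight hc hY
  obtain ⟨hgx, hge⟩ := sandwich hc hg hσ hx hglip hgY
  rw [← hge] at h2
  have hvis := isVisibleFacet_of_tight hij hglip hgT h2
  have hNY : N H Y ≠ 0 := by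
    intro h0
    have := (sandwich hc hg hσ hx (g := 0) (by intro a b _; simp) (by
      rw [← hYdef, h0]; simp)).2
    simp at this
    rw [← hge] at this
    omega
  have hNpos : (0 : ℝ) < N H Y := by
    have : 0 < N H Y := Nat.pos_of_ne_zero hNY
    exact_mod_cast this
  have hYP : toR Y ∈ ((N H Y : ℕ) : ℝ) • polytope H :=
    (mem_smul_polytope_iff hc hne Y (Nat.pos_of_ne_zero hNY)).2 ⟨hY, le_refl _⟩
  obtain ⟨y, hyP, hyY⟩ := hYP
  simp only at hyY
  have hyg : ∑ v, (g v : ℝ) * y v = 1 := by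
    have h1 := dotR_toR g Y
    rw [← hyY, dotR_smul, hgY] at h1
    push_cast at h1
    exact mul_left_cancel₀ hNpos.ne' (by rw [h1, mul_one])
  have hyK : y ∈ K.space := by
    rw [hK.space_eq]
    exact ⟨_, hvis, hyP, hyg⟩
  rw [Geometry.SimplicialComplex.mem_space_iff] at hyK
  obtain ⟨t, ht, hyt⟩ := hyK
  obtain ⟨s, hs, hts⟩ := exists_facet hK.finite ht
  have hys : y ∈ convexHull ℝ (s : Set (V → ℝ)) := convexHull_mono (by exact_mod_cast hts) hyt
  rw [Finset.mem_convexHull'] at hys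
  obtain ⟨μ, hμ0, hμ1, hμy⟩ := hys
  have hsFS : s ∈ FS := (hFS s).2 hs
  have Ds := D s hsFS
  have hcrd := Ds.crd_unique hY (w := fun v => (N H Y : ℝ) * μ v) (by
    rw [← hyY, ← hμy, Finset.smul_sum]
    apply Finset.sum_congr rfl
    intro v _
    rw [smul_smul])
  have hcrd0 : ∀ v ∈ s, 0 ≤ crd s Y v := by
    intro v hv
    have h1 := hcrd v hv
    have h3 : (0 : ℝ) ≤ (crd s Y v : ℝ) := by
      rw [← h1]; exact mul_nonneg hNpos.le (hμ0 v hv)
    exact_mod_cast h3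
  have hfY : ∑ a, f s a * Y a = N H Y := by
    rw [Ds.dot_eq hY, Ds.N_eq hc hY hcrd0]
  obtain ⟨_, hfe⟩ := sandwich hc hg hσ hx Ds.lip hfY
  refine ⟨s, hsFS, ?_, hfe⟩
  intro v hv
  have h1 := hcrd0 v hv
  rw [hYdef, Ds.crd_add hx he' _ _ v hv] at h1
  have h3 := hg.lt s hsFS v hv
  have h4 : |σ * crd s e' v| < k := by
    rcases hσ with rfl | rfl
    · rwa [one_mul]
    · rwa [neg_one_mul, abs_neg]
  rw [abs_lt] at h4
  have h5 : (0 : ℤ) < k := by linarith [abs_nonneg (crd s e' v)]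
  constructor
  · intro _
    by_contra hcon
    push Not at hcon
    nlinarith
  · intro h6
    by_contra hcon
    push Not at hcon
    nlinarith

theorem InHalf.crdY_pos {s : Finset (V → ℝ)} {f : V → ℤ} (D : FacetData H i j s f)
    {FS : Finset (Finset (V → ℝ))} (hs : s ∈ FS) {e' w : V → ℤ} {B k : ℕ}
    (hg : Generic H i j FS e' w B k) {σ : ℤ} (hσ : σ = 1 ∨ σ = -1) {x : V → ℤ}
    (hx : ∑ a, x a = 0) (h : InHalf s e' σ x) :
    ∀ v ∈ s, 0 < crd s ((k : ℤ) • x + σ • e') v := by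
  intro v hv
  rw [D.crd_add hx hg.sum_e' _ _ v hv]
  have h3 := hg.lt s hs v hv
  have h4 : |σ * crd s e' v| < k := by
    rcases hσ with rfl | rfl
    · rwa [one_mul]
    · rwa [neg_one_mul, abs_neg]
  rw [abs_lt] at h4
  have h5 : (0 : ℤ) < k := by linarith [abs_nonneg (crd s e' v)]
  have h6 : σ * crd s e' v ≠ 0 := by
    have := hg.ne s hs v hv
    rcases hσ with rfl | rfl
    · rwa [one_mul]
    · rwa [neg_one_mul, neg_ne_zero]
  rcases lt_or_gt_of_ne h6 with h7 | h7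
  · have := (h v hv).2 h7
    nlinarith
  · have := (h v hv).1 h7
    nlinarith

theorem InHalf.crd_nonneg {s : Finset (V → ℝ)}
    {FS : Finset (Finset (V → ℝ))} (hs : s ∈ FS) {e' w : V → ℤ} {B k : ℕ}
    (hg : Generic H i j FS e' w B k) {σ : ℤ} (hσ : σ = 1 ∨ σ = -1) {x : V → ℤ}
    (h : InHalf s e' σ x) :
    ∀ v ∈ s, 0 ≤ crd s x v := by
  intro v hv
  have h6 : σ * crd s e' v ≠ 0 := by
    have := hg.ne s hs v hv
    rcases hσ with rfl | rfl
    · rwa [one_mul]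
    · rwa [neg_one_mul, neg_ne_zero]
  rcases lt_or_gt_of_ne h6 with h7 | h7
  · have := (h v hv).2 h7
    linarith
  · exact (h v hv).1 h7

theorem InHalf.slope_eq (hc : H.Connected) {s : Finset (V → ℝ)} {f : V → ℤ}
    (D : FacetData H i j s f)
    {FS : Finset (Finset (V → ℝ))} (hs : s ∈ FS) {e' w : V → ℤ} {B k : ℕ}
    (hg : Generic H i j FS e' w B k) {σ : ℤ} (hσ : σ = 1 ∨ σ = -1) {x : V → ℤ}
    (hx : ∑ a, x a = 0) (h : InHalf s e' σ x) :
    f i - f j = slope H (ez i j) σ x := by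
  have hpos := h.crdY_pos D hs hg hσ hx
  have hY : ∑ a, ((k : ℤ) • x + σ • e') a = 0 := sum_Y hx hg.sum_e' _ _
  exact (sandwich hc hg hσ hx D.lip (by
    rw [D.dot_eq hY, D.N_eq hc hY (fun v hv => (hpos v hv).le)])).2

/-- uniqueness of the face whose open cone contains a point -/
theorem face_unique (hc : H.Connected) {K : Geometry.SimplicialComplex ℝ (V → ℝ)}
    {s s' : Finset (V → ℝ)} {f f' : V → ℤ} (D : FacetData H i j s f) (D' : FacetData H i j s' f')
    {F F' : Finset (V → ℝ)} (hF : F ∈ K.faces) (hF' : F' ∈ K.faces) (hFs : F ⊆ s) (hFs' : F' ⊆ s')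
    {Y : V → ℤ} (hY : ∑ a, Y a = 0) {c c' : (V → ℝ) → ℤ} (hc0 : ∀ v ∈ F, 0 < c v)
    (hc0' : ∀ v ∈ F', 0 < c' v)
    (hcY : toR Y = ∑ v ∈ F, (c v : ℝ) • v) (hcY' : toR Y = ∑ v ∈ F', (c' v : ℝ) • v) : F = F' := by
  classical
  have key : ∀ {s : Finset (V → ℝ)} {f : V → ℤ} (_ : FacetData H i j s f) {F : Finset (V → ℝ)}
      (_ : F ⊆ s) {c : (V → ℝ) → ℤ} (_ : ∀ v ∈ F, 0 < c v)
      (_ : toR Y = ∑ v ∈ F, (c v : ℝ) • v), (N H Y : ℤ) = ∑ v ∈ F, c v := by
    intro s f D F hFs c hc0 hcY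
    have h1 := D.crd_unique hY (w := fun v => if v ∈ F then (c v : ℝ) else 0) (by
      rw [hcY]
      simp only [ite_smul, zero_smul]
      rw [← Finset.sum_filter, Finset.filter_mem_eq_inter, Finset.inter_eq_right.2 hFs])
    have h2 : ∀ v ∈ s, crd s Y v = if v ∈ F then c v else 0 := by
      intro v hv
      have := h1 v hv
      split_ifs at this ⊢ with h
      · exact_mod_cast this.symm
      · exact_mod_cast this.symm
    rw [D.N_eq hc hY, Finset.sum_congr rfl h2, ← Finset.sum_filter, Finset.filter_mem_eq_inter,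
      Finset.inter_eq_right.2 hFs]
    intro v hv
    rw [h2 v hv]
    split_ifs with h
    · exact (hc0 v h).le
    · exact le_refl _
  have hN1 := key D hFs hc0 hcY
  have hN2 := key D' hFs' hc0' hcY'
  obtain ⟨v1, hv1⟩ := K.nonempty_of_mem_faces hF
  have hNpos : (0 : ℤ) < N H Y := by
    rw [hN1]
    exact Finset.sum_pos (fun v hv => hc0 v hv) ⟨v1, hv1⟩
  have hNR : (0 : ℝ) < (N H Y : ℝ) := by exact_mod_cast hNpos
  set y : V → ℝ := (1 / (N H Y : ℝ)) • toR Y with hy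
  have hmem : ∀ {F : Finset (V → ℝ)} {c : (V → ℝ) → ℤ} (_ : ∀ v ∈ F, 0 < c v)
      (_ : toR Y = ∑ v ∈ F, (c v : ℝ) • v) (_ : (N H Y : ℤ) = ∑ v ∈ F, c v),
      y ∈ convexHull ℝ (F : Set (V → ℝ)) := by
    intro F c hc0 hcY hN
    rw [Finset.mem_convexHull']
    refine ⟨fun v => (c v : ℝ) / N H Y, ?_, ?_, ?_⟩
    · intro v hv
      apply div_nonneg _ hNR.le
      exact_mod_cast (hc0 v hv).le
    · rw [← Finset.sum_div]
      have : (N H Y : ℝ) = ∑ v ∈ F, (c v : ℝ) := by exact_mod_cast hN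
      rw [← this]; field_simp
    · rw [hy, hcY, Finset.smul_sum]
      apply Finset.sum_congr rfl
      intro v _
      rw [smul_smul]; congr 1; ring
  have hy1 := hmem hc0 hcY hN1
  have hy2 := hmem hc0' hcY' hN2
  have hyI := K.inter_subset_convexHull hF hF' ⟨hy1, hy2⟩
  rw [← Finset.coe_inter, Finset.mem_convexHull'] at hyI
  obtain ⟨μ, hμ0, hμ1, hμy⟩ := hyI
  have hsub : ∀ {s : Finset (V → ℝ)} {f : V → ℤ} (_ : FacetData H i j s f) {F : Finset (V → ℝ)}
      (_ : F ⊆ s) {c : (V → ℝ) → ℤ} (_ : ∀ v ∈ F, 0 < c v)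
      (_ : toR Y = ∑ v ∈ F, (c v : ℝ) • v) (_ : ∀ v, v ∈ F → v ∈ s) (T : Finset (V → ℝ))
      (_ : T ⊆ F) (_ : ∑ v ∈ T, μ v • v = y), F ⊆ T := by
    intro s f D F hFs c hc0 hcY _ T hTF hT v hv
    by_contra hvT
    have h1 := D.crd_unique hY (w := fun v => if v ∈ F then (c v : ℝ) else 0) (by
      rw [hcY]
      simp only [ite_smul, zero_smul]
      rw [← Finset.sum_filter, Finset.filter_mem_eq_inter, Finset.inter_eq_right.2 hFs]) v (hFs hv)
    have h2 := D.crd_unique hY (w := fun v => if v ∈ T then (N H Y : ℝ) * μ v else 0) (by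
      simp only [ite_smul, zero_smul]
      rw [← Finset.sum_filter, Finset.filter_mem_eq_inter,
        Finset.inter_eq_right.2 (hTF.trans hFs)]
      have : toR Y = (N H Y : ℝ) • y := by
        rw [hy, smul_smul]
        have : (N H Y : ℝ) * (1 / N H Y) = 1 := by field_simp
        rw [this, one_smul]
      rw [this, ← hT, Finset.smul_sum]
      apply Finset.sum_congr rfl
      intro v _
      rw [smul_smul]) v (hFs hv)
    simp only [if_pos hv] at h1
    simp only [if_neg hvT] at h2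
    rw [← h2] at h1
    have h3 := hc0 v hv
    have h4 : c v = 0 := by exact_mod_cast h1
    omega
  have e1 := hsub D hFs hc0 hcY (fun v hv => hFs hv) (F ∩ F') Finset.inter_subset_left hμy
  have e2 := hsub D' hFs' hc0' hcY' (fun v hv => hFs' hv) (F ∩ F') Finset.inter_subset_right hμy
  exact Finset.Subset.antisymm (e1.trans Finset.inter_subset_right)
    (e2.trans Finset.inter_subset_left)

theorem InHalf.unique (hc : H.Connected) {K : Geometry.SimplicialComplex ℝ (V → ℝ)}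
    {FS : Finset (Finset (V → ℝ))} (hFS : ∀ s, s ∈ FS ↔ s ∈ K.facets)
    {f : Finset (V → ℝ) → V → ℤ} (D : ∀ s ∈ FS, FacetData H i j s (f s))
    {e' w : V → ℤ} {B k : ℕ} (hg : Generic H i j FS e' w B k) {σ : ℤ} (hσ : σ = 1 ∨ σ = -1)
    {x : V → ℤ} (hx : ∑ a, x a = 0) {s s' : Finset (V → ℝ)} (hs : s ∈ FS) (hs' : s' ∈ FS)
    (h : InHalf s e' σ x) (h' : InHalf s' e' σ x) : s = s' := by
  have hY : ∑ a, ((k : ℤ) • x + σ • e') a = 0 := sum_Y hx hg.sum_e' _ _
  exact face_unique hc (D s hs) (D s' hs') ((hFS s).1 hs).1 ((hFS s').1 hs').1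
    (Finset.Subset.refl _) (Finset.Subset.refl _) hY
    (h.crdY_pos (D s hs) hs hg hσ hx) (h'.crdY_pos (D s' hs') hs' hg hσ hx)
    ((D s hs).crd_spec hY) ((D s' hs').crd_spec hY)

end Pool.Agent.H59.SEP
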