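import Pool.Agent.H59.SEP.Final

set_option autoImplicit false
set_option linter.unusedSectionVars false

open scoped Pointwise Polynomial

namespace Pool.Agent.H59.SEP

variable {V : Type*} [Fintype V] [DecidableEq V]

variable {H G : SimpleGraph V} {i j : V}

theorem coefU {L : ℕ → Finset (V → ℤ)}
    (hL : ∀ l x, x ∈ L l ↔ ∑ v, x v = 0 ∧ N H x = l) {U : Finset (V → ℤ)} {n : ℕ}
    (hU : ∀ x, x ∈ U ↔ ∑ v, x v = 0 ∧ N H x ≤ n) (p : (V → ℤ) → Prop) [DecidablePred p] (l : ℕ) :
    PowerSeries.coeff n (gf L p * PowerSeries.X ^ (l + 1)) =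
      ∑ y ∈ U, if (p y ∧ N H y + (l + 1) = n) then (1 : ℤ) else 0 := by
  rw [PowerSeries.coeff_mul_X_pow']
  split_ifs with h
  · rw [coeff_gf, Finset.sum_boole]
    congr 2
    ext x
    rw [Finset.mem_filter, Finset.mem_filter, hL, hU]
    constructor
    · rintro ⟨⟨h1, h2⟩, h3⟩; exact ⟨⟨h1, by omega⟩, h3, by omega⟩
    · rintro ⟨⟨h1, h2⟩, h3, h4⟩; exact ⟨⟨h1, by omega⟩, h3⟩
  · symm
    apply Finset.sum_eq_zero
    intro y _
    rw [if_neg]
    rintro ⟨_, h4⟩
    omega

theorem bnum_series (hc : H.Connected) (hij : i ≠ j) (hne : ∃ a b, H.Adj a b)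
    {L : ℕ → Finset (V → ℤ)}
    (hL : ∀ l x, x ∈ L l ↔ ∑ v, x v = 0 ∧ N H x = l)
    {K : Geometry.SimplicialComplex ℝ (V → ℝ)} {n : ℕ}
    (hK : IsUnimodularTriangulation K (⋃₀ {F | IsVisibleFacet (polytope H) (ev i j) F}) n)
    {FS : Finset (Finset (V → ℝ))} (hFS : ∀ s, s ∈ FS ↔ s ∈ K.facets)
    {f : Finset (V → ℝ) → V → ℤ} (D : ∀ s ∈ FS, FacetData H i j s (f s))
    {e' w : V → ℤ} {B k : ℕ} (hg : Generic H i j FS e' w B k) :
    PowerSeries.mk (fun n => (bnum H (ez i j) n : ℤ)) =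
      ∑ m ∈ FS.image (height (ez i j)),
        gf L (fun x => slope H (ez i j) 1 x = 1 + m) *
          ∑ l ∈ Finset.range m, PowerSeries.X ^ (l + 1) := by
  classical
  ext n
  obtain ⟨U, hU⟩ : ∃ U : Finset (V → ℤ), ∀ x, x ∈ U ↔ ∑ v, x v = 0 ∧ N H x ≤ n := by
    refine ⟨(XS_finite hc n).toFinset, fun x => ?_⟩
    rw [Set.Finite.mem_toFinset]; rfl
  rw [PowerSeries.coeff_mk, map_sum]
  have hrhs : ∀ m ∈ FS.image (height (ez i j)),
      PowerSeries.coeff n (gf L (fun x => slope H (ez i j) 1 x = 1 + m) *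
          ∑ l ∈ Finset.range m, PowerSeries.X ^ (l + 1)) =
      ∑ y ∈ U, ∑ l ∈ Finset.range m,
        if (slope H (ez i j) 1 y = 1 + m ∧ N H y + (l + 1) = n) then (1 : ℤ) else 0 := by
    intro m _
    rw [Finset.mul_sum, map_sum, Finset.sum_comm]
    apply Finset.sum_congr rfl
    intro l _
    exact coefU hL hU _ l
  rw [Finset.sum_congr rfl hrhs, Finset.sum_comm]
  have hlhs : (bnum H (ez i j) n : ℤ) =
      ∑ y ∈ U, if (N H y < n ∧ n < N H (y + ez i j)) then (1 : ℤ) else 0 := by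
    rw [Finset.sum_boole, bnum, ← Set.ncard_coe_finset]
    congr 2
    ext y
    rw [Finset.mem_coe, Finset.mem_filter, hU]
    constructor
    · rintro ⟨h1, h2, h3⟩; exact ⟨⟨h1, h2.le⟩, h2, h3⟩
    · rintro ⟨⟨h1, _⟩, h2, h3⟩; exact ⟨h1, h2, h3⟩
  rw [hlhs]
  apply Finset.sum_congr rfl
  intro y hy
  have hy0 := ((hU y).1 hy).1
  have hsl := slope_one (H := H) (x := y) (e := ez i j)
  by_cases hcond : N H y < n ∧ n < N H (y + ez i j)
  · rw [if_pos hcond]
    obtain ⟨h1, h2⟩ := hcond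
    obtain ⟨s, hs, _, hfs⟩ := cover hc hij hne hK hFS D hg (Or.inl rfl) hy0 (by rw [hsl]; omega)
    have hh := (D s hs).height_eq
    rw [hfs, hsl] at hh
    rw [Finset.sum_eq_single (height (ez i j) s)]
    · rw [Finset.sum_eq_single (n - N H y - 1)]
      · rw [if_pos]
        refine ⟨?_, by omega⟩
        rw [hsl, hh]; ring
      · intro l _ hl
        rw [if_neg]
        rintro ⟨_, h4⟩
        omega
      · intro hn
        exfalso
        apply hn
        rw [Finset.mem_range]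
        omega
    · intro m _ hm
      apply Finset.sum_eq_zero
      intro l _
      rw [if_neg]
      rintro ⟨h4, _⟩
      apply hm
      rw [hsl] at h4
      omega
    · intro hn
      exact absurd (Finset.mem_image_of_mem _ hs) hn
  · rw [if_neg hcond]
    symm
    apply Finset.sum_eq_zero
    intro m _
    apply Finset.sum_eq_zero
    intro l hl
    rw [if_neg]
    rintro ⟨h3, h4⟩
    rw [Finset.mem_range] at hl
    rw [hsl] at h3
    apply hcond
    omega

theorem cnum_series (hc : H.Connected) :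
    PowerSeries.mk (fun n => (cnum H (ez i j) n : ℤ)) * (1 - PowerSeries.X) =
      PowerSeries.mk (fun n => (bnum H (ez i j) n : ℤ)) := by
  ext n
  rw [mul_sub, mul_one, map_sub]
  rcases n with _ | n
  · rw [PowerSeries.coeff_zero_mul_X]
    simp only [PowerSeries.coeff_mk, cnum_zero]
    have : bnum H (ez i j) 0 = 0 := by
      unfold bnum
      have : {y : V → ℤ | ∑ v, y v = 0 ∧ N H y < 0 ∧ 0 < N H (y + ez i j)} = ∅ := by
        ext y; simp
      rw [this]; simp
    rw [this]; simp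
  · rw [PowerSeries.coeff_succ_mul_X]
    simp only [PowerSeries.coeff_mk]
    rw [cnum_succ hc (sum_ez i j)]
    push_cast; ring

/-- the main identity -/
theorem hStar_identity (hc : H.Connected) (hij : i ≠ j) (hnij : ¬ H.Adj i j)
    (hGH : ∀ a b, G.Adj a b ↔ H.Adj a b ∨ (a = i ∧ b = j) ∨ (a = j ∧ b = i))
    (hcG : G.Connected) (hne : ∃ a b, H.Adj a b)
    {L : ℕ → Finset (V → ℤ)}
    (hL : ∀ l x, x ∈ L l ↔ ∑ v, x v = 0 ∧ N H x = l)
    {K : Geometry.SimplicialComplex ℝ (V → ℝ)} {d : ℕ}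
    (hK : IsUnimodularTriangulation K (⋃₀ {F | IsVisibleFacet (polytope H) (ev i j) F}) d)
    {FS : Finset (Finset (V → ℝ))} (hFS : ∀ s, s ∈ FS ↔ s ∈ K.facets)
    {f : Finset (V → ℝ) → V → ℤ} (D : ∀ s ∈ FS, FacetData H i j s (f s))
    {e' w : V → ℤ} {B k : ℕ} (hg : Generic H i j FS e' w B k) :
    hStar (polytope G) d - hStar (polytope H) d =
      ψ (2 * Polynomial.X * ∑ m ∈ FS.image (height (ez i j)),
        Dp K (ez i j) d m * ∑ l ∈ Finset.range m, Polynomial.X ^ l) := by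
  classical
  have hneG : ∃ a b, G.Adj a b := by
    obtain ⟨a, b, hab⟩ := hne
    exact ⟨a, b, (hGH a b).2 (Or.inl hab)⟩
  have h1 : hStar (polytope G) d - hStar (polytope H) d =
      2 * (1 - PowerSeries.X) ^ (d + 1) * PowerSeries.mk (fun n => (cnum H (ez i j) n : ℤ)) := by
    unfold hStar
    rw [← mul_sub]
    have : PowerSeries.mk (fun m => if m = 0 then 1 else (latticeCount (polytope G) m : ℤ)) -
        PowerSeries.mk (fun m => if m = 0 then 1 else (latticeCount (polytope H) m : ℤ)) =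
        2 * PowerSeries.mk (fun n => (cnum H (ez i j) n : ℤ)) := by
      ext m
      rw [two_mul, map_sub, map_add]
      simp only [PowerSeries.coeff_mk]
      rcases Nat.eq_zero_or_pos m with h | h
      · rw [h, cnum_zero]; simp
      · rw [if_neg (by omega), if_neg (by omega), latticeCount_eq hcG hneG h,
          latticeCount_eq hc hne h, ncard_XSG hij hnij hGH hc hcG m]
        push_cast; ring
    rw [this]; ring
  rw [h1, pow_succ]
  have h2 : 2 * ((1 - PowerSeries.X) ^ d * (1 - PowerSeries.X)) *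
      PowerSeries.mk (fun n => (cnum H (ez i j) n : ℤ)) =
      2 * (1 - PowerSeries.X) ^ d * (PowerSeries.mk (fun n => (cnum H (ez i j) n : ℤ)) *
        (1 - PowerSeries.X)) := by ring
  rw [h2, cnum_series hc, bnum_series hc hij hne hL hK hFS D hg, map_mul, map_mul, ψ_X, map_sum,
    Finset.mul_sum, Finset.mul_sum]
  apply Finset.sum_congr rfl
  intro m hm
  have hm1 : 1 ≤ m := by
    obtain ⟨s, hs, rfl⟩ := Finset.mem_image.1 hm
    have := (D s hs).height_eq
    have := (D s hs).slope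
    omega
  rw [map_mul, Dp_gf hc hij hne hL hK hFS D hg hm1, map_sum]
  have h3 : ∑ l ∈ Finset.range m, (PowerSeries.X : PowerSeries ℤ) ^ (l + 1) =
      PowerSeries.X * ∑ l ∈ Finset.range m, ψ (Polynomial.X ^ l) := by
    rw [Finset.mul_sum]
    apply Finset.sum_congr rfl
    intro l _
    rw [map_pow, ψ_X]; ring
  rw [h3]
  have h4 : ψ 2 = 2 := map_ofNat ψ 2
  rw [h4]; ring

/-- non-negative coefficients and palindromicity -/
theorem q_props (hc : H.Connected) (hij : i ≠ j) (hne : ∃ a b, H.Adj a b)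
    {L : ℕ → Finset (V → ℤ)}
    (hL : ∀ l x, x ∈ L l ↔ ∑ v, x v = 0 ∧ N H x = l)
    {K : Geometry.SimplicialComplex ℝ (V → ℝ)} {d : ℕ}
    (hK : IsUnimodularTriangulation K (⋃₀ {F | IsVisibleFacet (polytope H) (ev i j) F}) d)
    {FS : Finset (Finset (V → ℝ))} (hFS : ∀ s, s ∈ FS ↔ s ∈ K.facets)
    {f : Finset (V → ℝ) → V → ℤ} (D : ∀ s ∈ FS, FacetData H i j s (f s))
    {e' w : V → ℤ} {B k : ℕ} (hg : Generic H i j FS e' w B k) {m : ℕ} (hm : 1 ≤ m) :
    (∀ l, 0 ≤ (Dp K (ez i j) d m * ∑ l ∈ Finset.range m, Polynomial.X ^ l).coeff l) ∧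
    IsPalindromic d (2 * Polynomial.X * (Dp K (ez i j) d m *
      ∑ l ∈ Finset.range m, Polynomial.X ^ l)) := by
  obtain ⟨T, t, ht, hD1, hD2⟩ := Dp_sum hc hij hne hL hK hFS D hg hm
  constructor
  · intro l
    rw [hD1, Finset.sum_mul_sum, Polynomial.finsetSum_coeff]
    apply Finset.sum_nonneg
    intro s _
    rw [Polynomial.finsetSum_coeff]
    apply Finset.sum_nonneg
    intro r _
    rw [← pow_add, Polynomial.coeff_X_pow]
    split_ifs <;> simp
  · apply palin_aux
    · rw [hD1]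
      apply Polynomial.natDegree_sum_le_of_forall_le
      intro s hs
      rw [Polynomial.natDegree_X_pow]
      exact ht s hs
    · rw [hD2, hD1, reflect_sum_pow T t d ht]

end Pool.Agent.H59.SEP
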