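import Pool.Agent.H59.SEP.Round
import Pool.Agent.H59.SEP.Defs

set_option autoImplicit false
set_option linter.unusedSectionVars false

namespace Pool.Agent.H59.SEP

variable {V : Type*} [Fintype V] [DecidableEq V]

theorem ez_self (a : V) : ez a a = 0 := by simp [ez]

theorem ez_add (a b c : V) : ez a b + ez b c = ez a c := by simp [ez]

theorem ez_neg (a b : V) : - ez a b = ez b a := by simp [ez]

theorem sum_ez (a b : V) : ∑ v, ez a b v = 0 := by
  simp [ez, Finset.sum_sub_distrib, Finset.sum_pi_single']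

theorem dot_ez (f : V → ℤ) (a b : V) : ∑ v, f v * ez a b v = f a - f b := by
  simp [ez, mul_sub, Finset.sum_sub_distrib, Pi.single_apply]

/-- `z` is a nonnegative integral flow on the arcs of `H` with divergence `x` -/
def IsFlow (H : SimpleGraph V) (z : V × V → ℤ) (x : V → ℤ) : Prop :=
  (∀ p, 0 ≤ z p) ∧ (∀ p, ¬ H.Adj p.1 p.2 → z p = 0) ∧ ∀ v, bdZ z v = x v

/-- the word length of `x` with respect to the edge vectors of `H` -/
noncomputable def N (H : SimpleGraph V) (x : V → ℤ) : ℕ :=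
  sInf {n : ℕ | ∃ z, IsFlow H z x ∧ ∑ p, z p = (n : ℤ)}

theorem bdZ_add (z w : V × V → ℤ) (v : V) : bdZ (z + w) v = bdZ z v + bdZ w v := by
  simp only [bdZ, Pi.add_apply, Finset.sum_add_distrib]; ring

theorem bdZ_sub (z w : V × V → ℤ) (v : V) : bdZ (z - w) v = bdZ z v - bdZ w v := by
  simp only [bdZ, Pi.sub_apply, Finset.sum_sub_distrib]; ring

theorem bdZ_zero (v : V) : bdZ (0 : V × V → ℤ) v = 0 := by
  simp [bdZ]

theorem bdZ_swap (z : V × V → ℤ) (v : V) : bdZ (fun p => z (p.2, p.1)) v = - bdZ z v := by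
  simp [bdZ]

theorem bdZ_single (a b : V) (v : V) : bdZ (Pi.single (a, b) 1) v = ez a b v := by
  unfold bdZ ez
  have h1 : ∑ c, (Pi.single (a, b) 1 : V × V → ℤ) (v, c) = (Pi.single a 1 : V → ℤ) v := by
    by_cases h : v = a
    · subst h
      rw [Finset.sum_eq_single b]
      · simp
      · intro c _ hc
        rw [Pi.single_apply, if_neg]; simp [hc]
      · simp
    · rw [Finset.sum_eq_zero]
      · rw [Pi.single_apply, if_neg h]
      · intro c _
        rw [Pi.single_apply, if_neg]; simp [h]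
  have h2 : ∑ c, (Pi.single (a, b) 1 : V × V → ℤ) (c, v) = (Pi.single b 1 : V → ℤ) v := by
    by_cases h : v = b
    · subst h
      rw [Finset.sum_eq_single a]
      · simp
      · intro c _ hc
        rw [Pi.single_apply, if_neg]; simp [hc]
      · simp
    · rw [Finset.sum_eq_zero]
      · rw [Pi.single_apply, if_neg h]
      · intro c _
        rw [Pi.single_apply, if_neg]; simp [h]
  rw [h1, h2]; rfl

theorem sum_bdZ (z : V × V → ℤ) : ∑ v, bdZ z v = 0 := by
  simp only [bdZ, Finset.sum_sub_distrib]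
  rw [Finset.sum_comm]; ring

theorem dot_bdZ (f : V → ℤ) (z : V × V → ℤ) :
    ∑ v, f v * bdZ z v = ∑ p, z p * (f p.1 - f p.2) := by
  simp only [bdZ, mul_sub, Finset.sum_sub_distrib, Finset.mul_sum]
  rw [Fintype.sum_prod_type, Fintype.sum_prod_type]
  congr 1
  · apply Finset.sum_congr rfl; intro a _
    apply Finset.sum_congr rfl; intro b _; ring
  · rw [Finset.sum_comm]
    apply Finset.sum_congr rfl; intro a _
    apply Finset.sum_congr rfl; intro b _; ring

variable {H : SimpleGraph V}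

theorem IsFlow.add {z w : V × V → ℤ} {x y : V → ℤ} (h1 : IsFlow H z x) (h2 : IsFlow H w y) :
    IsFlow H (z + w) (x + y) := by
  refine ⟨fun p => add_nonneg (h1.1 p) (h2.1 p), fun p hp => ?_, fun v => ?_⟩
  · simp [h1.2.1 p hp, h2.2.1 p hp]
  · rw [bdZ_add, h1.2.2, h2.2.2]; rfl

theorem IsFlow.neg {z : V × V → ℤ} {x : V → ℤ} (h1 : IsFlow H z x) :
    IsFlow H (fun p => z (p.2, p.1)) (-x) := by
  refine ⟨fun p => h1.1 _, fun p hp => ?_, fun v => ?_⟩
  · exact h1.2.1 (p.2, p.1) (fun h => hp h.symm)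
  · rw [bdZ_swap, h1.2.2]; rfl

theorem isFlow_zero : IsFlow H 0 0 := ⟨fun p => le_refl _, fun p _ => rfl, fun v => bdZ_zero v⟩

theorem isFlow_single {a b : V} (h : H.Adj a b) : IsFlow H (Pi.single (a, b) 1) (ez a b) := by
  refine ⟨fun p => ?_, fun p hp => ?_, fun v => bdZ_single a b v⟩
  · rw [Pi.single_apply]; split_ifs <;> simp
  · rw [Pi.single_apply, if_neg]
    rintro rfl; exact hp h

theorem IsFlow.sum_eq {z : V × V → ℤ} {x : V → ℤ} (h1 : IsFlow H z x) : ∑ v, x v = 0 := by
  rw [← sum_bdZ z]; exact Finset.sum_congr rfl (fun v _ => (h1.2.2 v).symm)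

/-- existence of flows -/
theorem exists_flow (hc : H.Connected) (x : V → ℤ) (hx : ∑ v, x v = 0) : ∃ z, IsFlow H z x := by
  classical
  let S : AddSubgroup (V → ℤ) :=
    { carrier := {x | ∃ z, IsFlow H z x}
      add_mem' := by rintro x y ⟨z, hz⟩ ⟨w, hw⟩; exact ⟨_, hz.add hw⟩
      zero_mem' := ⟨0, isFlow_zero⟩
      neg_mem' := by rintro x ⟨z, hz⟩; exact ⟨_, hz.neg⟩ }
  have hS : ∀ x, x ∈ S ↔ ∃ z, IsFlow H z x := fun x => Iff.rfl
  have h1 : ∀ a b, ez a b ∈ S := by
    intro a b
    obtain ⟨w⟩ := hc.preconnected a b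
    induction w with
    | nil => rw [ez_self]; exact S.zero_mem
    | cons h w ih =>
      rw [← ez_add _ _ _]
      exact S.add_mem ⟨_, isFlow_single h⟩ ih
  haveI := hc.nonempty
  obtain ⟨r⟩ := this
  have hxx : x = ∑ v, x v • ez v r := by
    funext u
    rw [Finset.sum_apply]
    simp only [Pi.smul_apply, smul_eq_mul, ez, Pi.sub_apply, mul_sub, Finset.sum_sub_distrib,
      Pi.single_apply]
    rw [← Finset.sum_mul, hx]
    simp
  rw [← hS, hxx]
  exact S.sum_mem (fun v _ => S.zsmul_mem (h1 v r) _)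

theorem N_le {z : V × V → ℤ} {x : V → ℤ} (h : IsFlow H z x) : (N H x : ℤ) ≤ ∑ p, z p := by
  have h0 : 0 ≤ ∑ p, z p := Finset.sum_nonneg (fun p _ => h.1 p)
  obtain ⟨n, hn⟩ := Int.eq_ofNat_of_zero_le h0
  rw [hn]
  have : N H x ≤ n := Nat.sInf_le ⟨z, h, hn⟩
  exact_mod_cast this

theorem N_spec (hc : H.Connected) {x : V → ℤ} (hx : ∑ v, x v = 0) :
    ∃ z, IsFlow H z x ∧ ∑ p, z p = (N H x : ℤ) := by
  obtain ⟨z, hz⟩ := exists_flow hc x hx
  have h0 : 0 ≤ ∑ p, z p := Finset.sum_nonneg (fun p _ => hz.1 p)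
  obtain ⟨n, hn⟩ := Int.eq_ofNat_of_zero_le h0
  exact Nat.sInf_mem (s := {n : ℕ | ∃ z, IsFlow H z x ∧ ∑ p, z p = (n : ℤ)}) ⟨n, z, hz, hn⟩

theorem N_add (hc : H.Connected) {x y : V → ℤ} (hx : ∑ v, x v = 0) (hy : ∑ v, y v = 0) :
    (N H (x + y) : ℤ) ≤ N H x + N H y := by
  obtain ⟨z, hz, hz'⟩ := N_spec hc hx
  obtain ⟨w, hw, hw'⟩ := N_spec hc hy
  rw [← hz', ← hw', ← Finset.sum_add_distrib]
  exact N_le (hz.add hw)

theorem N_zero : N H (0 : V → ℤ) = 0 := by
  have := N_le (H := H) (isFlow_zero (V := V) (H := H))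
  simp at this
  exact this

theorem N_neg_le (hc : H.Connected) {x : V → ℤ} (hx : ∑ v, x v = 0) :
    (N H (-x) : ℤ) ≤ N H x := by
  obtain ⟨z, hz, hz'⟩ := N_spec hc hx
  rw [← hz']
  refine (N_le hz.neg).trans (le_of_eq ?_)
  exact Equiv.sum_comp (Equiv.prodComm V V) z

theorem N_neg (hc : H.Connected) {x : V → ℤ} (hx : ∑ v, x v = 0) :
    N H (-x) = N H x := by
  have h1 := N_neg_le hc hx
  have h2 := N_neg_le hc (x := -x) (by simp [hx])
  rw [neg_neg] at h2
  omega

theorem N_ez {a b : V} (h : H.Adj a b) : (N H (ez a b) : ℤ) ≤ 1 := by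
  refine (N_le (isFlow_single h)).trans ?_
  simp

/-- weak duality -/
theorem dot_le (hc : H.Connected) {f : V → ℤ} (hf : ∀ a b, H.Adj a b → f a - f b ≤ 1) {x : V → ℤ}
    (hx : ∑ v, x v = 0) : ∑ v, f v * x v ≤ N H x := by
  obtain ⟨z, hz, hz'⟩ := N_spec hc hx
  have : ∑ v, f v * x v = ∑ v, f v * bdZ z v :=
    Finset.sum_congr rfl (fun v _ => by rw [hz.2.2])
  rw [this, dot_bdZ, ← hz']
  apply Finset.sum_le_sum
  intro p _
  by_cases hp : H.Adj p.1 p.2
  · nlinarith [hz.1 p, hf _ _ hp]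
  · rw [hz.2.1 p hp]; simp

theorem N_split {z μ : V × V → ℤ} {y x : V → ℤ} (hz : IsFlow H z y) (h0 : ∀ p, 0 ≤ μ p)
    (h1 : ∀ p, μ p ≤ z p) (hb : ∀ v, bdZ μ v = x v) :
    (N H x : ℤ) + N H (y - x) ≤ ∑ p, z p := by
  have hμ : IsFlow H μ x := by
    refine ⟨h0, fun p hp => ?_, hb⟩
    have := hz.2.1 p hp
    have := h0 p; have := h1 p; omega
  have hν : IsFlow H (z - μ) (y - x) := by
    refine ⟨fun p => by simpa using h1 p, fun p hp => ?_, fun v => ?_⟩
    · simp [hz.2.1 p hp, hμ.2.1 p hp]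
    · rw [bdZ_sub, hb, hz.2.2]; rfl
  have e1 := N_le hμ
  have e2 := N_le hν
  simp only [Pi.sub_apply, Finset.sum_sub_distrib] at e2
  linarith

/-- Lemma A -/
theorem lemmaA (hc : H.Connected) {x : V → ℤ} (hx : ∑ v, x v = 0) (a b : V) :
    (N H (x + (x + ez a b)) : ℤ) = N H x + N H (x + ez a b) := by
  apply le_antisymm
  · exact N_add hc hx (by simp [Finset.sum_add_distrib, hx, sum_ez])
  · have hy : ∑ v, (x + (x + ez a b)) v = 0 := by
      simp [Finset.sum_add_distrib, hx, sum_ez]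
    obtain ⟨z, hz, hz'⟩ := N_spec hc hy
    set l : V × V → ℝ := (1/2 : ℝ) • ((fun p => (z p : ℝ)) + (fun p => ((Pi.single (b, a) 1 : V × V → ℤ) p : ℝ)))
      with hl
    have hlb : ∀ v, bdR l v = (x v : ℝ) := by
      intro v
      rw [hl, bdR_smul, bdR_add, bdR_cast, bdR_cast, bdZ_single, hz.2.2]
      have : ez a b v + ez b a v = 0 := by
        rw [← ez_neg a b]; simp
      have h2 : ((ez a b v : ℤ) : ℝ) + (ez b a v : ℤ) = 0 := by exact_mod_cast this
      simp only [Pi.add_apply]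
      push_cast
      linarith
    obtain ⟨μ, hμ0, hμ1, hμ2⟩ := exists_round (0 : V × V → ℤ) (z + Pi.single (b, a) 1) _ l le_rfl
      (by
        intro p
        have h1 : (0:ℝ) ≤ z p := by exact_mod_cast hz.1 p
        have h2 : (0:ℝ) ≤ ((Pi.single (b, a) 1 : V × V → ℤ) p : ℝ) := by
          rw [Pi.single_apply]; split_ifs <;> simp
        simp only [hl, Pi.smul_apply, Pi.add_apply, smul_eq_mul, Pi.zero_apply]
        push_cast; linarith)
      (by
        intro p
        have h1 : (0:ℝ) ≤ z p := by exact_mod_cast hz.1 p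
        have h2 : (0:ℝ) ≤ ((Pi.single (b, a) 1 : V × V → ℤ) p : ℝ) := by
          rw [Pi.single_apply]; split_ifs <;> simp
        simp only [hl, Pi.smul_apply, Pi.add_apply, smul_eq_mul]
        push_cast; linarith)
      (fun v => ⟨x v, hlb v⟩)
    have hμb : ∀ v, bdZ μ v = x v := by
      intro v; have := hμ2 v; rw [hlb] at this; exact_mod_cast this
    rw [← hz']
    by_cases hcase : μ (b, a) ≤ z (b, a)
    · have := N_split (μ := μ) (x := x) hz hμ0 (by
        intro p
        by_cases hp : p = (b, a)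
        · rw [hp]; exact hcase
        · have := hμ1 p
          simp [Pi.single_apply, hp] at this
          exact this) hμb
      rw [add_sub_cancel_left] at this
      exact this
    · have hcase' : μ (b, a) = z (b, a) + 1 := by
        have := hμ1 (b, a)
        simp at this
        omega
      have := N_split (μ := μ - Pi.single (b, a) 1) (x := x + ez a b) hz (by
        intro p
        by_cases hp : p = (b, a)
        · rw [hp]; simp [hcase', hz.1]
        · simp [Pi.single_apply, hp]; exact hμ0 p) (by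
        intro p
        by_cases hp : p = (b, a)
        · rw [hp]; simp [hcase']
        · have := hμ1 p
          simp [Pi.single_apply, hp] at this ⊢
          exact this) (by
        intro v
        rw [bdZ_sub, hμb, bdZ_single, ← ez_neg a b]; simp)
      have e : x + (x + ez a b) - (x + ez a b) = x := by abel
      rw [e] at this
      linarith

/-- the potential of `Y` normalised at `r` -/
noncomputable def pot (H : SimpleGraph V) (Y : V → ℤ) (r v : V) : ℤ := N H (Y + ez v r) - N H Y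

theorem sum_add_ez {Y : V → ℤ} (hY : ∑ v, Y v = 0) (a b : V) : ∑ v, (Y + ez a b) v = 0 := by
  simp [Finset.sum_add_distrib, hY, sum_ez]

theorem pot_lip (hc : H.Connected) {Y : V → ℤ} (hY : ∑ v, Y v = 0) (r : V) {a b : V}
    (h : H.Adj a b) : pot H Y r a - pot H Y r b ≤ 1 := by
  have e : Y + ez a r = (Y + ez b r) + ez a b := by rw [← ez_add a b r]; abel
  have h1 := N_add hc (sum_add_ez hY b r) (sum_ez a b) (H := H)
  have h2 := N_ez h
  rw [← e] at h1
  unfold pot
  linarith

theorem pot_dot (hc : H.Connected) {Y : V → ℤ} (hY : ∑ v, Y v = 0) (r : V) :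
    ∑ v, pot H Y r v * Y v = N H Y := by
  obtain ⟨z, hz, hz'⟩ := N_spec hc hY
  have : ∑ v, pot H Y r v * Y v = ∑ v, pot H Y r v * bdZ z v :=
    Finset.sum_congr rfl (fun v _ => by rw [hz.2.2])
  rw [this, dot_bdZ, ← hz']
  apply Finset.sum_congr rfl
  rintro ⟨a, b⟩ _
  by_cases hp : z (a, b) = 0
  · rw [hp]; simp
  have hadj : H.Adj a b := by
    by_contra h; exact hp (hz.2.1 (a, b) h)
  have hpos : 1 ≤ z (a, b) := by have := hz.1 (a, b); omega
  have h1 := N_split (μ := Pi.single (a, b) 1) (x := ez a b) hz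
    (by intro p; rw [Pi.single_apply]; split_ifs <;> simp)
    (by
      intro p
      by_cases hp : p = (a, b)
      · rw [hp]; simpa using hpos
      · simp [Pi.single_apply, hp]; exact hz.1 p) (fun v => bdZ_single a b v)
  rw [hz'] at h1
  have hne : a ≠ b := hadj.ne
  have h2 : 1 ≤ (N H (ez a b) : ℤ) := by
    by_contra hcon
    have h0 : N H (ez a b) = 0 := by omega
    obtain ⟨w, hw, hw'⟩ := N_spec hc (sum_ez a b)
    rw [h0] at hw'
    have hw0 : w = 0 := by
      funext p
      exact (Finset.sum_eq_zero_iff_of_nonneg (fun p _ => hw.1 p)).1 (by simpa using hw') p (Finset.mem_univ _)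
    have := hw.2.2 a
    rw [hw0, bdZ_zero] at this
    simp [ez, hne] at this
  have h3 := lemmaA hc hY b r
  have e : Y + (Y + ez b r) = (Y + ez a r) + (Y - ez a b) := by
    rw [← ez_add a b r]; abel
  have h4 := N_add hc (sum_add_ez hY a r) (y := Y - ez a b) (by
    simp [Finset.sum_sub_distrib, hY, sum_ez])
  rw [← e, h3] at h4
  have h5 := pot_lip hc hY r hadj
  have h6 : pot H Y r a - pot H Y r b = 1 := by
    unfold pot at h5 ⊢
    linarith
  show z (a, b) * (pot H Y r a - pot H Y r b) = z (a, b)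
  rw [h6, mul_one]

theorem pot_self (Y : V → ℤ) (r : V) : pot H Y r r = 0 := by
  simp [pot, ez_self]

theorem N_nsmul (hc : H.Connected) {Y : V → ℤ} (hY : ∑ v, Y v = 0) (k : ℕ) :
    (N H (k • Y) : ℤ) = k * N H Y := by
  have hk : ∀ k : ℕ, ∑ v, (k • Y) v = 0 := by
    intro k; simp [← Finset.mul_sum, hY]
  apply le_antisymm
  · induction k with
    | zero => simp [N_zero]
    | succ k ih =>
      rw [succ_nsmul]
      have := N_add hc (hk k) hY
      push_cast
      linarith
  · haveI := hc.nonempty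
    obtain ⟨r⟩ := this
    have := dot_le hc (f := pot H Y r) (fun a b h => pot_lip hc hY r h) (hk k)
    have e : ∑ v, pot H Y r v * (k • Y) v = k * N H Y := by
      rw [← pot_dot hc hY r, Finset.mul_sum]
      apply Finset.sum_congr rfl; intro v _
      simp; ring
    linarith

end Pool.Agent.H59.SEP
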