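import Pool.Agent.H59.SEP.Norm

set_option autoImplicit false
set_option linter.unusedSectionVars false

open scoped Pointwise Polynomial

namespace Pool.Agent.H59.SEP

variable {V : Type*} [Fintype V] [DecidableEq V]

theorem toR_ez (a b : V) : toR (ez a b) = ev a b := by
  funext v
  simp [toR, ez, ev, Pi.single_apply]

theorem toR_injective : Function.Injective (toR : (V → ℤ) → (V → ℝ)) := by
  intro x y h
  funext v
  have := congrFun h v
  simpa [toR] using this

theorem toR_add (x y : V → ℤ) : toR (x + y) = toR x + toR y := by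
  funext v; simp [toR]

theorem toR_sub (x y : V → ℤ) : toR (x - y) = toR x - toR y := by
  funext v; simp [toR]

theorem toR_neg (x : V → ℤ) : toR (-x) = - toR x := by
  funext v; simp [toR]

theorem toR_zero : toR (0 : V → ℤ) = 0 := by
  funext v; simp [toR]

theorem toR_smul (k : ℤ) (x : V → ℤ) : toR (k • x) = (k : ℝ) • toR x := by
  funext v; simp [toR]

theorem toR_nsmul (k : ℕ) (x : V → ℤ) : toR (k • x) = (k : ℝ) • toR x := by
  funext v; simp [toR]

theorem toR_sum {ι : Type*} (s : Finset ι) (f : ι → V → ℤ) :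
    toR (∑ i ∈ s, f i) = ∑ i ∈ s, toR (f i) := by
  funext v; simp [toR, Finset.sum_apply]

theorem dotR_ev (f : V → ℝ) (a b : V) : ∑ v, f v * ev a b v = f a - f b := by
  simp [ev, mul_sub, Finset.sum_sub_distrib, Pi.single_apply]

theorem dotR_toR (f x : V → ℤ) : ∑ v, (f v : ℝ) * toR x v = ((∑ v, f v * x v : ℤ) : ℝ) := by
  simp [toR]

theorem dotR_add (f x y : V → ℝ) : ∑ v, f v * (x + y) v = ∑ v, f v * x v + ∑ v, f v * y v := by
  simp [mul_add, Finset.sum_add_distrib]

theorem dotR_smul (f x : V → ℝ) (c : ℝ) : ∑ v, f v * (c • x) v = c * ∑ v, f v * x v := by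
  rw [Finset.mul_sum]; apply Finset.sum_congr rfl; intro v _; simp; ring

theorem dotR_sum {ι : Type*} (s : Finset ι) (f : V → ℝ) (g : ι → V → ℝ) :
    ∑ v, f v * (∑ i ∈ s, g i) v = ∑ i ∈ s, ∑ v, f v * g i v := by
  rw [Finset.sum_comm]
  apply Finset.sum_congr rfl; intro v _
  rw [Finset.sum_apply, Finset.mul_sum]

variable {H : SimpleGraph V}

theorem polytope_le (f : V → ℝ) (c : ℝ) (hf : ∀ a b, H.Adj a b → f a - f b ≤ c) {y : V → ℝ}
    (hy : y ∈ polytope H) : ∑ v, f v * y v ≤ c := by
  have hconv : Convex ℝ {y : V → ℝ | ∑ v, f v * y v ≤ c} := by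
    intro x hx y hy a b ha hb hab
    simp only [Set.mem_ofPred_eq] at hx hy ⊢
    rw [dotR_add, dotR_smul, dotR_smul]
    have := add_le_add (mul_le_mul_of_nonneg_left hx ha) (mul_le_mul_of_nonneg_left hy hb)
    have e : a * c + b * c = c := by rw [← add_mul, hab, one_mul]
    linarith
  have hsub : polytope H ⊆ {y : V → ℝ | ∑ v, f v * y v ≤ c} := by
    apply convexHull_min _ hconv
    rintro x ⟨a, b, hab, rfl⟩
    simp only [Set.mem_ofPred_eq]
    rw [dotR_ev]
    exact hf a b hab
  exact hsub hy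

theorem polytope_sum {y : V → ℝ} (hy : y ∈ polytope H) : ∑ v, y v = 0 := by
  have h1 := polytope_le (H := H) (fun _ => 1) 0 (by intro a b _; simp) hy
  have h2 := polytope_le (H := H) (fun _ => -1) 0 (by intro a b _; simp) hy
  simp at h1 h2
  linarith

theorem ev_mem {a b : V} (h : H.Adj a b) : ev a b ∈ polytope H :=
  subset_convexHull ℝ _ ⟨a, b, h, rfl⟩

theorem zero_mem {a b : V} (h : H.Adj a b) : (0 : V → ℝ) ∈ polytope H := by
  have h1 := ev_mem h
  have h2 := ev_mem h.symm
  have := (convex_convexHull ℝ {x : V → ℝ | ∃ a b, H.Adj a b ∧ x = ev a b}) h1 h2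
    (by norm_num : (0:ℝ) ≤ 1/2) (by norm_num : (0:ℝ) ≤ 1/2) (by norm_num)
  have e : (1 / 2 : ℝ) • ev a b + (1 / 2 : ℝ) • ev b a = 0 := by
    rw [← smul_add]
    have : ev a b + ev b a = 0 := by simp [ev]
    rw [this, smul_zero]
  rw [e] at this
  exact this

theorem toR_eq_sum {z : V × V → ℤ} {x : V → ℤ} (hz : ∀ v, bdZ z v = x v) :
    toR x = ∑ p, (z p : ℝ) • ev p.1 p.2 := by
  funext v
  rw [Finset.sum_apply]
  have h := dot_bdZ (Pi.single v 1) z
  have h1 : ∑ u, (Pi.single v 1 : V → ℤ) u * bdZ z u = x v := by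
    simp [Pi.single_apply, hz]
  rw [h1] at h
  unfold toR
  rw [h]
  push_cast
  apply Finset.sum_congr rfl
  intro p _
  simp only [ev, Pi.smul_apply, Pi.sub_apply, smul_eq_mul, Pi.single_apply, eq_comm]
  push_cast
  rfl

theorem mem_smul_polytope_iff (hc : H.Connected) (hne : ∃ a b, H.Adj a b) (x : V → ℤ) {m : ℕ}
    (hm : 1 ≤ m) : toR x ∈ (m : ℝ) • polytope H ↔ ∑ v, x v = 0 ∧ N H x ≤ m := by
  have hm0 : (0 : ℝ) < m := by exact_mod_cast hm
  constructor
  · rintro ⟨y, hy, hyx⟩
    simp only at hyx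
    have hx0 : ∑ v, x v = 0 := by
      have h1 : ∑ v, toR x v = 0 := by
        rw [← hyx]
        have := polytope_sum hy
        simp only [Pi.smul_apply, smul_eq_mul, ← Finset.mul_sum, this, mul_zero]
      have h2 : ∑ v, toR x v = ((∑ v, x v : ℤ) : ℝ) := by simp [toR]
      rw [h2] at h1
      exact_mod_cast h1
    refine ⟨hx0, ?_⟩
    obtain ⟨r⟩ := hc.nonempty
    have h1 := pot_dot hc hx0 r
    have h2 := polytope_le (H := H) (fun v => (pot H x r v : ℝ)) 1 (by
      intro a b hab
      exact_mod_cast pot_lip hc hx0 r hab) hy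
    have h3 := dotR_toR (pot H x r) x
    rw [h1, ← hyx, dotR_smul] at h3
    have h4 : (N H x : ℝ) ≤ m := by
      have : (m : ℝ) * ∑ v, (pot H x r v : ℝ) * y v ≤ m * 1 := mul_le_mul_of_nonneg_left h2 hm0.le
      push_cast at h3
      linarith
    exact_mod_cast h4
  · rintro ⟨hx0, hN⟩
    obtain ⟨z, hz, hz'⟩ := N_spec hc hx0
    obtain ⟨a, b, hab⟩ := hne
    have hconv : Convex ℝ (polytope H) := convex_convexHull ℝ _
    have h0 : (0 : V → ℝ) ∈ polytope H := zero_mem hab
    have hx := toR_eq_sum hz.2.2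
    classical
    rcases Nat.eq_zero_or_pos (N H x) with hN0 | hNpos
    · have hz0 : z = 0 := by
        funext p
        rw [hN0] at hz'
        exact (Finset.sum_eq_zero_iff_of_nonneg (fun p _ => hz.1 p)).1 (by simpa using hz') p (Finset.mem_univ _)
      refine ⟨0, h0, ?_⟩
      rw [hx, hz0]
      simp
    · have hNp : (0 : ℝ) < N H x := by exact_mod_cast hNpos
      set t := (Finset.univ : Finset (V × V)).filter (fun p => H.Adj p.1 p.2) with ht
      have hsub : ∀ (g : V × V → (V → ℝ)), ∑ p, (z p : ℝ) • g p = ∑ p ∈ t, (z p : ℝ) • g p := by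
        intro g
        rw [ht, Finset.sum_filter]
        apply Finset.sum_congr rfl
        intro p _
        split_ifs with h
        · rfl
        · rw [hz.2.1 p h]; simp
      have hsub' : ∑ p ∈ t, (z p : ℝ) = N H x := by
        have : ((∑ p, z p : ℤ) : ℝ) = (N H x : ℝ) := by rw [hz']; simp
        rw [← this, ht, Finset.sum_filter]
        push_cast
        apply Finset.sum_congr rfl
        intro p _
        split_ifs with h
        · rfl
        · rw [hz.2.1 p h]; simp
      have hy : ∑ p ∈ t, ((z p : ℝ) / N H x) • ev p.1 p.2 ∈ polytope H := by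
        apply hconv.sum_mem
        · intro p _
          apply div_nonneg _ hNp.le
          exact_mod_cast hz.1 p
        · rw [← Finset.sum_div, hsub']; field_simp
        · intro p hp
          rw [ht, Finset.mem_filter] at hp
          exact ev_mem hp.2
      have hy2 : ((N H x : ℝ) / m) • (∑ p ∈ t, ((z p : ℝ) / N H x) • ev p.1 p.2) ∈ polytope H := by
        apply hconv.smul_mem_of_zero_mem h0 hy
        constructor
        · positivity
        · rw [div_le_one hm0]; exact_mod_cast hN
      refine ⟨_, hy2, ?_⟩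
      simp only
      rw [hx, hsub, smul_smul, Finset.smul_sum]
      apply Finset.sum_congr rfl
      intro p _
      rw [smul_smul]
      congr 1
      field_simp

end Pool.Agent.H59.SEP
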