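import Mathlib

set_option autoImplicit false
set_option linter.unusedSectionVars false

namespace Pool.Agent.H59.SEP

variable {V : Type*} [Fintype V] [DecidableEq V]

/-- the divergence of a real flow on all ordered pairs; the pair `(a,b)` has divergence
`ε_a - ε_b` -/
def bdR (l : V × V → ℝ) (v : V) : ℝ := ∑ b, l (v, b) - ∑ a, l (a, v)

/-- the divergence of an integral flow -/
def bdZ (l : V × V → ℤ) (v : V) : ℤ := ∑ b, l (v, b) - ∑ a, l (a, v)

theorem bdR_add (l m : V × V → ℝ) (v : V) : bdR (l + m) v = bdR l v + bdR m v := by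
  simp only [bdR, Pi.add_apply, Finset.sum_add_distrib]; ring

theorem bdR_smul (c : ℝ) (l : V × V → ℝ) (v : V) : bdR (c • l) v = c * bdR l v := by
  simp only [bdR, Pi.smul_apply, smul_eq_mul, ← Finset.mul_sum]; ring

theorem sum_bdR (l : V × V → ℝ) : ∑ v, bdR l v = 0 := by
  simp only [bdR, Finset.sum_sub_distrib]
  rw [Finset.sum_comm]; ring

theorem bdR_cast (l : V × V → ℤ) (v : V) : bdR (fun p => (l p : ℝ)) v = (bdZ l v : ℝ) := by
  simp [bdR, bdZ]

/-- existence of a circulation on the fractional arcs -/
theorem exists_circulation (l : V × V → ℝ) (hl : ∀ v, ∃ z : ℤ, bdR l v = z)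
    (hf : ∃ p, ∀ z : ℤ, l p ≠ z) :
    ∃ m : V × V → ℝ, m ≠ 0 ∧ (∀ p, (∃ z : ℤ, l p = z) → m p = 0) ∧ ∀ v, bdR m v = 0 := by
  classical
  set F : Finset (V × V) := Finset.univ.filter (fun p => ∀ z : ℤ, l p ≠ z) with hF
  have hFmem : ∀ p, p ∈ F ↔ ∀ z : ℤ, l p ≠ z := by intro p; simp [hF]
  have hnF : ∀ p, p ∉ F → ∃ z : ℤ, l p = z := by
    intro p hp; rw [hFmem] at hp; push Not at hp; exact hp
  -- touched vertices
  set W : Finset V := F.image Prod.fst ∪ F.image Prod.snd with hW
  -- every touched vertex has at least two arcs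
  have hdeg : ∀ v ∈ W, 2 ≤ (F.filter (fun p => p.1 = v)).card + (F.filter (fun p => p.2 = v)).card := by
    intro v hv
    by_contra hcon
    push Not at hcon
    -- exactly one arc
    have hone : (F.filter (fun p => p.1 = v)).card + (F.filter (fun p => p.2 = v)).card = 1 := by
      have hpos : 0 < (F.filter (fun p => p.1 = v)).card + (F.filter (fun p => p.2 = v)).card := by
        rw [hW, Finset.mem_union, Finset.mem_image, Finset.mem_image] at hv
        rcases hv with ⟨p, hp, hpv⟩ | ⟨p, hp, hpv⟩
        · have : 0 < (F.filter (fun p => p.1 = v)).card :=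
            Finset.card_pos.2 ⟨p, Finset.mem_filter.2 ⟨hp, hpv⟩⟩
          omega
        · have : 0 < (F.filter (fun p => p.2 = v)).card :=
            Finset.card_pos.2 ⟨p, Finset.mem_filter.2 ⟨hp, hpv⟩⟩
          omega
      omega
    obtain ⟨z, hz⟩ := hl v
    have key : ∀ (S : Finset V) (g : V → ℝ), (∀ b ∈ S, ∃ z : ℤ, g b = z) → ∃ z : ℤ, ∑ b ∈ S, g b = z := by
      intro S g hg
      choose! c hc using hg
      exact ⟨∑ b ∈ S, c b, by push_cast; exact Finset.sum_congr rfl hc⟩
    rcases Nat.eq_zero_or_pos (F.filter (fun p => p.1 = v)).card with h0 | hpos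
    · -- the arc is an incoming arc
      have h1 : (F.filter (fun p => p.2 = v)).card = 1 := by omega
      obtain ⟨q, hq⟩ := Finset.card_eq_one.1 h1
      have hqm : q ∈ F.filter (fun p => p.2 = v) := by rw [hq]; simp
      rw [Finset.mem_filter] at hqm
      have hout : ∀ b ∈ (Finset.univ : Finset V), ∃ z : ℤ, l (v, b) = z := by
        intro b _
        apply hnF
        intro hb
        have : (v, b) ∈ F.filter (fun p => p.1 = v) := Finset.mem_filter.2 ⟨hb, rfl⟩
        rw [Finset.card_eq_zero.1 h0] at this
        simp at this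
      have hin : ∀ a ∈ (Finset.univ : Finset V).erase q.1, ∃ z : ℤ, l (a, v) = z := by
        intro a ha
        apply hnF
        intro hb
        have : (a, v) ∈ F.filter (fun p => p.2 = v) := Finset.mem_filter.2 ⟨hb, rfl⟩
        rw [hq, Finset.mem_singleton] at this
        rw [← this] at ha
        simp at ha
      obtain ⟨z1, hz1⟩ := key _ _ hout
      obtain ⟨z2, hz2⟩ := key _ _ hin
      have hq2 : q = (q.1, v) := by ext <;> simp [hqm.2]
      have hsum : ∑ a, l (a, v) = l (q.1, v) + ∑ a ∈ (Finset.univ : Finset V).erase q.1, l (a, v) :=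
        (Finset.add_sum_erase _ _ (Finset.mem_univ _)).symm
      rw [bdR, hz1, hsum, hz2] at hz
      have := (hFmem q).1 hqm.1 (z1 - z2 - z)
      apply this
      rw [hq2]; push_cast; linarith
    · have h1 : (F.filter (fun p => p.1 = v)).card = 1 := by omega
      have h0 : (F.filter (fun p => p.2 = v)).card = 0 := by omega
      obtain ⟨q, hq⟩ := Finset.card_eq_one.1 h1
      have hqm : q ∈ F.filter (fun p => p.1 = v) := by rw [hq]; simp
      rw [Finset.mem_filter] at hqm
      have hin : ∀ a ∈ (Finset.univ : Finset V), ∃ z : ℤ, l (a, v) = z := by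
        intro b _
        apply hnF
        intro hb
        have : (b, v) ∈ F.filter (fun p => p.2 = v) := Finset.mem_filter.2 ⟨hb, rfl⟩
        rw [Finset.card_eq_zero.1 h0] at this
        simp at this
      have hout : ∀ b ∈ (Finset.univ : Finset V).erase q.2, ∃ z : ℤ, l (v, b) = z := by
        intro b hb'
        apply hnF
        intro hb
        have : (v, b) ∈ F.filter (fun p => p.1 = v) := Finset.mem_filter.2 ⟨hb, rfl⟩
        rw [hq, Finset.mem_singleton] at this
        rw [← this] at hb'
        simp at hb'
      obtain ⟨z1, hz1⟩ := key _ _ hin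
      obtain ⟨z2, hz2⟩ := key _ _ hout
      have hq2 : q = (v, q.2) := by ext <;> simp [hqm.2]
      have hsum : ∑ b, l (v, b) = l (v, q.2) + ∑ b ∈ (Finset.univ : Finset V).erase q.2, l (v, b) :=
        (Finset.add_sum_erase _ _ (Finset.mem_univ _)).symm
      rw [bdR, hz1, hsum, hz2] at hz
      have := (hFmem q).1 hqm.1 (z + z1 - z2)
      apply this
      rw [hq2]; push_cast; linarith
  -- counting
  have hcard : W.card ≤ F.card := by
    have h1 : ∑ v ∈ W, ((F.filter (fun p => p.1 = v)).card + (F.filter (fun p => p.2 = v)).card)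
        = 2 * F.card := by
      rw [Finset.sum_add_distrib]
      have e1 : ∑ v ∈ W, (F.filter (fun p => p.1 = v)).card = F.card := by
        rw [Finset.card_eq_sum_card_fiberwise (f := Prod.fst) (t := W)]
        intro p hp
        rw [hW]
        simp only [Finset.coe_union, Finset.coe_image, Set.mem_union, Set.mem_image, Finset.mem_coe]
        exact Or.inl ⟨p, hp, rfl⟩
      have e2 : ∑ v ∈ W, (F.filter (fun p => p.2 = v)).card = F.card := by
        rw [Finset.card_eq_sum_card_fiberwise (f := Prod.snd) (t := W)]
        intro p hp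
        rw [hW]
        simp only [Finset.coe_union, Finset.coe_image, Set.mem_union, Set.mem_image, Finset.mem_coe]
        exact Or.inr ⟨p, hp, rfl⟩
      rw [e1, e2]; ring
    have h2 : ∑ v ∈ W, 2 ≤ 2 * F.card := by
      rw [← h1]; exact Finset.sum_le_sum hdeg
    simp at h2
    omega
  -- linear algebra
  obtain ⟨p0, hp0⟩ := hf
  have hp0F : p0 ∈ F := (hFmem p0).2 hp0
  set w0 : V := p0.1 with hw0
  have hw0W : w0 ∈ W := by
    rw [hW, Finset.mem_union, Finset.mem_image]; exact Or.inl ⟨p0, hp0F, rfl⟩
  -- extension by zero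
  let ext : (F → ℝ) →ₗ[ℝ] (V × V → ℝ) :=
    { toFun := fun x p => if h : p ∈ F then x ⟨p, h⟩ else 0
      map_add' := by
        intro x y; ext p; by_cases h : p ∈ F <;> simp [h]
      map_smul' := by
        intro c x; ext p; by_cases h : p ∈ F <;> simp [h] }
  let φ : (F → ℝ) →ₗ[ℝ] ({v // v ∈ W.erase w0} → ℝ) :=
    { toFun := fun x v => bdR (ext x) v.1
      map_add' := by
        intro x y; ext v; simp only [map_add, Pi.add_apply]; exact bdR_add _ _ _
      map_smul' := by
        intro c x; ext v; simp only [map_smul, RingHom.id_apply, Pi.smul_apply, smul_eq_mul]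
        exact bdR_smul _ _ _ }
  have hker : LinearMap.ker φ ≠ ⊥ := by
    apply LinearMap.ker_ne_bot_of_finrank_lt
    simp only [Module.finrank_fintype_fun_eq_card, Fintype.card_coe]
    rw [Finset.card_erase_of_mem hw0W]
    have : 0 < W.card := Finset.card_pos.2 ⟨w0, hw0W⟩
    omega
  obtain ⟨x, hx, hx0⟩ := (Submodule.ne_bot_iff _).1 hker
  refine ⟨ext x, ?_, ?_, ?_⟩
  · intro h
    apply hx0
    ext ⟨p, hp⟩
    have := congrFun h p
    simpa [ext, hp] using this
  · intro p hp
    have : p ∉ F := by
      intro h; obtain ⟨z, hz⟩ := hp; exact (hFmem p).1 h z hz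
    simp [ext, this]
  · have hzero : ∀ v, v ≠ w0 → bdR (ext x) v = 0 := by
      intro v hv
      by_cases hvW : v ∈ W
      · have := congrFun (LinearMap.mem_ker.1 hx) ⟨v, Finset.mem_erase.2 ⟨hv, hvW⟩⟩
        exact this
      · have h1 : ∀ b, (v, b) ∉ F := by
          intro b hb
          apply hvW
          rw [hW, Finset.mem_union, Finset.mem_image]; exact Or.inl ⟨_, hb, rfl⟩
        have h2 : ∀ a, (a, v) ∉ F := by
          intro b hb
          apply hvW
          rw [hW, Finset.mem_union, Finset.mem_image, Finset.mem_image]; exact Or.inr ⟨_, hb, rfl⟩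
        simp [bdR, ext, h1, h2]
    intro v
    by_cases hv : v = w0
    · have hs := sum_bdR (ext x)
      rw [← Finset.add_sum_erase _ _ (Finset.mem_univ w0)] at hs
      rw [Finset.sum_eq_zero (fun v hv' => hzero v (Finset.ne_of_mem_erase hv')), add_zero] at hs
      rw [hv]; exact hs
    · exact hzero v hv

open Classical in
/-- rounding a real flow with integral divergence to an integral one -/
theorem exists_round (lo hi : V × V → ℤ) (n : ℕ) : ∀ (l : V × V → ℝ),
    (Finset.univ.filter (fun p => ∀ z : ℤ, l p ≠ z)).card ≤ n →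
    (∀ p, (lo p : ℝ) ≤ l p) → (∀ p, l p ≤ (hi p : ℝ)) →
    (∀ v, ∃ z : ℤ, bdR l v = z) →
    ∃ m : V × V → ℤ, (∀ p, lo p ≤ m p) ∧ (∀ p, m p ≤ hi p) ∧ ∀ v, (bdZ m v : ℝ) = bdR l v := by
  induction n with
  | zero =>
    intro l hn h1 h2 hl
    have hn' : ∀ p, ∃ z : ℤ, l p = z := by
      intro p
      by_contra hp
      push Not at hp
      have : p ∈ (Finset.univ.filter (fun p => ∀ z : ℤ, l p ≠ z)) := by simp [hp]
      rw [Finset.card_eq_zero.1 (Nat.le_zero.1 hn)] at this
      simp at this
    choose m hm using hn'
    refine ⟨m, ?_, ?_, ?_⟩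
    · intro p; have := h1 p; rw [hm p] at this; exact_mod_cast this
    · intro p; have := h2 p; rw [hm p] at this; exact_mod_cast this
    · intro v
      rw [← bdR_cast]
      congr 1
      funext p; exact (hm p).symm
  | succ n ih =>
    intro l hn h1 h2 hl
    by_cases hf : ∃ p, ∀ z : ℤ, l p ≠ z
    · obtain ⟨ν, hν0, hνi, hνb⟩ := exists_circulation l hl hf
      set F : Finset (V × V) := Finset.univ.filter (fun p => ν p ≠ 0) with hF
      have hFne : F.Nonempty := by
        by_contra hcon
        apply hν0
        funext p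
        by_contra hp
        apply hcon
        exact ⟨p, by simp [hF]; exact hp⟩
      let r : V × V → ℝ := fun p => if 0 < ν p then (⌈l p⌉ - l p) / ν p else (l p - ⌊l p⌋) / (- ν p)
      obtain ⟨q, hq, hqmin⟩ := Finset.exists_min_image F r hFne
      have hqν : ν q ≠ 0 := by simpa [hF] using hq
      set t := r q with ht
      have hr0 : ∀ p, ν p ≠ 0 → 0 ≤ r p := by
        intro p hp
        simp only [r]
        split_ifs with h
        · apply div_nonneg _ h.le
          linarith [Int.le_ceil (l p)]
        · have : ν p < 0 := lt_of_le_of_ne (not_lt.1 h) hp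
          apply div_nonneg _ (by linarith)
          linarith [Int.floor_le (l p)]
      have ht0 : 0 ≤ t := hr0 q hqν
      set l' : V × V → ℝ := l + t • ν with hl'
      have hb : ∀ p, (⌊l p⌋ : ℝ) ≤ l' p ∧ l' p ≤ (⌈l p⌉ : ℝ) := by
        intro p
        have ha := Int.floor_le (l p)
        have hc := Int.le_ceil (l p)
        have hval : l' p = l p + t * ν p := by simp [hl']
        by_cases hp : ν p = 0
        · rw [hval, hp]; constructor <;> linarith
        · have hmin : t ≤ r p := hqmin p (by simp [hF, hp])
          rcases lt_or_gt_of_ne hp with hneg | hpos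
          · have hr : r p = (l p - ⌊l p⌋) / (- ν p) := by simp only [r]; rw [if_neg (by linarith)]
            rw [hr, le_div_iff₀ (by linarith)] at hmin
            have : t * ν p ≤ 0 := mul_nonpos_of_nonneg_of_nonpos ht0 hneg.le
            rw [hval]; constructor <;> linarith
          · have hr : r p = (⌈l p⌉ - l p) / ν p := by simp only [r]; rw [if_pos hpos]
            rw [hr, le_div_iff₀ hpos] at hmin
            have : 0 ≤ t * ν p := mul_nonneg ht0 hpos.le
            rw [hval]; constructor <;> linarith
      have hb1 : ∀ v, bdR l' v = bdR l v := by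
        intro v
        rw [hl', bdR_add, bdR_smul, hνb v]; ring
      have hcard : (Finset.univ.filter (fun p => ∀ z : ℤ, l' p ≠ z)).card ≤ n := by
        have hlt : (Finset.univ.filter (fun p => ∀ z : ℤ, l' p ≠ z)).card <
            (Finset.univ.filter (fun p => ∀ z : ℤ, l p ≠ z)).card := by
          apply Finset.card_lt_card
          rw [Finset.ssubset_iff_of_subset]
          · refine ⟨q, ?_, ?_⟩
            · simp only [Finset.mem_filter, Finset.mem_univ, true_and]
              intro z hz
              exact hqν (hνi q ⟨z, hz⟩)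
            · simp only [Finset.mem_filter, Finset.mem_univ, true_and]
              push Not
              have hval : l' q = l q + t * ν q := by simp [hl']
              rcases lt_or_gt_of_ne hqν with hneg | hpos
              · refine ⟨⌊l q⌋, ?_⟩
                have hr : t = (l q - ⌊l q⌋) / (- ν q) := by
                  rw [ht]; simp only [r]; rw [if_neg (by linarith)]
                rw [hval, hr]
                field_simp
                ring
              · refine ⟨⌈l q⌉, ?_⟩
                have hr : t = (⌈l q⌉ - l q) / ν q := by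
                  rw [ht]; simp only [r]; rw [if_pos hpos]
                rw [hval, hr]
                field_simp
                ring
          · intro p hp
            simp only [Finset.mem_filter, Finset.mem_univ, true_and] at hp ⊢
            intro z hz
            apply hp z
            have := hνi p ⟨z, hz⟩
            simp [hl', this, hz]
        omega
      obtain ⟨m, hm1, hm2, hm3⟩ := ih l' hcard
        (fun p => le_trans (by exact_mod_cast Int.le_floor.2 (h1 p)) (hb p).1)
        (fun p => le_trans (hb p).2 (by exact_mod_cast Int.ceil_le.2 (h2 p)))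
        (fun v => by rw [hb1]; exact hl v)
      exact ⟨m, hm1, hm2, fun v => by rw [hm3, hb1]⟩
    · apply ih l _ h1 h2 hl
      push Not at hf
      have : (Finset.univ.filter (fun p => ∀ z : ℤ, l p ≠ z)) = ∅ := by
        apply Finset.filter_eq_empty_iff.2
        intro p _
        push Not
        exact hf p
      rw [this]; simp

end Pool.Agent.H59.SEP
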