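import Pool.Agent.H59.SEP.GF

set_option autoImplicit false
set_option linter.unusedSectionVars false

open scoped Pointwise Polynomial

namespace Pool.Agent.H59.SEP

variable {V : Type*} [Fintype V] [DecidableEq V]

variable {H : SimpleGraph V} {i j : V}

theorem inHalf_iff {s : Finset (V → ℝ)} {f : V → ℤ} (D : FacetData H i j s f)
    {FS : Finset (Finset (V → ℝ))} (hs : s ∈ FS) {e' w : V → ℤ} {B k : ℕ}
    (hg : Generic H i j FS e' w B k) {σ : ℤ} (hσ : σ = 1 ∨ σ = -1) {x : V → ℤ}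
    (hx : ∑ a, x a = 0) :
    InHalf s e' σ x ↔ InCone s (s.filter (fun v => σ * crd s e' v < 0)) x := by
  classical
  constructor
  · intro h
    refine ⟨crd s x, h.crd_nonneg hs hg hσ, ?_, D.crd_spec hx⟩
    intro v hv
    rw [Finset.mem_filter] at hv
    exact (h v hv.1).2 hv.2
  · rintro ⟨c, hc0, hc1, hcx⟩
    have h1 := D.crd_of_sum (Finset.Subset.refl s) hx hcx
    intro v hv
    have h2 := h1 v hv
    rw [if_pos hv] at h2
    rw [h2]
    exact ⟨fun _ => hc0 v hv, fun h => hc1 v (Finset.mem_filter.2 ⟨hv, h⟩)⟩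

theorem gf_slope (hc : H.Connected) (hij : i ≠ j) (hne : ∃ a b, H.Adj a b)
    {L : ℕ → Finset (V → ℤ)}
    (hL : ∀ l x, x ∈ L l ↔ ∑ v, x v = 0 ∧ N H x = l)
    {K : Geometry.SimplicialComplex ℝ (V → ℝ)} {n : ℕ}
    (hK : IsUnimodularTriangulation K (⋃₀ {F | IsVisibleFacet (polytope H) (ev i j) F}) n)
    {FS : Finset (Finset (V → ℝ))} (hFS : ∀ s, s ∈ FS ↔ s ∈ K.facets)
    {f : Finset (V → ℝ) → V → ℤ} (D : ∀ s ∈ FS, FacetData H i j s (f s))
    {e' w : V → ℤ} {B k : ℕ} (hg : Generic H i j FS e' w B k) {σ : ℤ} (hσ : σ = 1 ∨ σ = -1)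
    {m : ℕ} (hm : 1 ≤ m) :
    gf L (fun x => slope H (ez i j) σ x = 1 + m) =
      ∑ s ∈ FS.filter (fun s => f s i - f s j = 1 + m),
        gf L (InCone s (s.filter (fun v => σ * crd s e' v < 0))) := by
  classical
  apply gf_sum
  intro l x hxl
  obtain ⟨hx, hxN⟩ := (hL l x).1 hxl
  by_cases hsl : slope H (ez i j) σ x = 1 + m
  · rw [if_pos hsl]
    obtain ⟨s, hs, hH, hfs⟩ := cover hc hij hne hK hFS D hg hσ hx (by rw [hsl]; omega)
    rw [Finset.sum_eq_single s]
    · rw [if_pos ((inHalf_iff (D s hs) hs hg hσ hx).1 hH)]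
    · intro t ht hts
      rw [Finset.mem_filter] at ht
      rw [if_neg]
      intro hcone
      have hH' := (inHalf_iff (D t ht.1) ht.1 hg hσ hx).2 hcone
      exact hts (InHalf.unique hc hFS D hg hσ hx ht.1 hs hH' hH)
    · intro hns
      exact absurd (Finset.mem_filter.2 ⟨hs, by rw [hfs, hsl]⟩) hns
  · rw [if_neg hsl]
    symm
    apply Finset.sum_eq_zero
    intro t ht
    rw [Finset.mem_filter] at ht
    rw [if_neg]
    intro hcone
    have hH' := (inHalf_iff (D t ht.1) ht.1 hg hσ hx).2 hcone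
    have := hH'.slope_eq hc (D t ht.1) ht.1 hg hσ hx
    rw [ht.2] at this
    exact hsl this.symm

theorem slope_one {x : V → ℤ} {e : V → ℤ} : slope H e 1 x = (N H (x + e) : ℤ) - N H x := by
  unfold slope; rw [one_smul, one_mul]

theorem slope_neg_one {x : V → ℤ} {e : V → ℤ} : slope H e (-1) x = (N H x : ℤ) - N H (x - e) := by
  unfold slope; rw [neg_smul, one_smul, ← sub_eq_add_neg]; ring

open Classical in
/-- the faces of the facets of slope at least `1+m` -/
noncomputable def SF (FS : Finset (Finset (V → ℝ))) (f : Finset (V → ℝ) → V → ℤ) (i j : V) (m : ℕ) :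
    Finset (Finset (V → ℝ)) :=
  (FS.filter (fun s => 1 + (m : ℤ) ≤ f s i - f s j)).biUnion Finset.powerset

theorem mem_SF {FS : Finset (Finset (V → ℝ))} {f : Finset (V → ℝ) → V → ℤ} {m : ℕ}
    {F : Finset (V → ℝ)} : F ∈ SF FS f i j m ↔ ∃ s ∈ FS, 1 + (m : ℤ) ≤ f s i - f s j ∧ F ⊆ s := by
  classical
  simp only [SF, Finset.mem_biUnion, Finset.mem_filter, Finset.mem_powerset]
  constructor
  · rintro ⟨s, ⟨h1, h2⟩, h3⟩; exact ⟨s, h1, h2, h3⟩
  · rintro ⟨s, h1, h2, h3⟩; exact ⟨s, ⟨h1, h2⟩, h3⟩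

theorem inCone_unique (hc : H.Connected) {K : Geometry.SimplicialComplex ℝ (V → ℝ)}
    {FS : Finset (Finset (V → ℝ))} (hFS : ∀ s, s ∈ FS ↔ s ∈ K.facets)
    {f : Finset (V → ℝ) → V → ℤ} (D : ∀ s ∈ FS, FacetData H i j s (f s))
    {x : V → ℤ} (hx : ∑ a, x a = 0) {s s' F F' : Finset (V → ℝ)} (hs : s ∈ FS) (hs' : s' ∈ FS)
    (hFs : F ⊆ s) (hFs' : F' ⊆ s') (h : InCone F F x) (h' : InCone F' F' x) : F = F' := by
  obtain ⟨c, hc0, hc1, hcx⟩ := h
  obtain ⟨c', hc0', hc1', hcx'⟩ := h'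
  have hN := (D s hs).N_of_sum hc hFs hx hc0 hcx
  have hN' := (D s' hs').N_of_sum hc hFs' hx hc0' hcx'
  rcases Finset.eq_empty_or_nonempty F with hF | hF
  · rcases Finset.eq_empty_or_nonempty F' with hF' | hF'
    · rw [hF, hF']
    · exfalso
      have h1 : 0 < ∑ v ∈ F', c' v :=
        Finset.sum_pos (fun v hv => by have := hc1' v hv; omega) hF'
      rw [hF, Finset.sum_empty] at hN
      omega
  · rcases Finset.eq_empty_or_nonempty F' with hF' | hF'
    · exfalso
      have h1 : 0 < ∑ v ∈ F, c v :=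
        Finset.sum_pos (fun v hv => by have := hc1 v hv; omega) hF
      rw [hF', Finset.sum_empty] at hN'
      omega
    · exact face_unique hc (D s hs) (D s' hs') (K.down_closed ((hFS s).1 hs).1 hFs hF)
        (K.down_closed ((hFS s').1 hs').1 hFs' hF') hFs hFs' hx
        (fun v hv => by have := hc1 v hv; omega) (fun v hv => by have := hc1' v hv; omega) hcx hcx'

theorem gf_slope_ge (hc : H.Connected) (hij : i ≠ j) (hne : ∃ a b, H.Adj a b)
    {L : ℕ → Finset (V → ℤ)}
    (hL : ∀ l x, x ∈ L l ↔ ∑ v, x v = 0 ∧ N H x = l)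
    {K : Geometry.SimplicialComplex ℝ (V → ℝ)} {n : ℕ}
    (hK : IsUnimodularTriangulation K (⋃₀ {F | IsVisibleFacet (polytope H) (ev i j) F}) n)
    {FS : Finset (Finset (V → ℝ))} (hFS : ∀ s, s ∈ FS ↔ s ∈ K.facets)
    {f : Finset (V → ℝ) → V → ℤ} (D : ∀ s ∈ FS, FacetData H i j s (f s))
    {e' w : V → ℤ} {B k : ℕ} (hg : Generic H i j FS e' w B k)
    {m : ℕ} (hm : 1 ≤ m) :
    gf L (fun x => 1 + (m : ℤ) ≤ slope H (ez i j) 1 x) =
      ∑ F ∈ SF FS f i j m, gf L (InCone F F) := by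
  classical
  apply gf_sum
  intro l x hxl
  obtain ⟨hx, hxN⟩ := (hL l x).1 hxl
  by_cases hsl : 1 + (m : ℤ) ≤ slope H (ez i j) 1 x
  · rw [if_pos hsl]
    obtain ⟨s, hs, hH, hfs⟩ := cover hc hij hne hK hFS D hg (Or.inl rfl) hx (by omega)
    have hnn := hH.crd_nonneg hs hg (Or.inl rfl)
    set F := s.filter (fun v => crd s x v ≠ 0) with hF
    have hFs : F ⊆ s := Finset.filter_subset _ _
    have hFc : InCone F F x := by
      refine ⟨crd s x, fun v hv => hnn v (hFs hv), ?_, ?_⟩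
      · intro v hv
        have h1 := hnn v (hFs hv)
        have h2 := (Finset.mem_filter.1 hv).2
        omega
      · rw [(D s hs).crd_spec hx, hF, Finset.sum_filter]
        apply Finset.sum_congr rfl
        intro v _
        split_ifs with h
        · rfl
        · push Not at h
          rw [h]; simp
    have hFm : F ∈ SF FS f i j m := mem_SF.2 ⟨s, hs, by rw [hfs]; exact hsl, hFs⟩
    rw [Finset.sum_eq_single F]
    · rw [if_pos hFc]
    · intro t ht hts
      obtain ⟨s', hs', _, hts'⟩ := mem_SF.1 ht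
      rw [if_neg]
      intro hcone
      exact hts (inCone_unique hc hFS D hx hs' hs hts' hFs hcone hFc)
    · intro hns
      exact absurd hFm hns
  · rw [if_neg hsl]
    symm
    apply Finset.sum_eq_zero
    intro t ht
    obtain ⟨s', hs', hfs', hts'⟩ := mem_SF.1 ht
    rw [if_neg]
    rintro ⟨c, hc0, hc1, hcx⟩
    apply hsl
    have hN := (D s' hs').N_of_sum hc hts' hx hc0 hcx
    have h1 := (D s' hs').crd_of_sum hts' hx hcx
    have h2 := (D s' hs').dot_eq hx
    rw [Finset.sum_congr rfl h1, ← Finset.sum_filter, Finset.filter_mem_eq_inter,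
      Finset.inter_eq_right.2 hts', ← hN] at h2
    have h3 := dot_le hc (D s' hs').lip (sum_add_ez hx i j)
    rw [dot_add, h2, dot_ez] at h3
    rw [slope_one]
    linarith

theorem coeff_gf (L : ℕ → Finset (V → ℤ)) (p : (V → ℤ) → Prop) [DecidablePred p] (l : ℕ) :
    PowerSeries.coeff l (gf L p) = (((L l).filter p).card : ℤ) := by
  classical
  rw [gf, PowerSeries.coeff_mk, Finset.card_filter]
  push_cast
  apply Finset.sum_congr rfl
  intro x _
  by_cases h : p x
  · rw [if_pos h, if_pos h]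
  · rw [if_neg h, if_neg h]

theorem gf_shift {L : ℕ → Finset (V → ℤ)}
    (hL : ∀ l x, x ∈ L l ↔ ∑ v, x v = 0 ∧ N H x = l) (m : ℕ) :
    gf L (fun x => slope H (ez i j) (-1) x = 1 + m) =
      PowerSeries.X ^ (1 + m) * gf L (fun x => slope H (ez i j) 1 x = 1 + m) := by
  ext l
  rw [PowerSeries.coeff_X_pow_mul', coeff_gf, coeff_gf]
  split_ifs with h
  · congr 1
    symm
    apply Finset.card_bij (fun x _ => x + ez i j)
    · intro x hx
      rw [Finset.mem_filter, hL, slope_one] at hx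
      rw [Finset.mem_filter, hL, slope_neg_one, add_sub_cancel_right]
      refine ⟨⟨sum_add_ez hx.1.1 i j, ?_⟩, hx.2⟩
      have h1 := hx.1.2
      have h2 := hx.2
      omega
    · intro x _ y _ hxy
      exact add_right_cancel hxy
    · intro y hy
      rw [Finset.mem_filter, hL, slope_neg_one] at hy
      refine ⟨y - ez i j, ?_, by simp⟩
      rw [Finset.mem_filter, hL, slope_one, sub_add_cancel]
      refine ⟨⟨?_, ?_⟩, hy.2⟩
      · have := sum_sub_smul hy.1.1 (sum_ez i j) 1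
        rwa [one_smul] at this
      · have h1 := hy.1.2
        have h2 := hy.2
        omega
  · rw [Finset.filter_eq_empty_iff.2]
    · simp
    · intro x hx
      rw [hL] at hx
      rw [slope_neg_one]
      intro h2
      have := hx.2
      omega

end Pool.Agent.H59.SEP
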